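import Pool.Agent.Helper47.RF.Core

/-!
# Project RF: framed Ricci flow in the language of `Helper47.RF.Core`

`A t x` (rows `A a i`): orthonormal frame `F_a = ∑_i A a i E_i`; `θ t x = (A t x)⁻¹`;
metric `g = θ θᵀ`, i.e. `g i j = ∑_a θ i a θ j a`. Uhlenbeck gauge: `∂_t A = Ric(frame) A`.
-/

set_option autoImplicit false

open Finset Pool.Agent.Helper47.RF

namespace Pool.Agent.Helper73.RF

/-- metric of a coframe -/
noncomputable def gOf (θ : MF) : MF := fun x => θ x * (θ x).transpose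

/-- curvature operator in the frame, from the curvature tensor of `gOf θ`:
`g(R(F_c,F_d)F_b,F_f) = - ∑ ε_cdl N_lk ε_kbf` -/
noncomputable def Nc (A θ : MF) (x : HH) : Matrix (Fin 3) (Fin 3) ℝ := fun l k =>
  -(1 / 4) * ∑ c, ∑ d, ∑ b, ∑ f, eps c d l * eps k b f *
    ∑ i, ∑ j, ∑ p, ∑ r, Rm (gOf θ) i j p r x * A x c i * A x d j * A x b p * A x f r

/-- `s` = half the scalar curvature = sum of the principal sectional curvatures -/
noncomputable def sC (A θ : MF) (x : HH) : ℝ := ∑ i, Nc A θ x i i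

/-- `q` = squared norm of the traceless part of the curvature operator -/
noncomputable def qC (A θ : MF) (x : HH) : ℝ :=
  ∑ i, ∑ j, Nc A θ x i j ^ 2 - 1 / 3 * sC A θ x ^ 2

/-- Ricci tensor in the frame -/
noncomputable def RicF (A θ : MF) (x : HH) (a b : Fin 3) : ℝ :=
  ∑ i, ∑ j, A x a i * A x b j * Ric (gOf θ) i j x

/-- `⟨∇u,∇v⟩` -/
noncomputable def ggC (g : MF) (u v : HH → ℝ) (x : HH) : ℝ :=
  ∑ i, ∑ j, (g x)⁻¹ i j * E i u x * E j v x

/-- Laplacian of a metric -/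
noncomputable def LapC (g : MF) (u : HH → ℝ) (x : HH) : ℝ :=
  ∑ i, ∑ j, (g x)⁻¹ i j * (E i (E j u) x - ∑ k, Gam g i j k x * E k u x)

/-- framed Ricci flow on the time set `I` -/
structure FFlow (I : Set ℝ) (A θ : ℝ → MF) : Prop where
  inv : ∀ t ∈ I, ∀ x, A t x * θ t x = 1
  flA : ∀ a i, SmFam1 I (fun t x => A t x a i)
    (fun t x => ∑ b, RicF (A t) (θ t) x a b * A t x b i)
  flt : ∀ i a, SmFam1 I (fun t x => θ t x i a)
    (fun t x => -∑ b, θ t x i b * RicF (A t) (θ t) x b a)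

/-- a smooth frame with inverse, at one time -/
structure Frm (A θ : MF) : Prop where
  inv : ∀ x, A x * θ x = 1
  smA : ∀ a i, Sm (fun x => A x a i)
  smt : ∀ i a, Sm (fun x => θ x i a)

/-- heat equation along a flow -/
def HeatOn (I : Set ℝ) (g : ℝ → MF) (u : ℝ → HH → ℝ) : Prop :=
  SmFam1 I u (fun t => LapC (g t) (u t))

/-- pinching of the curvature operator at `x` -/
def PinC (κ : ℝ) (A θ : MF) (x : HH) : Prop :=
  ∀ n : Fin 3 → ℝ, ∑ i, n i ^ 2 = 1 → κ * sC A θ x ≤ ∑ i, ∑ j, n i * n j * Nc A θ x i j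

/-- local existence, as delivered by helper36 -/
def LocExStmt : Prop :=
  ∀ A0 θ0 : MF, Frm A0 θ0 → ∃ τ > 0, ∃ A θ : ℝ → MF, FFlow (Set.Icc 0 τ) A θ ∧
    (∀ x, x ≠ 0 → A 0 x = A0 x ∧ θ 0 x = θ0 x)

/-- heat equation along a flow on a compact time interval, as delivered by helper36 -/
def HeatExStmt : Prop :=
  ∀ (τ : ℝ) (A θ : ℝ → MF), 0 < τ → FFlow (Set.Icc 0 τ) A θ → ∀ f : HH → ℝ, Sm f →
    ∃ u : ℝ → HH → ℝ, HeatOn (Set.Icc 0 τ) (fun t => gOf (θ t)) u ∧ ∀ x, x ≠ 0 → u 0 x = f x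

end Pool.Agent.Helper73.RF
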