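import Pool.Agent.Helper73.RF.Str

/-!
# Project RF, goals A: algebra of the frame bundle

Paper: team-store `rf_paper_helper73.md`, section 0. Everything here is identities in the commutative
algebra `F.B` with the derivations `H a`, `V k`, `D`. Useful: `Fin.sum_univ_three`, `fin_cases`,
`simp [eps]`, `Derivation.leibniz`, `smul_eq_mul`, `ring`, `linear_combination`, `module`.
-/

set_option autoImplicit false

open Finset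

namespace Pool.Agent.Helper73.RF

/-- PACKET ALG1. Jacobi identities `V,H,H` and `H,H,H`.

Proof. (VM) For `f` and `k, a, b`: apply `V k` to `HH`. Left side with `VH` twice:
`V_k [H_a,H_b] f = [H_a,H_b] V_k f + ∑_d eps k b d [H_a,H_d] f + ∑_c eps k a c [H_c,H_b] f`; replace
every bracket `[H,H]` by `HH`. Right side: `∑ eps a b i ((V_k M_ij) V_j f + M_ij V_k V_j f)`. The
difference is, with `[V_k,V_j] f = ∑_m eps k j m V_m f` (`VV`),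
`∑_j (∑_i eps a b i V_k M_ij - ∑_{d,i} eps k b d eps a d i M_ij - ∑_{c,i} eps k a c eps c b i M_ij
+ ∑_{i,m} eps a b i eps k m j M_im) V_j f = 0` for all `f`; by `ind` (first family `0`) the
coefficients vanish. Take `(a,b) = (1,2), (2,0), (0,1)` to get `V_k M_ij` for `i = 0, 1, 2`:
`V_k M_ij = ∑_a (eps k i a M_aj + eps k j a M_ia)`.
(Msymm, bianchi) For any `f` the sum over the cyclic permutations `(a,b,c)` of `(0,1,2)` of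
`H_c (H_a H_b f - H_b H_a f) - (H_a H_b - H_b H_a) H_c f` is `0`. By `HH` and `VH` it equals
`∑_c ∑_j ((H_c M_cj) V_j f + M_cj (H_c V_j f - V_j H_c f))` and `H_c V_j f - V_j H_c f =
-∑_b eps j c b H_b f`. By `ind`: `∑_c H_c M_cj = 0` and `∑_{c,j} eps j c b M_cj = 0`, i.e. `M`
symmetric. -/
def Alg1Stmt : Prop :=
  ∀ (T : ℝ) (F : FBD T), F.Base →
    (∀ i j, F.M i j = F.M j i)
    ∧ (∀ k i j, F.V k (F.M i j) = ∑ a, (eps k i a • F.M a j + eps k j a • F.M i a))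
    ∧ (∀ j, ∑ i, F.H i (F.M i j) = 0)

/-- PACKET ALG2 (given ALG1). Jacobi identity `D,H,H`.

Proof. Let `Y'` be as in `Base.DH`. Apply `D` to `HH` (use `DV`, `DH`, `VH`):
`D [H_a,H_b] f = [H_a,H_b] D f + ∑_c (S_ac [H_c,H_b] f - (H_b S_ac) H_c f) + ∑_k (Y'_ak [V_k,H_b] f
- (H_b Y'_ak) V_k f) + ∑_c (S_bc [H_a,H_c] f + (H_a S_bc) H_c f) + ∑_k (-Y'_bk [V_k,H_a] f
+ (H_a Y'_bk) V_k f)` (write `D H_a H_b f = H_a D H_b f + ∑ S_ac H_c H_b f + ∑ Y'_ak V_k H_b f` and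
`D H_b f = H_b D f + ...`). The other side: `∑ eps a b i ((D M_ij) V_j f + M_ij V_j D f)`.
By `ind` the coefficients of `H_c f`:
`-H_b S_ac + H_a S_bc + ∑_k (Y'_ak eps k b c - Y'_bk eps k a c) = 0` for all `a, b, c`, and of `V_j f`:
`∑_i eps a b i D M_ij = ∑_{c,i} (S_ac eps c b i + S_bc eps a c i) M_ij + H_a Y'_bj - H_b Y'_aj`.
The first family (9 independent equations `(a,b) ∈ {(0,1),(1,2),(2,0)}`) has the unique solution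
`Y' = Y`: `Y` satisfies it, as `∑_k Y_ak eps k b c = H_b S_ac - H_c S_ab` (`S` symmetric), and for the
difference `X = Y' - Y`: `∑_k (X_ak eps k b c - X_bk eps k a c) = 0`; e.g. `(a,b,c)` = `(0,1,0)`:
`-X_02... ` solve the 9 equations by hand: for `a ≠ b` put `c = a`: `∑_k X_ak eps k b a = 0`, so the
off-diagonal entries of `X` vanish; the remaining three equations (`a,b,c` distinct) give
`X_aa + X_bb = 0` up to sign, all three pairs, hence `X_aa = 0` (characteristic `0`: multiply by `1/2`).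
So `DHY`. The second family times `eps a b m / 2`, summed, with
`∑_b eps a b m eps c b i = δ_mi δ_ac - δ_mc δ_ai` gives `DM` (or: take `(a,b) = (m+1,m+2)`). -/
def Alg2Stmt : Prop :=
  ∀ (T : ℝ) (F : FBD T), F.Base →
    (∀ i j, F.M i j = F.M j i) →
    (∀ k i j, F.V k (F.M i j) = ∑ a, (eps k i a • F.M a j + eps k j a • F.M i a)) →
    (∀ j, ∑ i, F.H i (F.M i j) = 0) → F.Full

/-- PACKET EVM. Evolution of the curvature operator under the Ricci flow.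

Proof. In `Full.DM` put `S = Ric = s I - M`: `(tr S) M - S M = 2 s M - (s M - M²) = s M + M²`. Next
`∑ eps a b m H_a Y_bj = ∑ eps a b m eps j c d H_a H_c Ric_bd`. Expand (`simp [eps,
Fin.sum_univ_three]` for each `m, j`, or by the contraction identities):
`= Lap M_mj - ∑_a H_a H_m M_ja`, using `bianchi` (`∑_c H_c M_ca = 0`, hence also `H_a` of it).
Finally `∑_a H_a H_m M_ja = ∑_a [H_a,H_m] M_ja` (bianchi and symmetry) `= ∑ eps a m i M_il V_l M_ja`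
and with `VM` this is `(-3 M² + 3 s M - (s² - |M|²) I)_mj`. -/
def EvmStmt : Prop :=
  ∀ (T : ℝ) (F : FBD T), F.Full → F.IsRF → ∀ m j,
    F.Hop (F.M m j) = (4 : ℝ) • (∑ i, F.M m i * F.M i j) - (2 : ℝ) • (F.s * F.M m j)
      + if m = j then F.s ^ 2 - F.n2 else 0

/-- PACKET VIN. `V`-invariant functions.

Proof. `V_k s = ∑_i ∑_a (eps k i a M_ai + eps k i a M_ia) = 0` by symmetry of `M` and antisymmetry
of `eps`; `n2` the same. `V_k H_a f = H_a V_k f + ∑ eps k a b H_b f`. Closure: `V k` is a derivation;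
`V_k (∑ H_a f H_a g) = ∑ eps k a b (H_b f H_a g + H_a f H_b g) = 0`;
`V_k H_a H_a f = H_a V_k H_a f + ∑ eps k a b H_b H_a f = ∑_{a,b} eps k a b (H_a H_b f + H_b H_a f) = 0`
summed over `a`; `DV`. Symmetry of the second derivatives: `HH`. `h2`: `V_k (H_a H_b f) =
∑_c eps k b c H_a H_c f + ∑_c eps k a c H_c H_b f`, antisymmetry again. For `M`: `V_k H_c M_ij`
rotates the three indices. -/
def VinStmt : Prop :=
  ∀ (T : ℝ) (F : FBD T), F.Full →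
    F.VI F.s ∧ F.VI F.n2 ∧ F.VI F.q ∧ F.VI F.tt ∧ F.VI F.dM0 ∧ F.VI F.dM
    ∧ (∀ c : ℝ, F.VI (algebraMap ℝ F.B c))
    ∧ (∀ f g, F.VI f → F.VI g → F.VI (f + g) ∧ F.VI (f - g) ∧ F.VI (f * g) ∧ F.VI (F.gg f g))
    ∧ (∀ (c : ℝ) f, F.VI f → F.VI (c • f))
    ∧ (∀ f, F.VI f → F.VI (F.Lap f) ∧ F.VI (F.D f) ∧ F.VI (F.h2 f))
    ∧ (∀ f, F.VI f → ∀ a b, F.H a (F.H b f) = F.H b (F.H a f))
    ∧ (∀ f, F.VI f → ∀ k a, F.V k (F.H a f) = ∑ b, eps k a b • F.H b f)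

/-- PACKET PRD. Product rule of the heat operator (only that `H a`, `D` are derivations). -/
def PrdStmt : Prop :=
  ∀ (T : ℝ) (F : FBD T) (f g : F.B),
    F.Hop (f * g) = f * F.Hop g + g * F.Hop f - (2 : ℝ) • F.gg f g
    ∧ F.Hop (f + g) = F.Hop f + F.Hop g ∧ F.Hop (f - g) = F.Hop f - F.Hop g
    ∧ (∀ c : ℝ, F.Hop (c • f) = c • F.Hop f ∧ F.Hop (algebraMap ℝ F.B c) = 0)
    ∧ F.Hop (f ^ 2) = (2 : ℝ) • (f * F.Hop f) - (2 : ℝ) • F.gg f f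

/-- PACKET BOC (given VIN). Bochner formulas, `f` `V`-invariant.

Proof. (1) `H_c H_c H_a f = H_c H_a H_c f = H_a H_c H_c f + [H_c,H_a] H_c f` and
`[H_c,H_a] H_c f = ∑ eps c a i M_ij V_j H_c f = ∑ eps c a i eps j c d M_ij H_d f`, and
`∑_c eps c a i eps j c d = δ_ad δ_ij - δ_aj δ_id`. (2) `D H_a f = H_a D f + Ric_ab H_b f` (the
vertical part vanishes on `f`), minus (1). (3) `D H_a H_a f = H_a D H_a f + Ric_ab H_b H_a f +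
Y_ak V_k H_a f`, `H_a D H_a f = H_a H_a D f + H_a (Ric_ab H_b f)`; summed:
`Lap D f + 2 Ric_ab H_a H_b f + (∑ H_a Ric_ab) H_b f + ∑ Y_ak eps k a b H_b f`;
`∑_a H_a Ric_ab = H_b s`, `∑ Y_ak eps k a b = ∑ eps k c d eps k a b H_c Ric_ad = ∑_a (H_a Ric_ab -
H_b Ric_aa) = H_b s - 2 H_b s`. -/
def BocStmt : Prop :=
  ∀ (T : ℝ) (F : FBD T), F.Full → ∀ f, F.VI f →
    (∀ a, F.Lap (F.H a f) = F.H a (F.Lap f) + ∑ b, F.Ric a b * F.H b f)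
    ∧ (F.IsRF → ∀ a, F.Hop (F.H a f) = F.H a (F.Hop f))
    ∧ (F.IsRF → F.Hop (F.Lap f) = F.Lap (F.Hop f)
        + (2 : ℝ) • ∑ a, ∑ b, F.Ric a b * F.H a (F.H b f))

/-- PACKET EVS (given EVM, PRD, VIN, BOC). Evolution of the scalars under the Ricci flow.

Proof. (1) trace of `EVM`: `Hop s = 4 |M|² - 2 s² + 3 (s² - |M|²)`. (2) `q = n2 - s²/3`,
`Hop n2 = ∑ (2 M_ij Hop M_ij - 2 gg M_ij M_ij)` `= 8 tr M³ - 6 s |M|² + 2 s³ - 2 |DM|²`,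
`Hop s² = 2 s Hop s - 2 gg s s`; `tr M³ = c3 + s q + s³/9`, `|M|² = q + s²/3`,
`|DM|² - |∇s|²/3 = dM0`. (3) `q = ∑ M0_ij²`, `dM = dM0 + gg s s / 3`.
(4) `Hop ((H_a s)²) = 2 H_a s Hop (H_a s) - 2 ∑_b (H_b H_a s)²`, `Hop (H_a s) = H_a (Hop s)` (BOC for
`f = s`), `H_a (s² + n2) = 2 s H_a s + 2 ∑ M_ij H_a M_ij`. (5) for a solution `u` of the heat equation:
`Hop (H_a u) = 0` (BOC); `Hop (Lap u) = 2 Ric_ab H_a H_b u`. (6) `H_a q = 2 ∑ M0_ij H_a M0_ij`. -/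
def EvsStmt : Prop :=
  ∀ (T : ℝ) (F : FBD T), F.Full → F.IsRF →
    F.Hop F.s = F.s ^ 2 + F.n2
    ∧ F.Hop F.q = -((2 : ℝ) • F.dM0) + (4 / 3 : ℝ) • (F.s * F.q) + (8 : ℝ) • F.c3
    ∧ F.q = ∑ i, ∑ j, F.M0 i j ^ 2
    ∧ F.dM = F.dM0 + (1 / 3 : ℝ) • F.gg F.s F.s
    ∧ F.Hop (F.gg F.s F.s) = (4 : ℝ) • (F.s * F.gg F.s F.s)
        + (4 : ℝ) • (∑ a, ∑ i, ∑ j, F.H a F.s * F.M i j * F.H a (F.M i j))
        - (2 : ℝ) • F.h2 F.s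
    ∧ (∀ a, F.H a F.q = (2 : ℝ) • ∑ i, ∑ j, F.M0 i j * F.H a (F.M0 i j))
    ∧ (∀ u, F.VI u → F.Hop u = 0 →
        F.Hop (F.gg u u) = -((2 : ℝ) • F.h2 u)
        ∧ F.Hop (F.Lap u) = (2 : ℝ) • ∑ a, ∑ b, F.Ric a b * F.H a (F.H b u))

/-- PACKET BIA (given EVS). Pointwise consequences of the Bianchi identity.

Proof. `ev z t` is a ring homomorphism to `ℝ`. `∑_i H_i M0_ij = -(1/3) H_j s` (bianchi), so
`(H_j s)² = 9 (∑_i H_i M0_ij)² ≤ 27 ∑_i (H_i M0_ij)²`, sum over `j`. `dM = dM0 + gg s s/3`.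
`(H_a q)² ≤ 4 (∑ M0_ij²)(∑ (H_a M0_ij)²)`, sum over `a`. `ev (gg f g)` Cauchy-Schwarz.
`(∑_a H_a s (∑ M_ij H_a M_ij))² ≤ gg s s * n2 * dM` twice Cauchy-Schwarz. `(∑_{a,b} H_a f H_b f
H_a H_b f)² ≤ (gg f f)² h2 f`; `∑_a H_a (gg f f) H_a f = 2 ∑_{a,b} H_b f H_a H_b f H_a f`.
`(Lap f)² ≤ 3 ∑_a (H_a H_a f)² ≤ 3 h2 f`. `(∑ Ric_ab H_a H_b f)² ≤ (∑ Ric²) h2 f`,
`∑ Ric² = 3 s² - 2 s² + n2`. -/
def BiaStmt : Prop :=
  ∀ (T : ℝ) (F : FBD T), F.Full → F.IsRF → ∀ z t,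
    F.ev z t (F.gg F.s F.s) ≤ 27 * F.ev z t F.dM0
    ∧ F.ev z t F.dM ≤ 10 * F.ev z t F.dM0
    ∧ F.ev z t (F.gg F.q F.q) ≤ 4 * F.ev z t F.q * F.ev z t F.dM0
    ∧ 0 ≤ F.ev z t F.dM0 ∧ 0 ≤ F.ev z t F.dM ∧ 0 ≤ F.ev z t F.q
    ∧ F.ev z t (∑ a, ∑ i, ∑ j, F.H a F.s * F.M i j * F.H a (F.M i j)) ^ 2
        ≤ F.ev z t (F.gg F.s F.s) * F.ev z t F.n2 * F.ev z t F.dM
    ∧ (∀ f g, F.ev z t (F.gg f g) ^ 2 ≤ F.ev z t (F.gg f f) * F.ev z t (F.gg g g))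
    ∧ (∀ f, 0 ≤ F.ev z t (F.gg f f) ∧ 0 ≤ F.ev z t (F.h2 f)
        ∧ F.ev z t (F.gg (F.gg f f) f) ^ 2 ≤ 4 * F.ev z t (F.gg f f) ^ 2 * F.ev z t (F.h2 f)
        ∧ F.ev z t (F.Lap f) ^ 2 ≤ 3 * F.ev z t (F.h2 f)
        ∧ F.ev z t (∑ a, ∑ b, F.Ric a b * F.H a (F.H b f)) ^ 2
            ≤ (F.ev z t F.s ^ 2 + F.ev z t F.n2) * F.ev z t (F.h2 f))

/-- PACKET LIN. Linear algebra of symmetric real `3 × 3` matrices.

Proof. Spectral theorem (`Matrix.IsHermitian`): eigenvalues `a, b, c ≥ κ s` (use unit eigenvectors),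
`s = a+b+c`, `∑ N_ij² = a²+b²+c²`, `tr N³ = a³+b³+c³` (so `tr N0³ = ∑ (a - s/3)³`). With `κ, s ≥ 0` all
eigenvalues are `≥ 0`: `a²+b²+c² ≤ (a+b+c)²`. `q = ∑ (a - κ s)² - ((1-3κ)s)²/3 ≤ (2/3)((1-3κ)s)²`,
because `∑ x_i² ≤ (∑ x_i)²` for `x_i = a_i - κ s ≥ 0`, `∑ x_i = (1-3κ)s` (in particular
`(1 - 3κ) s ≥ 0`). For `x+y+z = 0`: `(x²+y²+z²)³ - 6 (x³+y³+z³)² = 2 ((x-y)(y-z)(z-x))² ≥ 0`. -/
def LinStmt : Prop :=
  ∀ (N : Fin 3 → Fin 3 → ℝ) (κ : ℝ), (∀ i j, N i j = N j i) → 0 ≤ κ → 0 ≤ ∑ i, N i i →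
    (∀ n : Fin 3 → ℝ, ∑ i, n i ^ 2 = 1 → κ * ∑ i, N i i ≤ ∑ i, ∑ j, n i * n j * N i j) →
    0 ≤ (1 - 3 * κ) * ∑ i, N i i
    ∧ ∑ i, ∑ j, N i j ^ 2 ≤ (∑ i, N i i) ^ 2
    ∧ ∑ i, ∑ j, N i j ^ 2 - (1 / 3) * (∑ i, N i i) ^ 2
        ≤ (2 / 3) * ((1 - 3 * κ) * ∑ i, N i i) ^ 2
    ∧ 6 * (∑ i, ∑ j, ∑ k, (N i j - if i = j then (1 / 3) * ∑ l, N l l else 0)
        * (N j k - if j = k then (1 / 3) * ∑ l, N l l else 0)
        * (N k i - if k = i then (1 / 3) * ∑ l, N l l else 0)) ^ 2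
        ≤ (∑ i, ∑ j, N i j ^ 2 - (1 / 3) * (∑ i, N i i) ^ 2) ^ 3

/-- PACKET PQ (given VIN, LIN). Pointwise consequences of pinching.

Proof. Fix `z, t`, `N i j = ev z t (M i j)`; for a unit vector `n` take `z'` from `fib`:
`κ ev z t s = κ ev z' t s ≤ ev z' t (M 0 0) = ∑ n_i n_j N_ij` (`s` is `V`-invariant). Apply LIN; `ev`
is an algebra homomorphism. -/
def PqStmt : Prop :=
  ∀ (T : ℝ) (F : FBD T), F.Full → ∀ κ : ℝ, 0 ≤ κ → F.Pin κ → (∀ z t, 0 ≤ F.ev z t F.s) → ∀ z t,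
    F.ev z t F.n2 ≤ F.ev z t F.s ^ 2
    ∧ 0 ≤ (1 - 3 * κ) * F.ev z t F.s
    ∧ F.ev z t F.q ≤ 2 / 3 * ((1 - 3 * κ) * F.ev z t F.s) ^ 2
    ∧ 6 * F.ev z t F.c3 ^ 2 ≤ F.ev z t F.q ^ 3

end Pool.Agent.Helper73.RF
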