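import Pool.Agent.Helper73.RF.FR
import Pool.Agent.Helper73.RF.GoalsA

/-!
# Project RF, goals C: moving frames and the frame bundle instance (algebra)

`Fin.sum_univ_three`, `fin_cases`, `simp [eps]`, `ring`, `linear_combination` are useful. For the
bigger identities keep the sums symbolic (`Finset.sum_comm`, `Finset.mul_sum`) or work with the
9 resp. 27 explicit components.
-/

set_option autoImplicit false

open Finset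

namespace Pool.Agent.Helper73.RF

/-- hypotheses on a moving frame over a commutative algebra -/
structure FrameHyp {𝒜 : Type} [CommRing 𝒜] [Algebra ℝ 𝒜] (E : Fin 3 → Derivation ℝ 𝒜 𝒜)
    (A θ : Fin 3 → Fin 3 → 𝒜) : Prop where
  EE : ∀ i j f, E i (E j f) - E j (E i f) = (2 : ℝ) • ∑ k, eps i j k • E k f
  At : ∀ a b, ∑ i, A a i * θ i b = if a = b then 1 else 0
  tA : ∀ i j, ∑ a, θ i a * A a j = if i = j then 1 else 0

/-- PACKET FRA. First identities of the moving frame.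

Proof. (a) `F_a F_b f - F_b F_a f = ∑_j (F_a A_bj - F_b A_aj) E_j f + ∑ A_ai A_bk [E_i,E_k] f` and
`E_j = ∑_c θ_jc F_c` (`tA`). (b) antisymmetry of `C` in the first two indices gives
`Γ_abc = -Γ_acb`. (c) `∑_k eps k b c eps k d e = δ_bd δ_ce - δ_be δ_cd` and (b). (d) expand.
(e) `Ω` antisymmetric in `c, d` (uses (C antisymmetric)); an antisymmetric `X_cd` is
`∑_l eps c d l (½ ∑ eps a b l X_ab)`. -/
def FraStmt : Prop :=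
  ∀ (𝒜 : Type) [CommRing 𝒜] [Algebra ℝ 𝒜] (E : Fin 3 → Derivation ℝ 𝒜 𝒜)
    (A θ : Fin 3 → Fin 3 → 𝒜), FrameHyp E A θ →
    (∀ a b f, FR.Fd E A a (FR.Fd E A b f) - FR.Fd E A b (FR.Fd E A a f)
      = ∑ c, FR.C E A θ a b c * FR.Fd E A c f)
    ∧ (∀ a b c, FR.C E A θ a b c = -FR.C E A θ b a c)
    ∧ (∀ a b c, FR.Gam E A θ a b c = -FR.Gam E A θ a c b)
    ∧ (∀ a b c, FR.Gam E A θ a b c = ∑ k, eps k b c • FR.om E A θ a k)
    ∧ (∀ a b c, FR.C E A θ a b c = FR.Gam E A θ a b c - FR.Gam E A θ b a c)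
    ∧ (∀ c d k, FR.Om E A θ c d k = -∑ l, eps c d l • FR.N E A θ l k)
    ∧ (∀ i f, E i f = ∑ a, θ i a * FR.Fd E A a f)

/-- PACKET LCR (given FRA). The Christoffel symbols of Koszul in the moving frame.

Proof. `g_jk = ∑ θ_ja θ_ka`, so `∑_jk A_bj g_jk A_ck = δ_bc`, `∑_k g_jk A_ck = θ_jc`,
`∑_k gi_ik g_kj = δ_ij`. Put `P_abc = ∑_jk (F_a A_bj) g_jk A_ck`, `Q_abc = 2 ∑ A_ai A_bj ε_ijl g_lk A_ck`.
Differentiating `∑ A_bj A_ck g_jk = δ_bc`: `∑ A_bj A_ck F_a g_jk = -P_abc - P_acb`. Hence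
`∑ A_ai A_bj A_ck KL_ijk = ½(-P_abc - P_acb - P_bac - P_bca + P_cab + P_cba + Q_abc - Q_acb - Q_bca)`.
`C_abc = P_abc - P_bac + Q_abc`, `Q_cab = -Q_acb`, so
`P_abc + ∑ A_ai A_bj A_ck KL_ijk = ½ (C_abc - C_bca + C_cab) = Γ_abc`. Finally
`∑_l (F_a A_bl + ∑ A_ai A_bj KE_ijl) θ_lc = P_abc + ∑ A A A KL = Γ_abc` (as `∑_k gi_lk KL_ijk` lowered is
`KL`), then multiply by `A_cl` and sum over `c` (`tA`). -/
def LcrStmt : Prop :=
  ∀ (𝒜 : Type) [CommRing 𝒜] [Algebra ℝ 𝒜] (E : Fin 3 → Derivation ℝ 𝒜 𝒜)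
    (A θ : Fin 3 → Fin 3 → 𝒜), FrameHyp E A θ →
    (∀ a b l, FR.Fd E A a (A b l) + ∑ i, ∑ j, A a i * A b j * FR.KE E A θ i j l
      = ∑ c, FR.Gam E A θ a b c * A c l)
    ∧ (∀ i j, ∑ k, FR.gi A i k * FR.g θ k j = if i = j then 1 else 0)
    ∧ (∀ a b, ∑ i, ∑ j, A a i * FR.g θ i j * A b j = if a = b then 1 else 0)

/-- PACKET GEO (given FRA, LCR). The curvature in the moving frame.

Proof. For `W : Fin 3 → 𝒜` (components in the frame `E`) put `(∇_a W)_k = F_a W_k +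
∑ A_ai W_j KE_ijk`. LCR: `∇_a A_b = ∑_c Γ_abc A_c`. For every `W`, expanding and with
`F_c F_d - F_d F_c = ∑ C_cde F_e`, `F_c A_dj - F_d A_cj = ∑_e C_cde A_ej - 2 ∑ A_ci A_dk ε_ikj`:
`(∇_c ∇_d W - ∇_d ∇_c W - ∑_e C_cde ∇_e W)_l = ∑_{i,j,k} A_ci A_dj W_k RE_ijkl`. For `W = A_b` the left
side is, with LCR, `∑_f (F_c Γ_dbf - F_d Γ_cbf + ∑_e (Γ_dbe Γ_cef - Γ_cbe Γ_def) - ∑_e C_cde Γ_ebf) A_fl`
and with `Γ_abc = ∑_k ε_kbc ω_ak` and `ε_kbe ε_lef = δ_kf δ_bl - δ_kl δ_bf` the bracket is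
`∑_k ε_kbf Ω_cdk`. Second claim: contraction (trace) of the first with `Om = -∑ eps c d l N_lk`:
`∑_{j,k} A_dj A_bk ∑_i RE_ijki = ∑_c (c-th component) = ∑_c ∑_k ε_kbc Ω_cdk =
δ_db tr N - N_bd` (`∑_i W_i`-trace: `∑_i RE_ijki = ∑_{i,l,c} θ_ic A_cl ... `, use `tA`). -/
def GeoStmt : Prop :=
  ∀ (𝒜 : Type) [CommRing 𝒜] [Algebra ℝ 𝒜] (E : Fin 3 → Derivation ℝ 𝒜 𝒜)
    (A θ : Fin 3 → Fin 3 → 𝒜), FrameHyp E A θ →
    (∀ c d b l, ∑ i, ∑ j, ∑ k, A c i * A d j * A b k * FR.RE E A θ i j k l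
      = ∑ f, (∑ k, eps k b f • FR.Om E A θ c d k) * A f l)
    ∧ (∀ c d b f, ∑ i, ∑ j, ∑ k, ∑ l, A c i * A d j * A b k * A f l
        * (∑ m, FR.RE E A θ i j k m * FR.g θ m l)
      = -∑ k, ∑ l, (eps c d l * eps k b f) • FR.N E A θ l k)
    ∧ (∀ d b, ∑ j, ∑ k, A d j * A b k * ∑ i, FR.RE E A θ i j k i
      = (if d = b then ∑ i, FR.N E A θ i i else 0) - FR.N E A θ b d)

/-- PACKET NSY (given FRA). `N` is symmetric (first Bianchi identity).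

Proof. Jacobi: `∑_cyc [F_a,[F_b,F_c]] f = 0` for all `f`, `[F_b,F_c] = ∑_e C_bce F_e`:
`∑_cyc ∑_e (F_a C_bce + ∑_d C_bcd C_ade) F_e f = 0`; by `ind` (and invertibility of `A`) all
coefficients vanish. With `C_abc = Γ_abc - Γ_bac`, `Γ_abc = ∑ ε_kbc ω_ak` this is
`∑_cyc ∑_k ε_kcf Ω_abk = 0` (first Bianchi identity for the connection), and
`Ω_abk = -∑_l ε_abl N_lk` gives `∑_cyc ε_abl ε_kcf N_lk = 0`, i.e. `N_lk = N_kl`
(take `(a,b,c) = (0,1,2)`: the sum is `∑_c ∑_k ε_kcf N_ck`). -/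
def NsyStmt : Prop :=
  ∀ (𝒜 : Type) [CommRing 𝒜] [Algebra ℝ 𝒜] (E : Fin 3 → Derivation ℝ 𝒜 𝒜)
    (A θ : Fin 3 → Fin 3 → 𝒜), FrameHyp E A θ →
    (∀ a : Fin 3 → 𝒜, (∀ f, ∑ i, a i * E i f = 0) → ∀ i, a i = 0) →
    ∀ l k, FR.N E A θ l k = FR.N E A θ k l

/-- PACKET NAT. Naturality of the formulas under algebra homomorphisms commuting with the
derivations. Proof: unfold, `map_sum`, `map_mul`, `map_add`, `map_sub`, `map_smul`. -/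
def NatStmt : Prop :=
  ∀ (𝒜 ℬ : Type) [CommRing 𝒜] [Algebra ℝ 𝒜] [CommRing ℬ] [Algebra ℝ ℬ]
    (E : Fin 3 → Derivation ℝ 𝒜 𝒜) (E' : Fin 3 → Derivation ℝ ℬ ℬ) (φ : 𝒜 →ₐ[ℝ] ℬ)
    (A θ : Fin 3 → Fin 3 → 𝒜), (∀ i f, φ (E i f) = E' i (φ f)) →
    (∀ a k, φ (FR.om E A θ a k) = FR.om E' (fun a i => φ (A a i)) (fun i a => φ (θ i a)) a k)
    ∧ (∀ l k, φ (FR.N E A θ l k) = FR.N E' (fun a i => φ (A a i)) (fun i a => φ (θ i a)) l k)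
    ∧ (∀ i j k l, φ (FR.RE E A θ i j k l)
        = FR.RE E' (fun a i => φ (A a i)) (fun i a => φ (θ i a)) i j k l)
    ∧ (∀ i j k, φ (FR.KE E A θ i j k)
        = FR.KE E' (fun a i => φ (A a i)) (fun i a => φ (θ i a)) i j k)

/-- hypotheses on a moving frame in the basic algebra -/
structure BA.FH {T : ℝ} (P : BA T) (A θ S0 : Fin 3 → Fin 3 → P.B) : Prop where
  XA : ∀ a i, P.XT (A a i)
  Xt : ∀ i a, P.XT (θ i a)
  XS : ∀ a b, P.XT (S0 a b)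
  At : ∀ a b, ∑ i, A a i * θ i b = if a = b then 1 else 0
  tA : ∀ i j, ∑ a, θ i a * A a j = if i = j then 1 else 0
  DA : ∀ a i, P.Dt (A a i) = ∑ b, S0 a b * A b i
  Ssy : ∀ a b, S0 a b = S0 b a

/-- `Y` of the bundle as an element of `P.B` -/
noncomputable def BA.Yb {T : ℝ} (P : BA T) (A θ S0 : Fin 3 → Fin 3 → P.B) (a k : Fin 3) : P.B :=
  (P.toFBD A θ S0).Y a k

/-- `s` of the bundle as an element of `P.B` -/
noncomputable def BA.sb {T : ℝ} (P : BA T) (A θ S0 : Fin 3 → Fin 3 → P.B) : P.B :=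
  (P.toFBD A θ S0).s

/-- PACKET INSB (given FRA). The curvature of the frame bundle, field `HH`.

Proof. `L_b = F_b + ∑ ω_bk U_k`, `H_a = ∑ R_ab L_b`. All of `A, θ, ω, C, Ω, N` are killed by `U, V`
(`U, V` commute with `E`). `[L_c,L_d] f = ∑ C_cde F_e f + ∑_k (F_c ω_dk - F_d ω_ck) U_k f +
∑ ω_cl ω_dm ε_lmk U_k f = ∑_e C_cde L_e f + ∑_k Ω_cdk U_k f`. `L_c R_bd = ∑ ω_ck ε_kde R_be` (`UR`, `ER`).
`[H_a,H_b] f = ∑ R_ac R_bd [L_c,L_d] f + ∑ R_ac (L_c R_bd) L_d f - ∑ R_bd (L_d R_ac) L_c f`; the `L_e`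
part is `∑ R_ac R_bd (C_cde + ∑_k ω_ck ε_ked - ∑_k ω_dk ε_kec) L_e f = 0` by FRA
(`C_cde = Γ_cde - Γ_dce = ∑_k (ε_kde ω_ck - ε_kce ω_dk)`). So `[H_a,H_b] f = ∑ R_ac R_bd Ω_cdk U_k f =
∑ R_ac R_bd (-ε_cdl N_lk)(-R_jk V_j f) = ∑ ε_abi R_il N_lk R_jk V_j f` (`cross`, `UeV`). -/
def InsbStmt : Prop :=
  ∀ (T : ℝ) (P : BA T), P.Ax → ∀ A θ S0 : Fin 3 → Fin 3 → P.B, P.FH A θ S0 →
    ∀ a b f, (P.toFBD A θ S0).H a ((P.toFBD A θ S0).H b f)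
        - (P.toFBD A θ S0).H b ((P.toFBD A θ S0).H a f)
      = ∑ i, ∑ j, eps a b i • ((P.toFBD A θ S0).M i j * (P.toFBD A θ S0).V j f)

/-- PACKET INSA (given INSB). The instance: all other fields.

Proof. `ext`, `cont`, `tt`, `time`, `comp`, `VV`, `DV`: from `P.Ax`. `chain`: `H_a` is a
`B`-combination of `E_i, U_k`. `min1`: at a spatial minimum `P.Ax.min` for coordinate vectors
gives `E_i f = U_k f = 0`; with `c_i = ∑_b ev(R_ab) ev(A_bi)`, `d_k = ∑_b ev(R_ab) ev(ω_bk)`: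
`ev (H_a f) = ev (cf c d f)`, and `H_a = ∑ α_i E_i + ∑ γ_k U_k` gives `H_a H_a f = ∑ α_i α_j E_i E_j f +
... + ∑ (H_a α_j) E_j f + ∑ (H_a γ_l) U_l f`, so `ev (H_a H_a f) = ev (cf c d (cf c d f))`. `fib`: `N`,
`A`, `θ` are `V`-invariant, `M_00(z') = ∑ R_0l(z') R_0k(z') N_lk`. `ind`: test with `f = P.X c d`
(`U X = V X = 0`): with `c_j = ∑ a_i R_ib A_bj`: `∑_j c_j ε_jde X_ce = 0` for all `c, d`, multiply by
`X_cf` and sum over `c` (`XtX`): `∑_j c_j ε_jdf = 0`, so `c = 0`, so `a = 0` (multiply by `θ`, `R`).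
Then `f = P.R a b`: `∑_k b_k ε_kac R_cb = 0`, so `b = 0`. `VH`: `V` commutes with `E, U` and kills `A`,
`ω`; `VR`. `DH`: `D (H_a f) = H_a (D f) + ∑ R_ab S0_bc L_c f + ∑ R_ab (Dt ω_bl - ∑ S0_bc ω_cl) U_l f`,
`∑_d S_ad H_d f = ∑ R_ab S0_bc L_c f` (`RtR`), `U_l = -∑ R_kl V_k`. -/
def InsaStmt : Prop :=
  ∀ (T : ℝ) (P : BA T), P.Ax → ∀ A θ S0 : Fin 3 → Fin 3 → P.B, P.FH A θ S0 →
    (P.toFBD A θ S0).Base
    ∧ (∀ a k, P.XT (FR.om P.E A θ a k)) ∧ (∀ l k, P.XT (FR.N P.E A θ l k))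

/-- PACKET YOM (given ALG1, ALG2, INSA). Evolution of the connection form, and the Ricci flow case.

Proof. `Full.DHY` and `DH` as computed in INSA: the difference of the two vertical parts is
`∑_k (Y_ak + ∑_{b,l} R_ab (Dt ω_bl - ∑_c S0_bc ω_cl) R_kl) V_k f = 0`; by `ind` the coefficients vanish;
multiply by `R_ab`, `R_kl` and sum over `a`, `k`. Second claim: `Ric_ij` of the bundle is
`∑ R_ia R_jb Ricf_ab` because `∑_i M_ii = ∑ N_ii` (`RtR`), `∑_c R_ic R_jc = δ_ij`. -/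
def YomStmt : Prop :=
  ∀ (T : ℝ) (P : BA T), P.Ax → ∀ A θ S0 : Fin 3 → Fin 3 → P.B, P.FH A θ S0 →
    (P.toFBD A θ S0).Full
    ∧ (∀ b l, P.Dt (FR.om P.E A θ b l) = ∑ c, S0 b c * FR.om P.E A θ c l
        - ∑ a, ∑ k, P.R a b * P.R k l * P.Yb A θ S0 a k)
    ∧ P.sb A θ S0 = ∑ i, FR.N P.E A θ i i
    ∧ ((∀ a b, S0 a b = FR.Ricf P.E A θ a b) → (P.toFBD A θ S0).IsRF)

end Pool.Agent.Helper73.RF
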