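import Pool.Agent.Helper73.RF.BAC
import Pool.Agent.Helper73.RF.GoalsC
import Pool.Agent.Helper47.RF.CoreGoals

/-!
# Project RF, goals D: the concrete basic algebra

`baC T` (file `BAC.lean`): smooth functions of `(x,q,t)` on `Om T`, homogeneous in `x` and `q`;
derivations along the fields `vf a b c d : (x,q,t) ↦ (x a, q b + c q, d)`. `exT f` = extension by `0`,
`exT_hasFDerivAt`, `exT_coe`, `rotf_formula`, `sm_rotf` are useful.
-/

set_option autoImplicit false

open Finset Pool.Agent.Helper47.RF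

namespace Pool.Agent.Helper73.RF

/-- PACKET D1. Elementary fields of `BA.Ax` for `baC T`.

Proof. `ext`: by homogeneity `f (x,q,t) = f (x/|x|, q/|q|, t)` (`IsB.hom` with `r = 1/|x|`,
`s = 1/|q|`). `cont`: composition of `exT f` (continuous on `Om T`) with `(z,t) ↦ (z.1,z.2,t)`.
`time`: chain rule, the field is `(0,0,1)`. `comp`: `g = φ ∘ f`, `exT g = φ ∘ exT f` on `Om T`; all
values of `f` on `Om T` are values on `S³ × S³`. `chain`: `exT g = φ ∘ exT f` on `Om T` (by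
homogeneity from the hypothesis on `S³ × S³`), chain rule for `fderiv`; `deriv φ` exists on the open
set `O`. -/
def D1Stmt : Prop :=
  ∀ T : ℝ,
    (∀ f g : (baC T).B, (∀ z t, (baC T).ev z t f = (baC T).ev z t g) → f = g)
    ∧ (∀ f : (baC T).B, Continuous (fun p : (baC T).Z × TI T => (baC T).ev p.1 p.2 f))
    ∧ (∀ z t, (baC T).ev z t (baC T).tt = (t : ℝ))
    ∧ (baC T).Dt (baC T).tt = 1 ∧ (∀ i, (baC T).E i (baC T).tt = 0)
    ∧ (∀ i, (baC T).U i (baC T).tt = 0) ∧ (∀ i, (baC T).V i (baC T).tt = 0)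
    ∧ (∀ (f : (baC T).B) (z : (baC T).Z) (t : TI T),
        HasDerivAt ((baC T).val z f) ((baC T).ev z t ((baC T).Dt f)) t)
    ∧ (∀ (φ : ℝ → ℝ) (O : Set ℝ), IsOpen O → ContDiffOn ℝ ((⊤ : ℕ∞) : WithTop ℕ∞) φ O →
        ∀ f : (baC T).B, (∀ z t, (baC T).ev z t f ∈ O) →
          ∃ g : (baC T).B, ∀ z t, (baC T).ev z t g = φ ((baC T).ev z t f))
    ∧ (∀ (φ : ℝ → ℝ) (O : Set ℝ), IsOpen O → ContDiffOn ℝ ((⊤ : ℕ∞) : WithTop ℕ∞) φ O →
        ∀ f g : (baC T).B, (∀ z t, (baC T).ev z t f ∈ O) →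
          (∀ z t, (baC T).ev z t g = φ ((baC T).ev z t f)) → ∀ z t,
          (∀ a, (baC T).ev z t ((baC T).E a g)
            = deriv φ ((baC T).ev z t f) * (baC T).ev z t ((baC T).E a f))
          ∧ (∀ a, (baC T).ev z t ((baC T).U a g)
            = deriv φ ((baC T).ev z t f) * (baC T).ev z t ((baC T).U a f))
          ∧ (∀ a, (baC T).ev z t ((baC T).V a g)
            = deriv φ ((baC T).ev z t f) * (baC T).ev z t ((baC T).V a f))
          ∧ (baC T).ev z t ((baC T).Dt g)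
            = deriv φ ((baC T).ev z t f) * (baC T).ev z t ((baC T).Dt f))

/-- PACKET D2. Brackets of the basic derivations.

Proof. General lemma: for two fields `X = vf a b c d`, `Y = vf a' b' c' d'` and `p ∈ Om T`:
`X (Y f) (p) = D²f(p)(X p, Y p) + Df(p)(DY(p)(X p))` (`HasFDerivAt` of `fderiv (exT f)` applied to `Y`),
the second derivative is symmetric (`ContDiffAt.isSymmSndFDerivAt`), and
`DY(p)(X p) - DX(p)(Y p) = (x (a a' - a' a), q (b b' - b' b) + (c' c - c c') q, 0)`. With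
`e_i e_j - e_j e_i = 2 ∑ ε_ijk e_k` (9 cases). -/
def D2Stmt : Prop :=
  ∀ T : ℝ,
    (∀ i j f, (baC T).E i ((baC T).E j f) - (baC T).E j ((baC T).E i f)
      = (2 : ℝ) • ∑ k, eps i j k • (baC T).E k f)
    ∧ (∀ i j f, (baC T).U i ((baC T).U j f) - (baC T).U j ((baC T).U i f)
      = ∑ k, eps i j k • (baC T).U k f)
    ∧ (∀ i j f, (baC T).V i ((baC T).V j f) - (baC T).V j ((baC T).V i f)
      = ∑ k, eps i j k • (baC T).V k f)
    ∧ (∀ i j f, (baC T).E i ((baC T).U j f) = (baC T).U j ((baC T).E i f))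
    ∧ (∀ i j f, (baC T).E i ((baC T).V j f) = (baC T).V j ((baC T).E i f))
    ∧ (∀ i j f, (baC T).U i ((baC T).V j f) = (baC T).V j ((baC T).U i f))
    ∧ (∀ i f, (baC T).Dt ((baC T).E i f) = (baC T).E i ((baC T).Dt f))
    ∧ (∀ i f, (baC T).Dt ((baC T).U i f) = (baC T).U i ((baC T).Dt f))
    ∧ (∀ i f, (baC T).Dt ((baC T).V i f) = (baC T).V i ((baC T).Dt f))

/-- PACKET D3. The rotation matrix.

Proof. `rotf q a b = im3 (q e_b q̄) a / |q|²`. Along a curve with derivative `q w`, `w` imaginary,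
`|q|²` has derivative `0` and `q e_b q̄` has derivative `q (w e_b - e_b w) q̄`; along `w q` it is
`w v - v w`, `v = q e_b q̄`. (Or differentiate `rotf_formula`.) `R Rᵀ = Rᵀ R = 1` and `cross`:
polynomial identities from `rotf_formula`, denominators `|q|² ≠ 0`. `UeV`: `q e_k = (q e_k q⁻¹) q =
∑_l R_lk e_l q`, linearity of `fderiv`. -/
def D3Stmt : Prop :=
  ∀ T : ℝ,
    (∀ k a b, (baC T).U k ((baC T).R a b) = ∑ c, eps k b c • (baC T).R a c)
    ∧ (∀ k a b, (baC T).V k ((baC T).R a b) = ∑ c, eps k a c • (baC T).R c b)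
    ∧ (∀ k a b, (baC T).E k ((baC T).R a b) = 0)
    ∧ (∀ a b, (baC T).Dt ((baC T).R a b) = 0)
    ∧ (∀ k a b, (baC T).E k ((baC T).X a b) = (2 : ℝ) • ∑ c, eps k b c • (baC T).X a c)
    ∧ (∀ k a b, (baC T).U k ((baC T).X a b) = 0)
    ∧ (∀ k a b, (baC T).V k ((baC T).X a b) = 0)
    ∧ (∀ a b, (baC T).Dt ((baC T).X a b) = 0)
    ∧ (∀ a b, ∑ c, (baC T).R a c * (baC T).R b c = if a = b then 1 else 0)
    ∧ (∀ a b, ∑ c, (baC T).R c a * (baC T).R c b = if a = b then 1 else 0)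
    ∧ (∀ a b, ∑ c, (baC T).X c a * (baC T).X c b = if a = b then 1 else 0)
    ∧ (∀ a b l, ∑ c, ∑ d, eps c d l • ((baC T).R a c * (baC T).R b d)
        = ∑ i, eps a b i • (baC T).R i l)
    ∧ (∀ k f, (baC T).U k f = -∑ l, (baC T).R l k * (baC T).V l f)

/-- PACKET D4. Spatial minimum.

Proof. `w = ∑ c_i e_i`, `w' = ½ ∑ d_k e_k` imaginary, curve `γ(r) = (x exp(r w), q exp(r w'), t)` (stays in
`S³ × S³`; `exp` of an imaginary quaternion has norm `1`), `γ' = X(γ)` for the field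
`X = vf w w' 0 0`, and `cf c d f` is the derivative of `f` along `X`. `r ↦ f(γ(r))` has a minimum at
`r = 0`, first derivative `(cf c d f)(γ(r))`, second derivative `(cf c d (cf c d f))(γ(r))`. -/
def D4Stmt : Prop :=
  ∀ (T : ℝ) (f : (baC T).B) (z : (baC T).Z) (t : TI T),
    (∀ z', (baC T).ev z t f ≤ (baC T).ev z' t f) →
    ∀ c d : Fin 3 → ℝ, (baC T).ev z t ((baC T).cf c d f) = 0
      ∧ 0 ≤ (baC T).ev z t ((baC T).cf c d ((baC T).cf c d f))

/-- PACKET D5. The fibre.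

Proof. `z = (x,q)`, `m_a = ∑ n_i R_ia(q)` is a unit vector; find a unit quaternion `u` with
`u e_0 u⁻¹ = ∑ m_a e_a =: m`: `u = (1 - m e_0)/|1 - m e_0|` if `m ≠ -e_0` (`u e_0 = m u` as `m² = -1`),
`u = e_1` if `m = -e_0`. `q' = u⁻¹`, `z' = (x,q')`: `R_0a(q') = ⟨e_0, q' e_a q'⁻¹⟩ =
⟨u e_0 u⁻¹, e_a⟩ = m_a`. If `V_k f = 0` for all `k` then for fixed `(x,t)` the function `f(x,·,t)` on
`ℍ \ {0}` has derivative `0` (directions `e_k q` and, by homogeneity, `q` span `ℍ`), and `ℍ \ {0}` is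
connected (`isConnected_compl_singleton_of_one_lt_rank`), so it is constant
(`IsOpen.is_const_of_fderiv_eq_zero` or similar). -/
def D5Stmt : Prop :=
  ∀ (T : ℝ) (z : (baC T).Z) (n : Fin 3 → ℝ), ∑ i, n i ^ 2 = 1 → ∃ z' : (baC T).Z, ∀ t,
    (∀ f : (baC T).B, (∀ k, (baC T).V k f = 0) → (baC T).ev z' t f = (baC T).ev z t f)
    ∧ (∀ a, (baC T).ev z' t ((baC T).R 0 a) = ∑ i, n i * (baC T).ev z t ((baC T).R i a))

/-- PACKET DAX (given D1, ..., D5). Assembly. -/
def DaxStmt : Prop := ∀ T : ℝ, (baC T).Ax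

/-- the restriction of an element of the algebra to `q = 1` -/
noncomputable def at1 {T : ℝ} (f : (baC T).B) : ℝ → HH → ℝ :=
  fun t x => exT (f : BB T).1 (x, 1, t)

/-- PACKET D6. Functions of `(x,t)`.

Proof. (1)-(5): `exT (emb u)` is `(x,q,t) ↦ u t x` on `Om T`; chain rule: the fields `E i` and `∂_t`
only see `(x,t)`; `JS` of `E i (u t)`: `fderiv` of a smooth function applied to a linear field,
homogeneity of `E i` as in `derf_isB`. (6) the time derivative of a jointly smooth family.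
(7)-(10): `x, t ↦ exT f (x,1,t)` is smooth and homogeneous in `x`; `rotf 1 a b = δ_ab`. (11) as `D5`
(constant in `q`). -/
def D6Stmt : Prop :=
  ∀ T : ℝ,
    (∀ (u : ℝ → HH → ℝ) (hu : JS T u),
      (∀ z (t : TI T), (baC T).ev z t (emb u hu) = u t (Prod.fst z : Metric.sphere (0 : HH) 1))
      ∧ (baC T).XT (emb u hu)
      ∧ (∀ i, ∃ hE : JS T (fun t => E i (u t)), (baC T).E i (emb u hu) = emb _ hE)
      ∧ (∀ u' : ℝ → HH → ℝ, (∀ t, 0 < t → t < T → ∀ x, x ≠ 0 →
          HasDerivAt (fun r => u r x) (u' t x) t) →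
          ∃ hD : JS T u', (baC T).Dt (emb u hu) = emb _ hD))
    ∧ (∀ f : (baC T).B, JS T (at1 f)
      ∧ (∀ (x : Metric.sphere (0 : HH) 1) (t : TI T),
          at1 f t x = (baC T).ev (x, ⟨1, by simp⟩) t f)
      ∧ (∀ i t x, 0 < t → t < T → x ≠ 0 → at1 ((baC T).E i f) t x = E i (at1 f t) x)
      ∧ (∀ t x, 0 < t → t < T → x ≠ 0 →
          HasDerivAt (fun r => at1 f r x) (at1 ((baC T).Dt f) t x) t))
    ∧ (∀ (f g : (baC T).B) t x, 0 < t → t < T → x ≠ 0 → at1 (f * g) t x = at1 f t x * at1 g t x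
        ∧ at1 (f + g) t x = at1 f t x + at1 g t x)
    ∧ (∀ a b t x, 0 < t → t < T → x ≠ 0 → at1 ((baC T).R a b) t x = if a = b then 1 else 0)
    ∧ (∀ (f : (baC T).B) k t x, 0 < t → t < T → x ≠ 0 →
        at1 ((baC T).U k f) t x = -at1 ((baC T).V k f) t x)
    ∧ (∀ f : (baC T).B, (∀ k, (baC T).V k f = 0) → ∀ (z : (baC T).Z) (t : TI T),
        (baC T).ev z t f = at1 f t (Prod.fst z : Metric.sphere (0 : HH) 1))

/-- families with all time derivatives -/
def SmInf (I : Set ℝ) (f : ℝ → HH → ℝ) : Prop :=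
  ∃ F : ℕ → ℝ → HH → ℝ, F 0 = f ∧ ∀ k, SmFam1 I (F k) (F (k + 1))

/-- PACKET JSM. Smooth families with all time derivatives are jointly smooth.

Proof. Let `𝒮` be the class of all families `Ew w (F k t)`, `F` a sequence as in `SmInf`. Every
member `f` of `𝒮` is continuous in `(x,t)` on `{0}ᶜ × (0,T)`, differentiable along `E_i` in `x` (`Sm`)
with `E_i f ∈ 𝒮`, and differentiable in `t` with derivative in `𝒮` (`SmFam1.der`; interior points:
`HasDerivWithinAt.hasDerivAt`). For fixed `t`, `fderiv (f t) x` is determined by `E_0,E_1,E_2` and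
Euler (`fderiv f x x = 0`): `fderiv (f t) x w = ∑ im3(x⁻¹ w)_i E_i f (x)` (`x⁻¹ w = re + ∑ ... e_i`). So
the two partial derivatives (in `x` and in `t`) exist and are continuous in `(x,t)`, hence `f` is
`C¹` jointly (`hasStrictFDerivAt`-type lemma for partial derivatives, or mean value theorem), with
`fderiv` a combination with smooth coefficients of members of `𝒮`. Induction on `n`: all members of
`𝒮` are `C^n` on `{0}ᶜ × (0,T)` (`contDiffOn_succ_iff_fderiv_of_isOpen`). -/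
def JsmStmt : Prop :=
  ∀ (T : ℝ) (I : Set ℝ) (f : ℝ → HH → ℝ), Set.Ioo 0 T ⊆ I → SmInf I f → JS T f

/-- PACKET SIR. Ring properties of `SmInf`.

Proof. Products: `F_k = ∑ binom(k,j) f_j h_(k-j)` or by the coinductive characterisation: let `𝒮` be the
class of finite sums of products `f_j h_l` (`Finset` sums); simplest: prove by induction on `n` that
`f h`, `f + h`, `E i f`, `F ∘ f` have `n` time derivatives (all `SmFam1`), for all `f, h` at the same
time, and then choose the (unique) derivatives. You may use the goals C8, C9 of `CoreGoals`. -/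
def SirStmt : Prop :=
  ∀ I : Set ℝ,
    (∀ f h, SmInf I f → SmInf I h → SmInf I (fun t x => f t x + h t x)
      ∧ SmInf I (fun t x => f t x - h t x) ∧ SmInf I (fun t x => f t x * h t x)
      ∧ SmInf I (fun t x => -f t x))
    ∧ (∀ f i, SmInf I f → SmInf I (fun t => E i (f t)))
    ∧ (∀ c : ℝ, SmInf I (fun _ _ => c))
    ∧ (∀ (ι : Type) (s : Finset ι) (f : ι → ℝ → HH → ℝ), (∀ a ∈ s, SmInf I (f a)) →
        SmInf I (fun t x => ∑ a ∈ s, f a t x))
    ∧ (∀ f f' : ℝ → HH → ℝ, SmFam1 I f f' → SmInf I f' → SmInf I f)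

end Pool.Agent.Helper73.RF
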