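import Pool.Agent.Helper73.RF.Str

/-!
# Project RF: formulas of the moving frame, and the basic algebra of `S³ × S³ × (0,T)`

`FR`: structure functions, connection and curvature of an orthonormal frame
`F_a = ∑_i A a i E_i` over a commutative algebra with derivations `E_i`,
`[E_i,E_j] = 2 ∑ ε_ijk E_k`.

`BA T`: the algebra of smooth functions of `(x,q,t)`, `x, q` unit quaternions, with left invariant
derivations `E i` in `x`, `U k = (q e_k)/2` in `q`, right invariant derivations `V k = -(e_k q)/2`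
in `q`, `Dt = ∂/∂t`; `R a b = ⟨e_a, q e_b q⁻¹⟩`, `X a b = ⟨e_a, x e_b x⁻¹⟩`.
-/

set_option autoImplicit false

open Finset

namespace Pool.Agent.Helper73.RF

namespace FR

variable {𝒜 : Type} [CommRing 𝒜] [Algebra ℝ 𝒜] (E : Fin 3 → Derivation ℝ 𝒜 𝒜)
  (A θ : Fin 3 → Fin 3 → 𝒜)

/-- `F_a f = ∑_i A a i E_i f` -/
def Fd (a : Fin 3) (f : 𝒜) : 𝒜 := ∑ i, A a i * E i f

/-- structure functions: `[F_a,F_b] = ∑_c C a b c F_c` -/
def C (a b c : Fin 3) : 𝒜 :=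
  ∑ j, (Fd E A a (A b j) - Fd E A b (A a j)
    + (2 : ℝ) • ∑ i, ∑ k, eps i k j • (A a i * A b k)) * θ j c

/-- `Γ_abc = g(∇_{F_a} F_b, F_c)` -/
noncomputable def Gam (a b c : Fin 3) : 𝒜 :=
  (1 / 2 : ℝ) • (C E A θ a b c - C E A θ b c a + C E A θ c a b)

/-- `ω_ak = ½ ∑ ε_kbc Γ_abc`, so `Γ_abc = ∑_k ε_kbc ω_ak` -/
noncomputable def om (a k : Fin 3) : 𝒜 :=
  (1 / 2 : ℝ) • ∑ b, ∑ c, eps k b c • Gam E A θ a b c

/-- curvature form `Ω_cdk` -/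
noncomputable def Om (c d k : Fin 3) : 𝒜 :=
  Fd E A c (om E A θ d k) - Fd E A d (om E A θ c k)
    + (∑ l, ∑ m, eps l m k • (om E A θ c l * om E A θ d m))
    - ∑ e, C E A θ c d e * om E A θ e k

/-- curvature operator in the frame: `N_lk = - ½ ∑ ε_cdl Ω_cdk` -/
noncomputable def N (l k : Fin 3) : 𝒜 :=
  (-(1 / 2) : ℝ) • ∑ c, ∑ d, eps c d l • Om E A θ c d k

/-- Ricci tensor in the frame -/
noncomputable def Ricf (a b : Fin 3) : 𝒜 :=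
  (if a = b then ∑ i, N E A θ i i else 0) - N E A θ a b

/-! The metric side: `g i j = ∑_a θ i a * θ j a`, inverse `gi i j = ∑_a A a i * A a j`. -/

/-- the metric matrix -/
def g (i j : Fin 3) : 𝒜 := ∑ a, θ i a * θ j a

/-- the inverse metric -/
def gi (i j : Fin 3) : 𝒜 := ∑ a, A a i * A a j

/-- Koszul, lowered -/
noncomputable def KL (i j k : Fin 3) : 𝒜 :=
  (1 / 2 : ℝ) • (E i (g θ j k) + E j (g θ i k) - E k (g θ i j)
    + (2 : ℝ) • ∑ l, (eps i j l • g θ l k - eps i k l • g θ l j - eps j k l • g θ l i))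

/-- Christoffel symbols in the frame `E_i` -/
noncomputable def KE (i j k : Fin 3) : 𝒜 := ∑ m, gi A k m * KL E θ i j m

/-- curvature `R(E_i,E_j)E_k = ∑_l RE i j k l E_l` -/
noncomputable def RE (i j k l : Fin 3) : 𝒜 :=
  E i (KE E A θ j k l) - E j (KE E A θ i k l)
    + ∑ m, (KE E A θ j k m * KE E A θ i m l - KE E A θ i k m * KE E A θ j m l)
    - (2 : ℝ) • ∑ m, eps i j m • KE E A θ m k l

end FR

/-- Basic algebra over `(0,T)`. -/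
structure BA (T : ℝ) where
  Z : Type
  B : Type
  [topZ : TopologicalSpace Z]
  [cptZ : CompactSpace Z]
  [neZ : Nonempty Z]
  [ringB : CommRing B]
  [algB : Algebra ℝ B]
  ev : Z → TI T → (B →ₐ[ℝ] ℝ)
  E : Fin 3 → Derivation ℝ B B
  U : Fin 3 → Derivation ℝ B B
  V : Fin 3 → Derivation ℝ B B
  Dt : Derivation ℝ B B
  R : Fin 3 → Fin 3 → B
  X : Fin 3 → Fin 3 → B
  tt : B

attribute [instance] BA.topZ BA.cptZ BA.neZ BA.ringB BA.algB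

namespace BA

variable {T : ℝ} (P : BA T)

/-- value at `(z,r)` -/
noncomputable def val (z : P.Z) (f : P.B) (r : ℝ) : ℝ :=
  open Classical in if h : r ∈ Set.Ioo (0 : ℝ) T then P.ev z ⟨r, h⟩ f else 0

/-- constant coefficient field -/
def cf (c d : Fin 3 → ℝ) (f : P.B) : P.B := ∑ i, (c i • P.E i f) + ∑ k, d k • P.U k f

/-- Axioms of the basic algebra. -/
structure Ax : Prop where
  ext : ∀ f g : P.B, (∀ z t, P.ev z t f = P.ev z t g) → f = g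
  cont : ∀ f : P.B, Continuous (fun p : P.Z × TI T => P.ev p.1 p.2 f)
  tt_ev : ∀ z t, P.ev z t P.tt = (t : ℝ)
  tt_D : P.Dt P.tt = 1
  tt_E : ∀ i, P.E i P.tt = 0
  tt_U : ∀ i, P.U i P.tt = 0
  tt_V : ∀ i, P.V i P.tt = 0
  time : ∀ (f : P.B) (z : P.Z) (t : TI T), HasDerivAt (P.val z f) (P.ev z t (P.Dt f)) t
  min : ∀ (f : P.B) (z : P.Z) (t : TI T), (∀ z', P.ev z t f ≤ P.ev z' t f) →
    ∀ c d : Fin 3 → ℝ, P.ev z t (P.cf c d f) = 0 ∧ 0 ≤ P.ev z t (P.cf c d (P.cf c d f))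
  comp : ∀ (φ : ℝ → ℝ) (O : Set ℝ), IsOpen O → ContDiffOn ℝ ((⊤ : ℕ∞) : WithTop ℕ∞) φ O →
    ∀ f : P.B, (∀ z t, P.ev z t f ∈ O) → ∃ g : P.B, ∀ z t, P.ev z t g = φ (P.ev z t f)
  chain : ∀ (φ : ℝ → ℝ) (O : Set ℝ), IsOpen O → ContDiffOn ℝ ((⊤ : ℕ∞) : WithTop ℕ∞) φ O →
    ∀ f g : P.B, (∀ z t, P.ev z t f ∈ O) → (∀ z t, P.ev z t g = φ (P.ev z t f)) → ∀ z t,
      (∀ a, P.ev z t (P.E a g) = deriv φ (P.ev z t f) * P.ev z t (P.E a f))
      ∧ (∀ a, P.ev z t (P.U a g) = deriv φ (P.ev z t f) * P.ev z t (P.U a f))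
      ∧ (∀ a, P.ev z t (P.V a g) = deriv φ (P.ev z t f) * P.ev z t (P.V a f))
      ∧ P.ev z t (P.Dt g) = deriv φ (P.ev z t f) * P.ev z t (P.Dt f)
  fib : ∀ (z : P.Z) (n : Fin 3 → ℝ), ∑ i, n i ^ 2 = 1 → ∃ z' : P.Z, ∀ t,
    (∀ f : P.B, (∀ k, P.V k f = 0) → P.ev z' t f = P.ev z t f)
    ∧ ∀ a, P.ev z' t (P.R 0 a) = ∑ i, n i * P.ev z t (P.R i a)
  EE : ∀ i j f, P.E i (P.E j f) - P.E j (P.E i f) = (2 : ℝ) • ∑ k, eps i j k • P.E k f
  UU : ∀ i j f, P.U i (P.U j f) - P.U j (P.U i f) = ∑ k, eps i j k • P.U k f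
  VV : ∀ i j f, P.V i (P.V j f) - P.V j (P.V i f) = ∑ k, eps i j k • P.V k f
  EU : ∀ i j f, P.E i (P.U j f) = P.U j (P.E i f)
  EV : ∀ i j f, P.E i (P.V j f) = P.V j (P.E i f)
  UV : ∀ i j f, P.U i (P.V j f) = P.V j (P.U i f)
  DE : ∀ i f, P.Dt (P.E i f) = P.E i (P.Dt f)
  DU : ∀ i f, P.Dt (P.U i f) = P.U i (P.Dt f)
  DV : ∀ i f, P.Dt (P.V i f) = P.V i (P.Dt f)
  UR : ∀ k a b, P.U k (P.R a b) = ∑ c, eps k b c • P.R a c
  VR : ∀ k a b, P.V k (P.R a b) = ∑ c, eps k a c • P.R c b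
  ER : ∀ k a b, P.E k (P.R a b) = 0
  DR : ∀ a b, P.Dt (P.R a b) = 0
  EX : ∀ k a b, P.E k (P.X a b) = (2 : ℝ) • ∑ c, eps k b c • P.X a c
  UX : ∀ k a b, P.U k (P.X a b) = 0
  VX : ∀ k a b, P.V k (P.X a b) = 0
  DX : ∀ a b, P.Dt (P.X a b) = 0
  RRt : ∀ a b, ∑ c, P.R a c * P.R b c = if a = b then 1 else 0
  RtR : ∀ a b, ∑ c, P.R c a * P.R c b = if a = b then 1 else 0
  XtX : ∀ a b, ∑ c, P.X c a * P.X c b = if a = b then 1 else 0
  /-- `R` is a rotation: cross products of rows are rows -/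
  cross : ∀ a b l, ∑ c, ∑ d, eps c d l • (P.R a c * P.R b d) = ∑ i, eps a b i • P.R i l
  /-- `U = - Rᵀ V` -/
  UeV : ∀ k f, P.U k f = -∑ l, P.R l k * P.V l f

/-- functions of `(x,t)` -/
def XT (f : P.B) : Prop := (∀ k, P.U k f = 0) ∧ ∀ k, P.V k f = 0

/-- the frame bundle data of a moving frame; `A a i` the frame, `θ` its inverse, `S0` with
`∂_t A = S0 A` -/
noncomputable def toFBD (A θ S0 : Fin 3 → Fin 3 → P.B) : FBD T where
  Z := P.Z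
  B := P.B
  ev := P.ev
  H a := ∑ b, P.R a b • (∑ i, A b i • P.E i + ∑ k, FR.om P.E A θ b k • P.U k)
  V := P.V
  D := P.Dt
  M i j := ∑ l, ∑ k, P.R i l * P.R j k * FR.N P.E A θ l k
  S a b := ∑ c, ∑ d, P.R a c * P.R b d * S0 c d
  tt := P.tt

end BA

end Pool.Agent.Helper73.RF
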