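import Pool.Agent.Helper73.RF.AsmI

/-!
# Project RF: assembly

All packets of the project are put together: `main : MainStmt`.
-/

set_option autoImplicit false

open Pool.Agent Pool.Agent.Helper47.RF

namespace Pool.Agent.Helper73.RF

theorem c8 : Goal_C8 := Helper93.RF.C8.goal_C8 goal_C1 Helper5.RF.goal_C2

theorem c9 : Goal_C9 := Helper77.RF.goal_C9 goal_C1 Helper5.RF.goal_C2 c8

theorem c4 : Goal_C4 := Helper42.RF.goal_C4 goal_C1 Helper5.RF.goal_C2

theorem c6 : Goal_C6 := goal_C6 goal_C1 Helper5.RF.goal_C2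

theorem insaS : InsaStmt := Helper93.RF.insa (Helper67.RF.insb Helper27.RF.fra)

theorem yomS : YomStmt := Helper62.RF.yom Helper27.RF.alg1 Helper59.RF.alg2 insaS

theorem daxS : DaxStmt :=
  Helper69.RF.dax Helper38.RF.d1 Helper62.RF.d2 Helper32.RF.d3 Helper57.RF.d4 Helper75.RF.d5

theorem geoS : GeoStmt := Helper9.RF.geo Helper27.RF.fra Helper54.RF.lcr

theorem nsyS : NsyStmt := Helper83.RF.nsy Helper27.RF.fra

theorem lnkS : LnkStmt := Helper60.RF.lnk geoS daxS nsyS

theorem frnS : FrnStmt := Helper29.RF.frn lnkS geoS Helper60.RF.d6 daxS nsyS goal_C1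

theorem fjsS : FjsStmt := Helper10.RF.fjs c9 Helper93.RF.jsm

theorem hjsS : HjsStmt := Helper10.RF.HJS.hjs c9 Helper93.RF.jsm

theorem flbS : FlbStmt :=
  Helper38.RF.flb fjsS lnkS frnS Helper60.RF.d6 daxS yomS Helper54.RF.lcr Helper27.RF.fra

theorem nr0S : Nr0Stmt := Helper93.RF.nr0 flbS Helper32.RF.d3 Helper60.RF.d6 c8

theorem bocS : BocStmt := Helper61.RF.boc Helper8.RF.vin

theorem evsS : EvsStmt := Helper74.RF.evs Helper10.RF.evm Helper61.RF.prd Helper8.RF.vin bocS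

theorem pqS : PqStmt := Helper89.RF.pq Helper8.RF.vin Helper83.RF.lin

theorem mp1S : Mp1Stmt := Helper8.RF.mp1 Helper9.RF.mp2

theorem p1S : P1Stmt :=
  Helper56.RF.p1 mp1S Helper90.RF.bdd Helper10.RF.evm evsS Helper8.RF.vin Helper61.RF.prd

theorem p2S : P2Stmt :=
  Helper79.RF.p2 Helper9.RF.mp2 evsS Helper55.RF.bia pqS Helper61.RF.prd Helper90.RF.bdd

theorem p3S : P3Stmt :=
  Helper77.RF.p3 Helper9.RF.mp2 evsS Helper55.RF.bia pqS Helper61.RF.prd Helper90.RF.bdd

theorem p3cS : P3cStmt := Helper31.RF.p3c p3S Helper55.RF.bia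

theorem s2S : S2Stmt := Helper71.RF.s2 mp1S Helper90.RF.bdd evsS Helper55.RF.bia

theorem s3S : S3Stmt := Helper71.RF.s3 Helper9.RF.mp2 Helper90.RF.bdd evsS

theorem heaS : HeaStmt := Helper61.RF.hea mp1S evsS Helper55.RF.bia pqS Helper61.RF.prd

theorem conS : ConStmt :=
  Helper83.RF.con fjsS flbS nr0S frnS Helper75.RF.d5 p1S p2S p3cS s2S s3S pqS Helper55.RF.bia

theorem hecS : HecStmt :=
  hec hjsS fjsS flbS nr0S heaS Helper60.RF.d6 Helper32.RF.d3

theorem excS (ca : CaStmt) : ExcStmt :=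
  Helper62.RF.exc (Helper5.RF.cb ca mp1S Helper90.RF.bdd Helper61.RF.prd) flbS nr0S Helper60.RF.d6
    lnkS fjsS Helper27.RF.bwr (Helper80.RF.bwg Helper27.RF.bwr) daxS

theorem detS : DetStmt := Helper40.RF.det frnS

theorem veqS : VeqStmt := Helper12.RF.veq detS frnS

theorem lipS : LipStmt := Helper55.RF.lip c6 Helper97.RF.goal_C7

theorem mainS (locex : LocExStmt) (heatex : HeatExStmt) : MainStmt :=
  Helper97.RF.fin locex heatex conS
    ⟨excS (Helper37.RF.ca Helper10.RF.evm), Helper2.RF.exd, Helper80.RF.glu, Helper9.RF.max⟩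
    ⟨Helper90.RF.one frnS Helper64.RF.fdg_done, Helper32.RF.lp frnS⟩
    (Helper8.RF.vlb frnS detS veqS Helper62.RF.sca Helper64.RF.ffg_done c4 c6)
    (Helper29.RF.dia hecS lipS Helper60.RF.smo frnS) (Helper67.RF.cho goal_C1) frnS
    Helper9.RF.pin

/-- smooth metrics on the three-sphere with pointwise pinched curvature do not collapse -/
theorem main : MainStmt :=
  mainS (Helper36.RI.locEx_of Helper50.RI.cq) (Helper36.RI.heatEx_of Helper14.RS.las)

end Pool.Agent.Helper73.RF
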