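import Pool.Agent.Helper73.RF.GoalsF

/-!
# Project RF: packet HEC
-/

set_option autoImplicit false

open Finset Pool.Agent.Helper47.RF

namespace Pool.Agent.Helper73.RF

/-- `E i` preserves homogeneity (no smoothness needed) -/
theorem hom_E {f : HH → ℝ} (hf : Hom0 f) (i : Fin 3) : Hom0 (E i f) := by
  intro r x hr
  have hr0 : r ≠ 0 := hr.ne'
  have h1 : (fun y : HH => f (r • y)) = f := by
    funext y; exact hf r y hr
  let L : HH ≃L[ℝ] HH := ContinuousLinearEquiv.smulLeft (Units.mk0 r hr0)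
  have hL : ∀ y : HH, L y = r • y := fun y => rfl
  have h2 : fderiv ℝ (f ∘ L) x = (fderiv ℝ f (L x)).comp (L : HH →L[ℝ] HH) := L.comp_right_fderiv
  have h3 : f ∘ L = f := by
    funext y; exact hf r y hr
  rw [h3] at h2
  unfold E
  have h4 : fderiv ℝ f x (x * qe i) = fderiv ℝ f (L x) (L (x * qe i)) := by
    rw [h2]; rfl
  rw [h4, hL, hL, smul_mul_assoc]

theorem hom_add {f g : HH → ℝ} (hf : Hom0 f) (hg : Hom0 g) : Hom0 (fun x => f x + g x) := by
  intro r x hr; simp only [hf r x hr, hg r x hr]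

theorem hom_sub {f g : HH → ℝ} (hf : Hom0 f) (hg : Hom0 g) : Hom0 (fun x => f x - g x) := by
  intro r x hr; simp only [hf r x hr, hg r x hr]

theorem hom_mul {f g : HH → ℝ} (hf : Hom0 f) (hg : Hom0 g) : Hom0 (fun x => f x * g x) := by
  intro r x hr; simp only [hf r x hr, hg r x hr]

theorem hom_div_const {f : HH → ℝ} (hf : Hom0 f) (c : ℝ) : Hom0 (fun x => f x / c) := by
  intro r x hr; simp only [hf r x hr]

theorem hom_const (c : ℝ) : Hom0 (fun _ => c) := fun _ _ _ => rfl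

theorem hom_sum {f : Fin 3 → HH → ℝ} (hf : ∀ i, Hom0 (f i)) : Hom0 (fun x => ∑ i, f i x) := by
  intro r x hr
  exact Finset.sum_congr rfl fun i _ => hf i r x hr

/-- `gOf` of a homogeneous field -/
theorem gOf_hom {θ : MF} (ht : ∀ i j, Hom0 (fun x => θ x i j)) (r : ℝ) (x : HH) (hr : 0 < r) :
    gOf θ (r • x) = gOf θ x := by
  have h : θ (r • x) = θ x := by
    ext i j; exact ht i j r x hr
  unfold gOf; rw [h]

theorem hom_g {θ : MF} (ht : ∀ i j, Hom0 (fun x => θ x i j)) (i j : Fin 3) :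
    Hom0 (fun x => gOf θ x i j) := by
  intro r x hr; simp only [gOf_hom ht r x hr]

theorem hom_gi {θ : MF} (ht : ∀ i j, Hom0 (fun x => θ x i j)) (i j : Fin 3) :
    Hom0 (fun x => (gOf θ x)⁻¹ i j) := by
  intro r x hr; simp only [gOf_hom ht r x hr]

theorem hom_Gam {θ : MF} (ht : ∀ i j, Hom0 (fun x => θ x i j)) (i j k : Fin 3) :
    Hom0 (Gam (gOf θ) i j k) := by
  unfold Gam
  refine hom_sum fun m => hom_mul (hom_gi ht k m) ?_
  unfold GamL
  refine hom_div_const (hom_add (hom_sub (hom_add (hom_E (hom_g ht j m) i)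
    (hom_E (hom_g ht i m) j)) (hom_E (hom_g ht i j) m)) (hom_mul (hom_const 2) ?_)) 2
  refine hom_sum fun l => ?_
  exact hom_sub (hom_sub (hom_mul (hom_const _) (hom_g ht l m))
    (hom_mul (hom_const _) (hom_g ht l j))) (hom_mul (hom_const _) (hom_g ht l i))

theorem hom_gg {θ : MF} (ht : ∀ i j, Hom0 (fun x => θ x i j)) {u v : HH → ℝ} (hu : Hom0 u)
    (hv : Hom0 v) : Hom0 (ggC (gOf θ) u v) := by
  unfold ggC
  refine hom_sum fun i => hom_sum fun j => ?_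
  exact hom_mul (hom_mul (hom_gi ht i j) (hom_E hu i)) (hom_E hv j)

theorem hom_Lap {θ : MF} (ht : ∀ i j, Hom0 (fun x => θ x i j)) {u : HH → ℝ} (hu : Hom0 u) :
    Hom0 (LapC (gOf θ) u) := by
  unfold LapC
  refine hom_sum fun i => hom_sum fun j => ?_
  refine hom_mul (hom_gi ht i j) (hom_sub (hom_E (hom_E hu j) i) ?_)
  exact hom_sum fun k => hom_mul (hom_Gam ht i j k) (hom_E hu k)

/-- a homogeneous function at `x ≠ 0` is its value at `x/|x|` -/
theorem hom_unit {f : HH → ℝ} (hf : Hom0 f) {x : HH} (hx : x ≠ 0) :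
    ∃ y : Metric.sphere (0 : HH) 1, f x = f y := by
  have hn : 0 < ‖x‖ := norm_pos_iff.2 hx
  refine ⟨⟨‖x‖⁻¹ • x, ?_⟩, ?_⟩
  · rw [mem_sphere_zero_iff_norm, norm_smul, norm_inv, norm_norm, inv_mul_cancel₀ hn.ne']
  · exact (hf ‖x‖⁻¹ x (inv_pos.2 hn)).symm

theorem hec (h1 : HjsStmt) (h2 : FjsStmt) (h3 : FlbStmt) (h4 : Nr0Stmt) (h5 : HeaStmt)
    (h6 : D6Stmt) (h7 : D3Stmt) : HecStmt := by
  intro T κ A0 A θ u hT hκ hF hpin hH hini
  have hsub : Set.Ioo 0 T ⊆ Set.Ico 0 T := fun t ht => ⟨ht.1.le, ht.2⟩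
  obtain ⟨hA, ht, -⟩ := h2 T _ A θ hT hsub hF
  have hu : JS T u := h1 T A θ u hT hF hH
  obtain ⟨hfull, hrf, hd, hl⟩ := h3 T _ A θ hT hsub hF hA ht
  obtain ⟨-, -, -, -, hn, -⟩ := h4 T A θ hT hF hA ht
  obtain ⟨hIni, hBd⟩ := hn u hu hH.fam hini
  obtain ⟨hVI, hul⟩ := hl u hu
  have hpk : (flB hA ht).Pin κ := by
    intro z t
    obtain ⟨e1, -, -, e4⟩ := hd z t _ rfl
    rw [e1, e4]
    have hp := (hpin t t.2.1 t.2.2 _ (sph_ne (Prod.fst z : Metric.sphere (0 : HH) 1))).1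
    refine hp (fun l => rotf (Prod.snd z : Metric.sphere (0 : HH) 1) 0 l) ?_
    obtain ⟨-, -, -, -, -, -, -, -, hR, -⟩ := h7 T
    have := congrArg ((baC T).ev z t) (hR 0 0)
    simp only [map_sum, map_mul, if_true, map_one] at this
    refine Eq.trans (Finset.sum_congr rfl fun i _ => ?_) this
    exact pow_two _
  have hs : ∀ (z : (flB hA ht).Z) (t : TI T), 0 ≤ (flB hA ht).ev z t (flB hA ht).s ∧
      t * (flB hA ht).ev z t (flB hA ht).s ≤ A0 := by
    intro z t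
    obtain ⟨e1, -, -, -⟩ := hd z t _ rfl
    rw [e1]
    have hp := (hpin t t.2.1 t.2.2 _ (sph_ne (Prod.fst z : Metric.sphere (0 : HH) 1))).2
    exact hp
  have hDu : (flB hA ht).D (emb u hu) = (flB hA ht).Lap (emb u hu) := by
    obtain ⟨h6a, -⟩ := h6 T
    obtain ⟨-, -, -, hD⟩ := h6a u hu
    obtain ⟨hD', hD''⟩ := hD (fun t => LapC (gOf (θ t)) (u t)) (by
      intro t ht1 ht2 x hx
      have := hH.der [] x hx t ⟨ht1.le, ht2⟩
      exact this.hasDerivAt (Ico_mem_nhds ht1 ht2))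
    refine hfull.ext _ _ fun z t => ?_
    have e1 : (flB hA ht).ev z t ((flB hA ht).D (emb u hu))
        = LapC (gOf (θ t)) (u t) (Prod.fst z : Metric.sphere (0 : HH) 1) := by
      have e2 : (flB hA ht).D (emb u hu) = emb _ hD' := hD''
      rw [e2]; rfl
    rw [e1]
    exact ((hul z t _ rfl).2).symm
  have hfin := h5 T (flB hA ht) hfull hrf κ A0 hκ hpk hs (emb u hu) hVI hDu hIni hBd
  intro t ht1 ht2 x hx
  have homu : Hom0 (u t) := hu.hom t ht1 ht2
  have homt : ∀ i j, Hom0 (fun x => θ t x i j) := fun i j => (ht i j).hom t ht1 ht2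
  have hn0 : 0 < ‖x‖ := norm_pos_iff.2 hx
  let y : Metric.sphere (0 : HH) 1 := ⟨‖x‖⁻¹ • x, by
    rw [mem_sphere_zero_iff_norm, norm_smul, norm_inv, norm_norm, inv_mul_cancel₀ hn0.ne']⟩
  have ey : ∀ f : HH → ℝ, Hom0 f → f x = f y := fun f hf => (hf ‖x‖⁻¹ x (inv_pos.2 hn0)).symm
  rw [ey _ (hom_gg homt homu homu), ey _ (hom_Lap homt homu)]
  have hz := hfin (y, y) ⟨t, ht1, ht2⟩
  obtain ⟨e1, e2⟩ := hul (y, y) ⟨t, ht1, ht2⟩ _ rfl
  rw [e1, e2] at hz
  exact hz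

end Pool.Agent.Helper73.RF
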