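import Pool.Agent.Helper27.RF.ALG1
import Pool.Agent.Helper59.RF.ALG2
import Pool.Agent.Helper10.RF.EVM
import Pool.Agent.Helper8.RF.VIN
import Pool.Agent.Helper61.RF.PRD
import Pool.Agent.Helper61.RF.BOC
import Pool.Agent.Helper74.RF.EVS
import Pool.Agent.Helper55.RF.BIA
import Pool.Agent.Helper83.RF.LIN
import Pool.Agent.Helper89.RF.PQ
import Pool.Agent.Helper9.RF.MP2
import Pool.Agent.Helper8.RF.MP1
import Pool.Agent.Helper90.RF.BDD
import Pool.Agent.Helper56.RF.P1
import Pool.Agent.Helper79.RF.P2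
import Pool.Agent.Helper77.RF.P3
import Pool.Agent.Helper31.RF.P3C
import Pool.Agent.Helper71.RF.S2
import Pool.Agent.Helper71.RF.S3
import Pool.Agent.Helper61.RF.HEA
import Pool.Agent.Helper5.RF.CB
import Pool.Agent.Helper27.RF.FRA
import Pool.Agent.Helper54.RF.LCR
import Pool.Agent.Helper9.RF.GEO
import Pool.Agent.Helper83.RF.NSY
import Pool.Agent.Helper61.RF.NAT
import Pool.Agent.Helper67.RF.INSB
import Pool.Agent.Helper93.RF.INSA
import Pool.Agent.Helper62.RF.YOM
import Pool.Agent.Helper38.RF.D1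
import Pool.Agent.Helper62.RF.D2
import Pool.Agent.Helper32.RF.D3
import Pool.Agent.Helper57.RF.D4
import Pool.Agent.Helper75.RF.D5
import Pool.Agent.Helper69.RF.DAX
import Pool.Agent.Helper60.RF.D6
import Pool.Agent.Helper93.RF.JSM
import Pool.Agent.Helper42.RF.SIR
import Pool.Agent.Helper10.RF.FJS
import Pool.Agent.Helper60.RF.LNK
import Pool.Agent.Helper29.RF.FRN
import Pool.Agent.Helper38.RF.FLB
import Pool.Agent.Helper93.RF.NR0
import Pool.Agent.Helper27.RF.BWR
import Pool.Agent.Helper80.RF.BWG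
import Pool.Agent.Helper62.RF.EXC
import Pool.Agent.Helper2.RF.EXD
import Pool.Agent.Helper80.RF.GLU
import Pool.Agent.Helper83.RF.CONCORE
import Pool.Agent.Helper10.RF.HJS
import Pool.Agent.Helper73.RF.HEC
import Pool.Agent.Helper9.RF.MAX
import Pool.Agent.Helper90.RF.ONE
import Pool.Agent.Helper40.RF.DET
import Pool.Agent.Helper12.RF.VEQ
import Pool.Agent.Helper62.RF.SCA
import Pool.Agent.Helper8.RF.VLB
import Pool.Agent.Helper29.RF.DIA
import Pool.Agent.Helper67.RF.CHO
import Pool.Agent.Helper97.RF.FIN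
import Pool.Agent.Helper55.RF.LIP
import Pool.Agent.Helper40.RF.FDG
import Pool.Agent.Helper61.RF.FFG
import Pool.Agent.Helper9.RF.PIN
import Pool.Agent.Helper61.RF.COP
import Pool.Agent.Helper69.RF.C1
import Pool.Agent.Helper5.RF.C2
import Pool.Agent.Helper56.RF.C3
import Pool.Agent.Helper42.RF.C4
import Pool.Agent.Helper8.RF.C5
import Pool.Agent.Helper49.RF.C6
import Pool.Agent.Helper97.RF.C7
import Pool.Agent.Helper93.RF.C8
import Pool.Agent.Helper77.RF.C9
import Pool.Agent.Helper59.RF.C10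
import Pool.Agent.Helper38.RF.C11
import Pool.Agent.Helper60.RF.C12
import Pool.Agent.Helper37.RF.CA
import Pool.Agent.Helper32.RF.LP
import Pool.Agent.Helper60.RF.SMO
import Pool.Agent.Helper36.RI.MainOf
import Pool.Agent.Helper64.RF.Main
import Pool.Agent.Helper14.RS.LAS
import Pool.Agent.Helper50.RI.CQ
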