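import Pool.Agent.Helper47.RF.Core
import Pool.Agent.Helper73.RF.FR

/-!
# Project RF: the concrete basic algebra on `S³ × S³ × (0,T)`

`W = ℍ × ℍ × ℝ`, `Om T = {(x,q,t) : x ≠ 0, q ≠ 0, 0 < t < T}` (open). `BB T` = smooth functions on
`Om T`, homogeneous of degree `0` in `x` and in `q`.
-/

set_option autoImplicit false

open Finset Pool.Agent.Helper47.RF

namespace Pool.Agent.Helper73.RF

/-- the exponent `∞` -/
abbrev inf : WithTop ℕ∞ := ((⊤ : ℕ∞) : WithTop ℕ∞)

/-- ambient space -/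
abbrev W := HH × HH × ℝ

/-- the open set -/
def Om (T : ℝ) : Set W := {p | p.1 ≠ 0 ∧ p.2.1 ≠ 0 ∧ 0 < p.2.2 ∧ p.2.2 < T}

theorem isOpen_Om (T : ℝ) : IsOpen (Om T) := by
  have h1 : IsOpen {p : W | p.1 ≠ 0} := isOpen_ne_fun continuous_fst continuous_const
  have h2 : IsOpen {p : W | p.2.1 ≠ 0} :=
    isOpen_ne_fun (continuous_fst.comp continuous_snd) continuous_const
  have h3 : IsOpen {p : W | 0 < p.2.2} :=
    isOpen_lt continuous_const (continuous_snd.comp continuous_snd)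
  have h4 : IsOpen {p : W | p.2.2 < T} :=
    isOpen_lt (continuous_snd.comp continuous_snd) continuous_const
  have : Om T = {p : W | p.1 ≠ 0} ∩ ({p : W | p.2.1 ≠ 0} ∩ ({p : W | 0 < p.2.2} ∩ {p : W | p.2.2 < T})) := by
    ext p; simp [Om]
  rw [this]
  exact h1.inter (h2.inter (h3.inter h4))

/-- extension by zero -/
noncomputable def exT {T : ℝ} (f : Om T → ℝ) : W → ℝ :=
  open Classical in fun p => if h : p ∈ Om T then f ⟨p, h⟩ else 0

theorem exT_of_mem {T : ℝ} (f : Om T → ℝ) {p : W} (h : p ∈ Om T) : exT f p = f ⟨p, h⟩ := by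
  simp [exT, h]

theorem exT_coe {T : ℝ} (f : Om T → ℝ) (p : Om T) : exT f p = f p := by
  rw [exT_of_mem f p.2]

/-- scaling -/
noncomputable def scW (r s : ℝ) : W →L[ℝ] W :=
  ((r • ContinuousLinearMap.id ℝ HH).comp (ContinuousLinearMap.fst ℝ HH (HH × ℝ))).prod
    (((s • ContinuousLinearMap.id ℝ HH).comp ((ContinuousLinearMap.fst ℝ HH ℝ).comp
      (ContinuousLinearMap.snd ℝ HH (HH × ℝ)))).prod
      ((ContinuousLinearMap.snd ℝ HH ℝ).comp (ContinuousLinearMap.snd ℝ HH (HH × ℝ))))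

@[simp] theorem scW_apply (r s : ℝ) (p : W) : scW r s p = (r • p.1, s • p.2.1, p.2.2) := rfl

theorem scW_mem {T : ℝ} {r s : ℝ} (hr : 0 < r) (hs : 0 < s) {p : W} (h : p ∈ Om T) :
    scW r s p ∈ Om T :=
  ⟨smul_ne_zero hr.ne' h.1, smul_ne_zero hs.ne' h.2.1, h.2.2.1, h.2.2.2⟩

/-- smooth homogeneous functions on `Om T` -/
structure IsB {T : ℝ} (f : Om T → ℝ) : Prop where
  cd : ContDiffOn ℝ inf (exT f) (Om T)
  hom : ∀ r s : ℝ, 0 < r → 0 < s → ∀ p ∈ Om T, exT f (scW r s p) = exT f p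

/-- the basic algebra -/
def BB (T : ℝ) : Subalgebra ℝ (Om T → ℝ) where
  carrier := {f | IsB f}
  mul_mem' := by
    intro f g hf hg
    refine ⟨(hf.cd.mul hg.cd).congr fun p hp => ?_, fun r s hr hs p hp => ?_⟩
    · simp [exT, hp]
    · have h1 := hf.hom r s hr hs p hp
      have h2 := hg.hom r s hr hs p hp
      have hm := scW_mem (T := T) hr hs hp
      rw [exT_of_mem _ hm, exT_of_mem _ hp] at h1 h2 ⊢
      rw [Pi.mul_apply, Pi.mul_apply, h1, h2]
  add_mem' := by
    intro f g hf hg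
    refine ⟨(hf.cd.add hg.cd).congr fun p hp => ?_, fun r s hr hs p hp => ?_⟩
    · simp [exT, hp]
    · have h1 := hf.hom r s hr hs p hp
      have h2 := hg.hom r s hr hs p hp
      have hm := scW_mem (T := T) hr hs hp
      rw [exT_of_mem _ hm, exT_of_mem _ hp] at h1 h2 ⊢
      rw [Pi.add_apply, Pi.add_apply, h1, h2]
  algebraMap_mem' := by
    intro c
    refine ⟨(contDiffOn_const (c := c)).congr fun p hp => ?_, fun r s hr hs p hp => ?_⟩
    · rw [exT_of_mem _ hp]; simp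
    · rw [exT_of_mem _ (scW_mem (T := T) hr hs hp), exT_of_mem _ hp]; simp

/-- an admissible vector field on `W` -/
structure VF where
  X : W → W
  cd : ContDiff ℝ inf X
  hom : ∀ r s : ℝ, ∀ p, X (scW r s p) = scW r s (X p)

theorem exT_hasFDerivAt {T : ℝ} {f : Om T → ℝ} (hf : IsB f) {p : W} (hp : p ∈ Om T) :
    HasFDerivAt (exT f) (fderiv ℝ (exT f) p) p := by
  have : ContDiffAt ℝ inf (exT f) p := hf.cd.contDiffAt ((isOpen_Om T).mem_nhds hp)
  exact (this.differentiableAt (by simp)).hasFDerivAt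

/-- derivative along a vector field -/
noncomputable def derf {T : ℝ} (X : W → W) (f : Om T → ℝ) : Om T → ℝ :=
  fun p => fderiv ℝ (exT f) p (X p)

theorem derf_isB {T : ℝ} (X : VF) {f : Om T → ℝ} (hf : IsB f) : IsB (derf X.X f) := by
  have hop := isOpen_Om T
  refine ⟨?_, ?_⟩
  · have h1 : ContDiffOn ℝ inf (fun p => fderiv ℝ (exT f) p (X.X p)) (Om T) :=
      (hf.cd.fderiv_of_isOpen hop (by simp)).clm_apply X.cd.contDiffOn
    refine h1.congr fun p hp => ?_
    rw [exT_of_mem _ hp]; rfl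
  · intro r s hr hs p hp
    have hm := scW_mem (T := T) hr hs hp
    rw [exT_of_mem _ hm, exT_of_mem _ hp]
    show fderiv ℝ (exT f) (scW r s p) (X.X (scW r s p)) = fderiv ℝ (exT f) p (X.X p)
    have h1 : HasFDerivAt (fun p' => exT f (scW r s p'))
        ((fderiv ℝ (exT f) (scW r s p)).comp (scW r s)) p :=
      (exT_hasFDerivAt hf hm).comp p (scW r s).hasFDerivAt
    have h2 : (fun p' => exT f (scW r s p')) =ᶠ[nhds p] exT f := by
      filter_upwards [hop.mem_nhds hp] with p' hp'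
      exact hf.hom r s hr hs p' hp'
    have h3 := (h1.congr_of_eventuallyEq h2.symm).fderiv
    rw [h3, X.hom]; rfl

/-- the derivation of `BB T` along a vector field -/
noncomputable def derB (T : ℝ) (X : VF) : Derivation ℝ (BB T) (BB T) where
  toFun f := ⟨derf X.X f.1, derf_isB X f.2⟩
  map_add' f g := by
    apply Subtype.ext; funext p
    show fderiv ℝ (exT (f.1 + g.1)) p (X.X p) = fderiv ℝ (exT f.1) p (X.X p)
      + fderiv ℝ (exT g.1) p (X.X p)
    have h : exT (f.1 + g.1) = exT f.1 + exT g.1 := by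
      funext p; by_cases hp : p ∈ Om T <;> simp [exT, hp]
    rw [h, ((exT_hasFDerivAt f.2 p.2).add (exT_hasFDerivAt g.2 p.2)).fderiv]; rfl
  map_smul' c f := by
    apply Subtype.ext; funext p
    show fderiv ℝ (exT (c • f.1)) p (X.X p) = c * fderiv ℝ (exT f.1) p (X.X p)
    have h : exT (c • f.1) = fun p => c * exT f.1 p := by
      funext p; by_cases hp : p ∈ Om T <;> simp [exT, hp]
    rw [h, ((exT_hasFDerivAt f.2 p.2).const_mul c).fderiv]; rfl
  map_one_eq_zero' := by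
    apply Subtype.ext; funext p
    show fderiv ℝ (exT (1 : Om T → ℝ)) p (X.X p) = 0
    have h : exT (1 : Om T → ℝ) =ᶠ[nhds (p : W)] fun _ => (1 : ℝ) := by
      filter_upwards [(isOpen_Om T).mem_nhds p.2] with p' hp'
      simp [exT, hp']
    rw [h.fderiv_eq]; simp
  leibniz' f g := by
    apply Subtype.ext; funext p
    show fderiv ℝ (exT (f.1 * g.1)) p (X.X p) = f.1 p * fderiv ℝ (exT g.1) p (X.X p)
      + g.1 p * fderiv ℝ (exT f.1) p (X.X p)
    have h : exT (f.1 * g.1) = exT f.1 * exT g.1 := by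
      funext p; by_cases hp : p ∈ Om T <;> simp [exT, hp]
    rw [h, ((exT_hasFDerivAt f.2 p.2).mul (exT_hasFDerivAt g.2 p.2)).fderiv, exT_coe, exT_coe]
    rfl

/-- right multiplication by a quaternion -/
noncomputable def mulR (w : HH) : HH →L[ℝ] HH := (ContinuousLinearMap.mul ℝ HH).flip w

@[simp] theorem mulR_apply (w x : HH) : mulR w x = x * w := rfl

/-- left multiplication by a quaternion -/
noncomputable def mulL (w : HH) : HH →L[ℝ] HH := ContinuousLinearMap.mul ℝ HH w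

@[simp] theorem mulL_apply (w x : HH) : mulL w x = w * x := rfl

/-- the field `(x a, q b + c q, d)` with real `d` -/
noncomputable def vf (a b c : HH) (d : ℝ) : VF where
  X p := (p.1 * a, p.2.1 * b + c * p.2.1, d)
  cd := by
    refine ContDiff.prodMk ?_ (ContDiff.prodMk ?_ contDiff_const)
    · exact (mulR a).contDiff.comp contDiff_fst
    · exact ((mulR b).contDiff.comp (contDiff_fst.comp contDiff_snd)).add
        ((mulL c).contDiff.comp (contDiff_fst.comp contDiff_snd))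
  hom r s p := by
    simp only [scW_apply, smul_mul_assoc, mul_smul_comm, smul_add]

/-- components of the imaginary part -/
def im3 (w : HH) : Fin 3 → ℝ := ![w.imI, w.imJ, w.imK]

/-- `⟨e_a, q e_b q⁻¹⟩` -/
noncomputable def rotf (q : HH) (a b : Fin 3) : ℝ := im3 (q * qe b * star q) a / Quaternion.normSq q

/-- a function of `q` (or of `x`), smooth off `0` and homogeneous, as an element of `BB T` -/
theorem isB_q {T : ℝ} (F : HH → ℝ) (hF : Sm F) : IsB (fun p : Om T => F p.1.2.1) := by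
  refine ⟨?_, ?_⟩
  · have h1 : ContDiffOn ℝ inf (fun p : W => F p.2.1) (Om T) :=
      hF.cd.comp (contDiff_fst.comp contDiff_snd).contDiffOn (fun p hp => hp.2.1)
    exact h1.congr fun p hp => by rw [exT_of_mem _ hp]
  · intro r s hr hs p hp
    rw [exT_of_mem _ (scW_mem (T := T) hr hs hp), exT_of_mem _ hp]
    exact hF.hom s p.2.1 hs

/-- as `isB_q` -/
theorem isB_x {T : ℝ} (F : HH → ℝ) (hF : Sm F) : IsB (fun p : Om T => F p.1.1) := by
  refine ⟨?_, ?_⟩
  · have h1 : ContDiffOn ℝ inf (fun p : W => F p.1) (Om T) :=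
      hF.cd.comp contDiff_fst.contDiffOn (fun p hp => hp.1)
    exact h1.congr fun p hp => by rw [exT_of_mem _ hp]
  · intro r s hr hs p hp
    rw [exT_of_mem _ (scW_mem (T := T) hr hs hp), exT_of_mem _ hp]
    exact hF.hom r p.1 hr

theorem rotf_formula (q : HH) (a b : Fin 3) :
    rotf q a b = (![![q.re ^ 2 + q.imI ^ 2 - q.imJ ^ 2 - q.imK ^ 2,
        2 * (q.imI * q.imJ - q.re * q.imK), 2 * (q.imI * q.imK + q.re * q.imJ)],
      ![2 * (q.imI * q.imJ + q.re * q.imK), q.re ^ 2 - q.imI ^ 2 + q.imJ ^ 2 - q.imK ^ 2,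
        2 * (q.imJ * q.imK - q.re * q.imI)],
      ![2 * (q.imI * q.imK - q.re * q.imJ), 2 * (q.imJ * q.imK + q.re * q.imI),
        q.re ^ 2 - q.imI ^ 2 - q.imJ ^ 2 + q.imK ^ 2]] a b)
      / (q.re ^ 2 + q.imI ^ 2 + q.imJ ^ 2 + q.imK ^ 2) := by
  unfold rotf
  rw [Quaternion.normSq_def']
  congr 1
  fin_cases a <;> fin_cases b <;> simp [im3, qe] <;> ring

theorem contDiff_re : ContDiff ℝ inf (fun q : HH => q.re) :=
  (LinearMap.toContinuousLinearMap
    ({ toFun := fun q : HH => q.re, map_add' := fun _ _ => rfl, map_smul' := fun _ _ => rfl } :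
      HH →ₗ[ℝ] ℝ)).contDiff

theorem contDiff_imI : ContDiff ℝ inf (fun q : HH => q.imI) :=
  (LinearMap.toContinuousLinearMap
    ({ toFun := fun q : HH => q.imI, map_add' := fun _ _ => rfl, map_smul' := fun _ _ => rfl } :
      HH →ₗ[ℝ] ℝ)).contDiff

theorem contDiff_imJ : ContDiff ℝ inf (fun q : HH => q.imJ) :=
  (LinearMap.toContinuousLinearMap
    ({ toFun := fun q : HH => q.imJ, map_add' := fun _ _ => rfl, map_smul' := fun _ _ => rfl } :
      HH →ₗ[ℝ] ℝ)).contDiff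

theorem contDiff_imK : ContDiff ℝ inf (fun q : HH => q.imK) :=
  (LinearMap.toContinuousLinearMap
    ({ toFun := fun q : HH => q.imK, map_add' := fun _ _ => rfl, map_smul' := fun _ _ => rfl } :
      HH →ₗ[ℝ] ℝ)).contDiff

theorem sm_rotf (a b : Fin 3) : Sm (fun q => rotf q a b) := by
  refine ⟨?_, ?_⟩
  · have hn : ∀ q : HH, q ∈ ({0}ᶜ : Set HH) →
        q.re ^ 2 + q.imI ^ 2 + q.imJ ^ 2 + q.imK ^ 2 ≠ 0 := by
      intro q hq h
      apply hq
      have h0 : Quaternion.normSq q = 0 := by rw [Quaternion.normSq_def']; exact h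
      exact Quaternion.normSq_eq_zero.1 h0
    simp only [rotf_formula]
    have c0 := contDiff_re
    have c1 := contDiff_imI
    have c2 := contDiff_imJ
    have c3 := contDiff_imK
    refine ContDiffOn.div ?_ ?_ hn
    · fin_cases a <;> fin_cases b <;> simp only [Matrix.cons_val_zero, Matrix.cons_val_one,
        Matrix.cons_val, Fin.zero_eta, Fin.mk_one, Fin.reduceFinMk] <;>
        refine ContDiff.contDiffOn ?_ <;> fun_prop
    · refine ContDiff.contDiffOn ?_
      fun_prop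
  · intro r x hr
    simp only [rotf_formula]
    have hr' : r ≠ 0 := hr.ne'
    have e0 : (r • x).re = r * x.re := rfl
    have e1 : (r • x).imI = r * x.imI := rfl
    have e2 : (r • x).imJ = r * x.imJ := rfl
    have e3 : (r • x).imK = r * x.imK := rfl
    rw [e0, e1, e2, e3]
    have hden : (r * x.re) ^ 2 + (r * x.imI) ^ 2 + (r * x.imJ) ^ 2 + (r * x.imK) ^ 2
        = r ^ 2 * (x.re ^ 2 + x.imI ^ 2 + x.imJ ^ 2 + x.imK ^ 2) := by ring
    rw [hden]
    fin_cases a <;> fin_cases b <;> simp only [Matrix.cons_val_zero, Matrix.cons_val_one,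
        Matrix.cons_val, Fin.zero_eta, Fin.mk_one, Fin.reduceFinMk] <;>
      (rw [mul_comm (r ^ 2), ← div_div, div_right_comm]; congr 1; field_simp)

/-- the compact space `S³ × S³` -/
abbrev ZZ := Metric.sphere (0 : HH) 1 × Metric.sphere (0 : HH) 1

theorem sph_ne (x : Metric.sphere (0 : HH) 1) : (x : HH) ≠ 0 := by
  intro h
  have := x.2
  rw [h] at this
  simp at this

theorem zz_mem {T : ℝ} (z : ZZ) (t : TI T) : (((z.1 : HH), (z.2 : HH), (t : ℝ)) : W) ∈ Om T :=
  ⟨sph_ne z.1, sph_ne z.2, t.2.1, t.2.2⟩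

/-- evaluation -/
def evB (T : ℝ) (z : ZZ) (t : TI T) : BB T →ₐ[ℝ] ℝ where
  toFun f := f.1 ⟨_, zz_mem z t⟩
  map_one' := rfl
  map_mul' _ _ := rfl
  map_zero' := rfl
  map_add' _ _ := rfl
  commutes' _ := rfl

theorem isB_t {T : ℝ} : IsB (fun p : Om T => p.1.2.2) := by
  refine ⟨?_, ?_⟩
  · have h1 : ContDiffOn ℝ inf (fun p : W => p.2.2) (Om T) :=
      (contDiff_snd.comp contDiff_snd).contDiffOn
    exact h1.congr fun p hp => by rw [exT_of_mem _ hp]
  · intro r s hr hs p hp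
    rw [exT_of_mem _ (scW_mem (T := T) hr hs hp), exT_of_mem _ hp]
    rfl

instance : Nonempty (Metric.sphere (0 : HH) 1) := ⟨⟨1, by simp⟩⟩

/-- the concrete basic algebra -/
noncomputable def baC (T : ℝ) : BA T where
  Z := ZZ
  B := BB T
  ev := evB T
  E i := derB T (vf (qe i) 0 0 0)
  U k := derB T (vf 0 ((1 / 2 : ℝ) • qe k) 0 0)
  V k := derB T (vf 0 0 ((-(1 / 2) : ℝ) • qe k) 0)
  Dt := derB T (vf 0 0 0 1)
  R a b := ⟨fun p => rotf p.1.2.1 a b, isB_q _ (sm_rotf a b)⟩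
  X a b := ⟨fun p => rotf p.1.1 a b, isB_x _ (sm_rotf a b)⟩
  tt := ⟨fun p => p.1.2.2, isB_t⟩

/-- jointly smooth family of functions on `S³`, `0 < t < T` -/
structure JS (T : ℝ) (u : ℝ → HH → ℝ) : Prop where
  cd : ContDiffOn ℝ inf (fun p : HH × ℝ => u p.2 p.1) {p | p.1 ≠ 0 ∧ 0 < p.2 ∧ p.2 < T}
  hom : ∀ t, 0 < t → t < T → Hom0 (u t)

theorem JS.isB {T : ℝ} {u : ℝ → HH → ℝ} (hu : JS T u) : IsB (fun p : Om T => u p.1.2.2 p.1.1) := by
  refine ⟨?_, ?_⟩
  · have h1 : ContDiffOn ℝ inf (fun p : W => u p.2.2 p.1) (Om T) := by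
      have h2 : ContDiff ℝ inf (fun p : W => (p.1, p.2.2)) :=
        contDiff_fst.prodMk (contDiff_snd.comp contDiff_snd)
      exact hu.cd.comp h2.contDiffOn (fun p hp => ⟨hp.1, hp.2.2.1, hp.2.2.2⟩)
    exact h1.congr fun p hp => by rw [exT_of_mem _ hp]
  · intro r s hr hs p hp
    rw [exT_of_mem _ (scW_mem (T := T) hr hs hp), exT_of_mem _ hp]
    exact hu.hom _ hp.2.2.1 hp.2.2.2 r p.1 hr

/-- a family as an element of the algebra -/
noncomputable def emb {T : ℝ} (u : ℝ → HH → ℝ) (hu : JS T u) : (baC T).B :=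
  (⟨fun p => u p.1.2.2 p.1.1, hu.isB⟩ : BB T)

end Pool.Agent.Helper73.RF
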