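import Pool.Agent.Helper73.RF.GoalsA

/-!
# Project RF, goals B: maximum principle, pinching, gradient estimate, heat equation

Paper: team-store `rf_paper_helper73.md`, sections 1, 2, 3, 5, 6, 7(C1). Below `ev` is omitted in
the docstrings: all inequalities are at a point `(z,t)`, `p = gg s s = |∇s|²`.
-/

set_option autoImplicit false

open Finset

namespace Pool.Agent.Helper73.RF

/-- PACKET MP2. Maximum principle, strict form.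

Proof. Let `A = {t ∈ (t1,T1] : ∃ z, f(z,t) ≤ 0}`, suppose nonempty, `t* = inf A ≥ t1 + δ`. By
compactness of `Z` and `cont` there is `z*` with `f(z*,t*) ≤ 0` (take `t_n → t*` in `A` with `z_n`; the
set `{(z,t) : t1+δ ≤ t ≤ T1, f ≤ 0}` is compact). For `t1 < t < t*` all values are `> 0`, so
`f(z,t*) ≥ 0` for all `z` by continuity, and `f(z*,t*) = 0` is a spatial minimum. `min1`: all
`H_a H_a f ≥ 0`. `time`: the derivative of `r ↦ f(z*,r)` at `t*` is `D f`, and `f(z*,r) > 0 =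
f(z*,t*)` for `r < t*` near `t*`, so `D f ≤ 0`. So `Hop f ≤ 0`, contradiction. -/
def Mp2Stmt : Prop :=
  ∀ (T : ℝ) (F : FBD T), F.Base → ∀ (f : F.B) (t1 T1 : ℝ), 0 ≤ t1 → T1 < T →
    (∃ δ > 0, ∀ z (t : TI T), t1 < t → (t : ℝ) < t1 + δ → 0 < F.ev z t f) →
    (∀ z (t : TI T), t1 < t → (t : ℝ) ≤ T1 → F.ev z t f = 0 → (∀ z', 0 ≤ F.ev z' t f) →
      0 < F.ev z t (F.Hop f)) →
    ∀ z (t : TI T), t1 < t → (t : ℝ) ≤ T1 → 0 < F.ev z t f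

/-- PACKET MP1 (given MP2). Maximum principle, weak form.

Proof. For small `ε > 0` (`ε exp((K+1) T1) < ε0`) let `g = f + ε exp((K+1) t)` (in `B` by `comp`, from
`tt`; derivatives by `chain`). Near `t1`: `f ≥ -ε/2`, `g > 0`. At a point with `g = 0 ≤ g(.,t)`: `f` has
a spatial minimum there (the other term is constant in space) with value
`-ε exp((K+1)t) ∈ (-ε0,0)`, so `Hop g ≥ K f + (K+1) ε exp((K+1)t) = ε exp((K+1) t) > 0`. By MP2 `g > 0`;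
`ε → 0`. -/
def Mp1Stmt : Prop :=
  ∀ (T : ℝ) (F : FBD T), F.Base → ∀ (f : F.B) (t1 T1 K ε0 : ℝ), 0 ≤ t1 → T1 < T → 0 ≤ K → 0 < ε0 →
    (∀ ε > 0, ∃ δ > 0, ∀ z (t : TI T), t1 < t → (t : ℝ) < t1 + δ → -ε ≤ F.ev z t f) →
    (∀ z (t : TI T), t1 < t → (t : ℝ) ≤ T1 → (∀ z', F.ev z t f ≤ F.ev z' t f) →
      -ε0 < F.ev z t f → F.ev z t f < 0 → K * F.ev z t f ≤ F.ev z t (F.Hop f)) →
    ∀ z (t : TI T), t1 < t → (t : ℝ) ≤ T1 → 0 ≤ F.ev z t f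

/-- PACKET BDD. Bounds on compact time intervals.

Proof. (1) `Z × [t0/2, T1]` is compact, `cont`. (2) `|f g| ≤ ...`, minimum of the two `t0`.
(3) for `t1 > 0` continuity at `t1`, uniformly in `z` (compactness): if `c ≤ f(z,t1)` for all `z` then
for every `ε > 0` there is `δ > 0` with `c - ε ≤ f(z,t)` for `|t - t1| < δ`. -/
def BddStmt : Prop :=
  ∀ (T : ℝ) (F : FBD T), F.Base →
    (∀ (f : F.B) (T1 : ℝ), T1 < T → F.Bd0 f → ∃ C, ∀ z (t : TI T), (t : ℝ) ≤ T1 → |F.ev z t f| ≤ C)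
    ∧ (∀ (f : F.B) (t1 T1 : ℝ), 0 < t1 → T1 < T →
        ∃ C, ∀ z (t : TI T), t1 ≤ t → (t : ℝ) ≤ T1 → |F.ev z t f| ≤ C)
    ∧ (∀ f g : F.B, F.Bd0 f → F.Bd0 g → F.Bd0 (f + g) ∧ F.Bd0 (f - g) ∧ F.Bd0 (f * g)
        ∧ ∀ c : ℝ, F.Bd0 (c • f))
    ∧ (∀ (f : F.B) (t1 : TI T) (c : ℝ), (∀ z, c ≤ F.ev z t1 f) → ∀ ε > 0, ∃ δ > 0,
        ∀ z (t : TI T), |(t : ℝ) - t1| < δ → c - ε ≤ F.ev z t f)

/-- PACKET P1 (given MP1, BDD, EVM, EVS, VIN, PRD). Pinching is preserved.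

Proof. (i) `s ≥ s0`: MP1 for `f = s - s0`, `Hop f = s² + n2 ≥ 0 ≥ ...`, `K = 0`, `t1 = 0`, every
`T1 < T`. (ii) `f = M_00 - κ s`, `t1 = 0`, `T1 < T`; by BDD `s² + n2 ≤ C` on `(0,T1]`, `K = C/s0`,
`ε0 = κ s0`. At a spatial minimum `(z,t)` of `f` with value `m ∈ (-ε0,0)`: for every unit vector `n`,
`fib` gives `z'` with `M_00(z') = ∑ n_i n_j M_ij(z)` and `s(z') = s(z)`, so `∑ n_i n_j M_ij ≥ M_00 =: l`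
at `z`. Hence (`n = (cos φ, sin φ, 0)` etc., or `n = (n0,n1,n2)/|n|`) the quadratic form
`∑ n_i n_j M_ij - l |n|²` is `≥ 0`, vanishes at `e_0`: `M_01 = M_02 = 0`, and with `A = M_11, B = M_22,
C = M_12`: `A ≥ l`, `B ≥ l`, `(A-l)(B-l) ≥ C²`. `l = κ s + m ≥ κ s0 - ε0 = 0`. By EVM
`Hop f = 2 l² + 2 (AB - C²) - κ (s² + n2)`; with `d = AB - C²`, `u = A + B`, `s = l + u`,
`s² + n2 = 2l² + 2lu + 2u² - 2d`: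
`s Hop f = 2 (u d + 2 l d - l u²) + m (s² + n2)` and `d ≥ l u - l²`, `u ≥ 2l` give
`u d + 2 l d - l u² ≥ l² (u - 2l) ≥ 0`. So `Hop f ≥ m (s²+n2)/s ≥ K m` (`m < 0`). -/
def P1Stmt : Prop :=
  ∀ (T : ℝ) (F : FBD T), F.Full → F.IsRF → ∀ κ s0 : ℝ, 0 < κ → 0 < s0 →
    (∀ i j, F.Bd0 (F.M i j)) → F.Ini F.s s0 → F.Ini (F.M 0 0 - κ • F.s) 0 →
    (∀ z t, s0 ≤ F.ev z t F.s) ∧ F.Pin κ

/-- PACKET P2 (given MP2, EVS, BIA, PQ, PRD, BDD). The pinching improves.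

Proof. `σ = 3κ²`, `γ = 2 - σ`. By PQ `κ ≤ 1/3`, `q ≤ (2/3)((1-3κ)s)²`. `w = s^(-γ)`, `τ = t^σ` are in
`B` (`comp` on `U = (0,∞)`), `w D s... `: for `X = D, H_a`: `X w = -γ (w/s) X s` (`chain`). MP2 with
`t1 = 0` for `f = 1 - F0`, `F0 = τ q w`. Near `0`: `F0 ≤ t^σ C s0^(-γ) < 1` (BDD). Touching point:
`F0 = 1` is a spatial maximum, `q > 0`, `H_a F0 = 0` (`min1`), so `H_a q = γ (q/s) H_a s`, hence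
`gg q q = γ² (q/s)² p`, `gg q w = -γ² (q w/s²) p`, and by BIA `dM0 ≥ gg q q/(4q) = γ² q p/(4 s²)`.
`Hop w = -γ (w/s) Hop s - γ(γ+1) (w/s²) p`. PRD: `Hop (q w) = w Hop q + q Hop w - 2 gg q w
≤ w (8 c3 + (4/3) s q) - γ (q w/s) ((4/3)s² + q) + (q w p/s²)(γ² - γ - γ²/2)`, the last bracket is
`γ(γ/2-1) ≤ 0` (`Hop s = s² + n2 = (4/3)s² + q`). The rest is
`w (8 c3 - (4/3) s q - 2 q²/s + σ((4/3) s q + q²/s))`. With `r = sqrt(3q/2) ≤ (1-3κ)s`: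
`8 |c3| ≤ (16/9) r³` (`6 c3² ≤ q³`), `(4/3)sq = (8/9) s r²`, `2q²/s = (8/9) r⁴/s`, so
`(4/3)sq + 2q²/s - 8c3 ≥ (8/9)(r²/s)(s-r)² ≥ (8/9)(r²/s) 9κ²s² = 12 κ² s q`. And
`(4/3)sq + q²/s ≤ 2sq`. So `Hop (q w) ≤ -6κ² s q w` and `Hop F0 ≤ F0 (σ/t - 6κ² s) =
3κ² (1/t - 2s)`. Since `1 = F0 = (ts)^σ q/s² ≤ (2/3)(ts)^σ`: `ts > 1`, so `Hop F0 < 0`,
`Hop f > 0`. Conclusion `F0 < 1` everywhere. -/
def P2Stmt : Prop :=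
  ∀ (T : ℝ) (F : FBD T), F.Full → F.IsRF → ∀ κ s0 : ℝ, 0 < κ → 0 < s0 →
    (∀ i j, F.Bd0 (F.M i j)) → (∀ z t, s0 ≤ F.ev z t F.s) → F.Pin κ →
    ∀ z (t : TI T), F.ev z t F.q ≤ (t : ℝ) ^ (-(3 * κ ^ 2)) * F.ev z t F.s ^ (2 - 3 * κ ^ 2)

/-- PACKET P3 (given MP2, EVS, BIA, PQ, PRD, BDD). The gradient estimate.

Proof. `γ = 2 - σ`, `Y0 = 960^(1/σ) ≥ 1`, `ρ = s + 1/t`, `G = p ρ⁻¹ + 240 q`, `m = Y0 + t s`,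
`Ψ = 480 t⁻² m^γ`, `f = Ψ - G` (all in `B` by `comp`). MP2 with `t1 = 0`. Near `0`: `G ≤ t p + 240 q`
bounded, `Ψ ≥ 480 t⁻²`. General: `Hop (p ρ⁻¹) = ρ⁻¹ Hop p - p ρ⁻² Hop ρ - 2 p ρ⁻³ gg ρ ρ +
2 ρ⁻² gg p ρ`, `gg ρ ρ = p`, `gg p ρ = gg p s ≤ 2 p sqrt(h2 s)` (BIA), `4 p ρ⁻² sqrt(h2) ≤ 2 h2 ρ⁻¹ +
2 p² ρ⁻³`. `Hop p = 4 s p + 4 X - 2 h2 s`, `X² ≤ p n2 dM ≤ 270 s² dM0²` (PQ: `n2 ≤ s²`), `p ≤ 27 dM0`: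
`4 s p + 4 X ≤ 174 s dM0`. `Hop ρ ≥ -1/t² ≥ -ρ²`. So `Hop (p ρ⁻¹) ≤ 174 dM0 + p ≤ 201 dM0`.
`Hop q = -2 dM0 + (4/3) s q + 8 c3 ≤ -2 dM0 + 4 s q` (`8 c3 ≤ (8/√6) q^(3/2)`, `q ≤ (2/3)s²`).
`Hop G ≤ -279 dM0 + 960 s q ≤ -(31/3) p + 960 s q`, `p = ρ (G - 240 q)`:
`Hop G ≤ ρ (-(31/3) G + 3440 q)`. At a touching point `G = Ψ`; `q ≤ t^(-σ) s^γ = t⁻² (ts)^γ ≤
Ψ/480`: `Hop G ≤ -(19/6) ρ Ψ`. `Hop Ψ = -(2/t)Ψ + γ Ψ m⁻¹ (s + t Hop s) - 480 γ(γ-1) m^(γ-2) p ≥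
-(2/t)Ψ - 960 m^(-σ) p ≥ -(2/t) Ψ - p ≥ -3 ρ Ψ`, as `m^(-σ) ≤ Y0^(-σ) = 1/960`, `γ(γ-1) ≤ 2`,
`p ≤ ρ G = ρ Ψ`, `1/t ≤ ρ`. So `Hop f ≥ ρ Ψ/6 > 0`. -/
def P3Stmt : Prop :=
  ∀ (T : ℝ) (F : FBD T), F.Full → F.IsRF → ∀ κ s0 σ : ℝ, 0 < κ → 0 < s0 → 0 < σ → σ ≤ 1 →
    (∀ i j, F.Bd0 (F.M i j)) → F.Bd0 (F.gg F.s F.s) → (∀ z t, s0 ≤ F.ev z t F.s) → F.Pin κ →
    (∀ z (t : TI T), F.ev z t F.q ≤ (t : ℝ) ^ (-σ) * F.ev z t F.s ^ (2 - σ)) →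
    ∀ z (t : TI T), F.ev z t (F.gg F.s F.s) / (F.ev z t F.s + 1 / t) + 240 * F.ev z t F.q
      ≤ 480 * (t : ℝ) ^ (-2 : ℝ) * ((960 : ℝ) ^ (1 / σ) + t * F.ev z t F.s) ^ (2 - σ)

/-- PACKET P3C (given P3, BIA). The form used at one time.

Proof. `0 < s ≤ Q`. `p ≤ (s + 1/t) 480 t⁻² (Y0 + ts)^(2-σ) ≤ 2Q 480 t⁻² (2tQ)^(2-σ) ≤
3840 Q t⁻² (tQ)^(2-σ) = 3840 (tQ)^(-σ) Q³`. `q ≤ t^(-σ) s^(2-σ) ≤ t^(-σ) Q^(2-σ) = (tQ)^(-σ) Q²`. -/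
def P3cStmt : Prop :=
  ∀ (T : ℝ) (F : FBD T), F.Full → F.IsRF → ∀ κ s0 σ : ℝ, 0 < κ → 0 < s0 → 0 < σ → σ ≤ 1 →
    (∀ i j, F.Bd0 (F.M i j)) → F.Bd0 (F.gg F.s F.s) → (∀ z t, s0 ≤ F.ev z t F.s) → F.Pin κ →
    (∀ z (t : TI T), F.ev z t F.q ≤ (t : ℝ) ^ (-σ) * F.ev z t F.s ^ (2 - σ)) →
    ∀ (t : TI T) (Q : ℝ), (∀ z, F.ev z t F.s ≤ Q) → (960 : ℝ) ^ (1 / σ) ≤ t * Q → ∀ z,
      F.ev z t (F.gg F.s F.s) ≤ 3840 * (t * Q) ^ (-σ) * Q ^ 3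
      ∧ F.ev z t F.q ≤ (t * Q) ^ (-σ) * Q ^ 2

/-- PACKET S2 (given MP1, BDD, EVS, BIA). The minimum of `s`.

Proof. (i) MP1 on `(t1,T1]`, `f = s - m`, `Hop f = s² + n2 ≥ 0`; near `t1` by BDD (continuity).
(ii) Suppose `T - t1 > 3/(4m)`; `L = 1/m - (4/3)(t - t1)` (in `B`), positive for `t < t2 := t1 +
3/(4m) < T`. MP1 on `(t1,t2]`, `f = s L - 1`: `Hop f = L Hop s - (4/3) s ≥ (4/3) s (s L - 1) =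
(4/3) s f` (`Hop s = (4/3)s² + q`, `q ≥ 0`, `L ≥ 0`), and for `f < 0` this is `≥ K f` with
`K = (4/3) sup s` on `[t1,t2]` (BDD), `s ≥ m > 0`. So `s L ≥ 1` at `t2`, but `L(t2) = 0`. -/
def S2Stmt : Prop :=
  ∀ (T : ℝ) (F : FBD T), F.Full → F.IsRF → ∀ (t1 : TI T) (m : ℝ), 0 < m →
    (∀ z, m ≤ F.ev z t1 F.s) →
    (∀ z (t : TI T), (t1 : ℝ) ≤ t → m ≤ F.ev z t F.s) ∧ m ≤ 3 / (4 * (T - t1))

/-- PACKET S3 (given MP2, BDD, EVS). The maximum of `s`.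

Proof. Let `e' > e`, `Q' > Q1`, `L = 1/Q' - (4/3+e')(t-t1)`, and suppose `1/Q' > (4/3+e')(T - t1)`, so
`L ≥ c > 0` on `[t1,T)`. MP2 on `(t1,T1]` for every `T1 < T`, `f = 1 - s L`: positive near `t1`
(continuity, BDD, `Q1 < Q'`); at a touching point `s L = 1`, `s > 0`:
`Hop f = -L ((4/3)s² + q) + (4/3+e') s ≥ s (-(4/3+e) s L + 4/3 + e') > 0`. So `s < 1/c` for all
`t > t1`, contradiction to `hinf`. Hence `1/Q' ≤ (4/3+e')(T-t1)` for all such `e', Q'`. -/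
def S3Stmt : Prop :=
  ∀ (T : ℝ) (F : FBD T), F.Full → F.IsRF → ∀ (t1 : TI T) (Q1 e : ℝ), 0 < Q1 → 0 ≤ e →
    (∀ z, F.ev z t1 F.s ≤ Q1) →
    (∀ z (t : TI T), (t1 : ℝ) ≤ t → F.ev z t F.q ≤ e * F.ev z t F.s ^ 2) →
    (∀ C t2 : ℝ, t2 < T → ∃ z, ∃ t : TI T, t2 < t ∧ C < F.ev z t F.s) →
    1 / ((4 / 3 + e) * (T - t1)) ≤ Q1

/-- PACKET HEA (given MP1, BDD, EVS, BIA, PQ, PRD, VIN). The heat equation along the flow.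

Proof. (i) MP1 for `f = 1 - gg u u`, `Hop (gg u u) = -2 h2 u ≤ 0` (EVS), `K = 0`, `t1 = 0`.
(ii) `v = Lap u`, `Hop v = 2 R`, `R = ∑ Ric_ab H_a H_b u`, `R² ≤ (s²+n2) h2 ≤ 2 s² h2` (BIA, PQ),
`v² ≤ 3 h2`. `Bc = 2 + 5 A0`, `F0 = t v² + Bc gg u u`. `Hop F0 = v² + t (4 v R - 2 gg v v) - 2 Bc h2 ≤
(3 + 4 sqrt 6 t s - 2 Bc) h2 ≤ (3 + 10 A0 - 2 Bc) h2 ≤ 0` (`t s ≤ A0`). MP1 for `Bc - F0`
(near `0`: `t v² ≤ t C²`). -/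
def HeaStmt : Prop :=
  ∀ (T : ℝ) (F : FBD T), F.Full → F.IsRF → ∀ κ A0 : ℝ, 0 < κ → F.Pin κ →
    (∀ z (t : TI T), 0 ≤ F.ev z t F.s ∧ t * F.ev z t F.s ≤ A0) →
    ∀ u : F.B, F.VI u → F.D u = F.Lap u → F.Ini (-F.gg u u) (-1) → F.Bd0 (F.Lap u) →
    ∀ z (t : TI T), F.ev z t (F.gg u u) ≤ 1 ∧ t * F.ev z t (F.Lap u) ^ 2 ≤ 2 + 5 * A0

/-- the derivatives `H^w M_ij`, `|w| = m` -/
def FBD.Gset {T : ℝ} (F : FBD T) (m : ℕ) : Set F.B :=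
  {x | ∃ (w : List (Fin 3)) (i j : Fin 3), w.length = m ∧ x = F.Hw w (F.M i j)}

/-- PACKET CA (given EVM). The heat operator on the derivatives of the curvature.

Proof. `𝒱_m = span (Gset m)`, `𝒮_m = span {x y : x ∈ Gset k, y ∈ Gset l, k + l = m}`.
`H_a 𝒱_m ⊆ 𝒱_(m+1)`, `H_a 𝒮_m ⊆ 𝒮_(m+1)`, `V_k 𝒱_m ⊆ 𝒱_m` (induction: `V_k H_a = H_a V_k +
∑ eps H_b`, `VM`), `M_ij, Ric_ij ∈ 𝒱_0`, `Y_ak ∈ 𝒱_1`. Claim `Hop 𝒱_m ⊆ 𝒮_m`: `m = 0` is EVM.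
Step, `x ∈ 𝒱_m`: `Hop H_a x = H_a Hop x + (D H_a - H_a D) x - (Lap H_a - H_a Lap) x`;
`(D H_a - H_a D) x = ∑ Ric_ab H_b x + ∑ Y_ak V_k x ∈ 𝒮_(m+1)` (DHY, S = Ric);
`(Lap H_a - H_a Lap) x = ∑_b (H_b [H_b,H_a] x + [H_b,H_a] H_b x)`, `[H_b,H_a] y = ∑ eps b a i
M_ij V_j y ∈ 𝒱_0 𝒱_m` if `y ∈ 𝒱_m`. -/
def CaStmt : Prop :=
  ∀ (T : ℝ) (F : FBD T), F.Full → F.IsRF → ∀ m : ℕ, ∀ x ∈ F.Gset m,
    F.Hop x ∈ Submodule.span ℝ {y | ∃ k l : ℕ, k + l = m ∧ ∃ a ∈ F.Gset k, ∃ b ∈ F.Gset l, y = a * b}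

/-- PACKET CB (given CA, MP1, BDD, PRD). Bounded curvature implies bounded derivatives.

Proof. Strong induction on `m`. Let all elements of `Gset j`, `j < m`, be bounded on `Z × (0,T)`
(`m = 0` is the hypothesis); `m ≥ 1`. The index set of `Gset m` is finite (words of length `m`,
`Fin 3 × Fin 3`), `U = ∑ (H^w M_ij)²`. `Hop U = ∑ (2 x Hop x - 2 gg x x) ≤ ∑ 2 |x| |Hop x|`, and by
CA `|Hop x| ≤ C (1 + sqrt U)`: in every product `a b`, `k + l = m`, either both `k, l < m`: bounded,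
or one factor is in `Gset 0` (bounded) and the other in `Gset m`. So `Hop U ≤ C (1 + U)` with one
constant `C > 0`. Near `0`: `U ≤ U0` for `t < t0` (`Bd0`). MP1 (`t1 = 0`, `T1 < T` arbitrary,
`K = C`) for `f = (1 + U0) exp(C t) - (1 + U)`: `f ≥ 0` near `0`;
`Hop f ≥ C (1+U0) exp(C t) - C (1+U) = C f`. So `U ≤ (1+U0) exp(C T)`. -/
def CbStmt : Prop :=
  ∀ (T : ℝ) (F : FBD T), F.Full → F.IsRF → ∀ K : ℝ, (∀ z t i j, |F.ev z t (F.M i j)| ≤ K) →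
    (∀ w i j, F.Bd0 (F.Hw w (F.M i j))) →
    ∀ w i j, ∃ C, ∀ z t, |F.ev z t (F.Hw w (F.M i j))| ≤ C

end Pool.Agent.Helper73.RF
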