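import Pool.Agent.Helper73.RF.Flow
import Pool.Agent.Helper73.RF.GoalsD
import Pool.Agent.Helper73.RF.GoalsB

/-!
# Project RF, goals E: the bundle of a flow, behaviour at time 0, extension
-/

set_option autoImplicit false

open Finset Pool.Agent.Helper47.RF

namespace Pool.Agent.Helper73.RF

/-- jointly smooth matrix family -/
def JM (T : ℝ) (A : ℝ → MF) : Prop := ∀ i j, JS T (fun t x => A t x i j)

/-- matrix family as matrix of elements of the algebra -/
noncomputable def embM {T : ℝ} {A : ℝ → MF} (hA : JM T A) (i j : Fin 3) : (baC T).B :=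
  emb _ (hA i j)

/-- the frame bundle of a moving frame `A` with inverse `θ`, `S = Ric` -/
noncomputable def flB {T : ℝ} {A θ : ℝ → MF} (hA : JM T A) (ht : JM T θ) : FBD T :=
  (baC T).toFBD (embM hA) (embM ht) (FR.Ricf (baC T).E (embM hA) (embM ht))

/-- PACKET FJS. Flows are jointly smooth.

Proof. Claim by induction on `n`: for all words `w` the families `Ew w (A_ai)`, `Ew w (θ_ia)` are
`C^n` jointly on `{x ≠ 0} × (0,T)`. `n = 0`: `SmFam`. Step: by `inv`, `(gOf θ)⁻¹ = Aᵀ A` (all `x`), so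
`GamL, Gam, Rup, Ric` of `gOf θ`, `RicF` and the right sides of `flA`, `flt` are polynomials in word
derivatives of `A, θ`, as are all their word derivatives (Leibniz); these are `C^n`. The time
derivative of `Ew w A_ai` is such a polynomial, and `E_i` of it is a word derivative: all first partial
derivatives (`∂_t`, `E_0`, `E_1`, `E_2`, and the radial one, which is `0`) are `C^n`, so
`Ew w A_ai` is `C^(n+1)` (see PACKET JSM; JSM and SIR may be used instead). `RicF` then is `JS` too. -/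
def FjsStmt : Prop :=
  ∀ (T : ℝ) (I : Set ℝ) (A θ : ℝ → MF), 0 < T → Set.Ioo 0 T ⊆ I → FFlow I A θ →
    JM T A ∧ JM T θ ∧ JM T (fun t x => Matrix.of (fun a b => RicF (A t) (θ t) x a b))

/-- PACKET LNK (given D6, GEO, DAX). The formulas of `FR` in the concrete algebra are Core's.

Proof. `(baC T).E i (emb u) = emb (E i u)` (D6). `FR.g = emb (gOf θ)_ij`; `FR.gi = emb ((gOf θ)⁻¹)_ij`
because `(θ θᵀ)⁻¹ = Aᵀ A`; so by unfolding `FR.KL = emb GamL`, `FR.KE = emb Gam`, `FR.RE = emb Rup`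
(evaluated: equality of `ev z t`, i.e. at unit `x`; `eps` of Core and of `Str` agree: 27 cases).
GEO second claim: `∑ A_ci A_dj A_bk A_fl Rm_ijkl = -∑ eps c d l eps k b f N_lk`; contraction with
`-¼ eps c d l' eps k' b f` gives `N_l'k' = Nc`. GEO third claim and NSY (symmetry): `Ricf = RicF`. -/
def LnkStmt : Prop :=
  ∀ (T : ℝ) (A θ : ℝ → MF) (hA : JM T A) (ht : JM T θ),
    (∀ t, 0 < t → t < T → ∀ x, A t x * θ t x = 1) → ∀ (z : (baC T).Z) (t : TI T),
    (∀ l k, (baC T).ev z t (FR.N (baC T).E (embM hA) (embM ht) l k)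
      = Nc (A t) (θ t) (Prod.fst z : Metric.sphere (0 : HH) 1) l k)
    ∧ (∀ a b, (baC T).ev z t (FR.Ricf (baC T).E (embM hA) (embM ht) a b)
      = RicF (A t) (θ t) (Prod.fst z : Metric.sphere (0 : HH) 1) a b)

/-- PACKET FRN (given LNK, GEO, D6, DAX, NSY). One fixed time.

Proof. Use the time independent families `A t = A`, `θ t = θ` on `(0,1)` (they are `JS` because the
entries are `Sm`) and evaluate at `t = 1/2`; for general `x ≠ 0` use `0`-homogeneity of all the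
functions. `gOf θ` is positive definite since `θ` is invertible. The last claim:
`(θ θᵀ)⁻¹ = Aᵀ A`. -/
def FrnStmt : Prop :=
  ∀ A θ : MF, Frm A θ →
    IsMetric (gOf θ)
    ∧ (∀ x, (gOf θ x)⁻¹ = (A x).transpose * A x)
    ∧ (∀ l k, Sm (fun x => Nc A θ x l k)) ∧ (∀ x, x ≠ 0 → ∀ l k, Nc A θ x l k = Nc A θ x k l)
    ∧ (∀ x, x ≠ 0 → ∀ c d b f, ∑ i, ∑ j, ∑ k, ∑ l,
        Rm (gOf θ) i j k l x * A x c i * A x d j * A x b k * A x f l
          = -∑ l, ∑ k, eps c d l * Nc A θ x l k * eps k b f)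
    ∧ (∀ x, x ≠ 0 → ∀ a b, RicF A θ x a b = (if a = b then sC A θ x else 0) - Nc A θ x a b)
    ∧ (∀ x, ∀ a b, ip (gOf θ) x (A x a) (A x b) = if a = b then 1 else 0)
    ∧ (∀ (u v : HH → ℝ) x, ggC (gOf θ) u v x
        = ∑ a, (∑ i, A x a i * E i u x) * ∑ i, A x a i * E i v x)

/-- PACKET FLB (given FJS, LNK, FRN, D6, DAX, INSA, YOM, NSY). The bundle of a flow.

Proof. `FH`: `XA, Xt, XS` from D6 (`emb` and `E` of it); `DA`: `flA` gives the time derivative
`∑_b RicF_ab A_bi`, which is `emb`, and LNK identifies `RicF` with `Ricf`; `Ssy`: NSY with the test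
elements `X c d` for `ind` (see INSA). So YOM applies: `Full`, `IsRF`, `s = ∑ N_ii`. Dictionary:
`q = n2 - s²/3` and `∑ M_ij² = ∑ N_ij²` (rotation). `gg`: `H_a u = ∑ R_ab F_b u` for functions of
`(x,t)`, `RᵀR = 1`. `Lap (emb u) = ∑_b F_b F_b u - ∑ Γ_bbc F_c u`
(`∑_a H_a H_a u = ∑ F_b F_b u + ∑ ω_bk ε_kcb F_c u`) and by LCR this is
`∑ gi_ij (E_i E_j u - ∑ Gam_ijk E_k u)`. -/
def FlbStmt : Prop :=
  ∀ (T : ℝ) (I : Set ℝ) (A θ : ℝ → MF), 0 < T → Set.Ioo 0 T ⊆ I → FFlow I A θ →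
    ∀ (hA : JM T A) (ht : JM T θ),
    (flB hA ht).Full ∧ (flB hA ht).IsRF
    ∧ (∀ (z : (flB hA ht).Z) (t : TI T), ∀ x : HH, x = (Prod.fst z : Metric.sphere (0 : HH) 1) →
        (flB hA ht).ev z t (flB hA ht).s = sC (A t) (θ t) x
        ∧ (flB hA ht).ev z t (flB hA ht).q = qC (A t) (θ t) x
        ∧ (flB hA ht).ev z t ((flB hA ht).gg (flB hA ht).s (flB hA ht).s)
          = ggC (gOf (θ t)) (sC (A t) (θ t)) (sC (A t) (θ t)) x
        ∧ (flB hA ht).ev z t ((flB hA ht).M 0 0)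
          = ∑ l, ∑ k, rotf (Prod.snd z : Metric.sphere (0 : HH) 1) 0 l
              * rotf (Prod.snd z : Metric.sphere (0 : HH) 1) 0 k * Nc (A t) (θ t) x l k)
    ∧ (∀ (u : ℝ → HH → ℝ) (hu : JS T u), (flB hA ht).VI (emb u hu)
        ∧ ∀ (z : (flB hA ht).Z) (t : TI T), ∀ x : HH,
          x = (Prod.fst z : Metric.sphere (0 : HH) 1) →
          (flB hA ht).ev z t ((flB hA ht).gg (emb u hu) (emb u hu))
            = ggC (gOf (θ t)) (u t) (u t) x
          ∧ (flB hA ht).ev z t ((flB hA ht).Lap (emb u hu)) = LapC (gOf (θ t)) (u t) x)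

/-- elements of the algebra that extend continuously to `t = 0` -/
def Ext0 {T : ℝ} (f : (baC T).B) : Prop :=
  ∃ h : ZZ × ℝ → ℝ, ContinuousOn h (Set.univ ×ˢ Set.Ico 0 T) ∧
    ∀ (z : ZZ) (t : TI T), (baC T).ev z t f = h (z, t)

/-- PACKET NR0 (given FLB, D6, D3, FJS). Behaviour at `t = 0`.

Proof. Let `𝒦` be the subalgebra of `(baC T).B` generated by the `R a b` and all `emb u` with
`SmFam (Ico 0 T) u` (and `JS`). Every element of `𝒦` satisfies `Ext0` (`rotf` is continuous on the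
sphere, `u` on `Ico × {0}ᶜ`), `E i`, `U k`, `V k` map `𝒦` into itself (D6, `UR`, `VR`). `A, θ` entries are
in `𝒦`, so `C, Γ, ω, Ω, N`, `M i j`, and with `H a = ∑ R_ab (∑ A E + ∑ ω U)` all `Hw w (M i j)` and `s`,
`gg s s` are. `Ext0` implies `Bd0` (compactness of `ZZ × [0,T/2]`). Last claim: `Ew w` of `at1 f` is `at1` of
`E`-words of `f` (D6), `f = om b k ∈ 𝒦`; homogeneity reduces `x ≠ 0` to `|x| = 1`. The values at `t = 0` of the
extensions of `s`, `M 0 0` are `sC (A 0) (θ 0) x`, `∑ R_0l R_0k Nc (A 0) (θ 0) x l k` (continuity of these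
families on `Ico 0 T`: they are polynomials in word derivatives of `A, θ`), rows of the rotation
matrix are unit vectors. Uniform continuity on `ZZ × [0,T/2]` gives `Ini`. -/
def Nr0Stmt : Prop :=
  ∀ (T : ℝ) (A θ : ℝ → MF), 0 < T → FFlow (Set.Ico 0 T) A θ →
    ∀ (hA : JM T A) (ht : JM T θ),
    (∀ w i j, (flB hA ht).Bd0 ((flB hA ht).Hw w ((flB hA ht).M i j)))
    ∧ (flB hA ht).Bd0 ((flB hA ht).gg (flB hA ht).s (flB hA ht).s)
    ∧ (∀ s0 : ℝ, (∀ x, x ≠ 0 → s0 ≤ sC (A 0) (θ 0) x) → (flB hA ht).Ini (flB hA ht).s s0)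
    ∧ (∀ κ : ℝ, (∀ x, x ≠ 0 → PinC κ (A 0) (θ 0) x) →
        (flB hA ht).Ini ((flB hA ht).M 0 0 - κ • (flB hA ht).s) 0)
    ∧ (∀ (u : ℝ → HH → ℝ) (hu : JS T u), SmFam (Set.Ico 0 T) u →
        (∀ x, x ≠ 0 → ggC (gOf (θ 0)) (u 0) (u 0) x ≤ 1) →
        (flB hA ht).Ini (-(flB hA ht).gg (emb u hu) (emb u hu)) (-1)
        ∧ (flB hA ht).Bd0 ((flB hA ht).Lap (emb u hu)))
    ∧ (∀ (w : List (Fin 3)) (b k : Fin 3), ∃ C t0 : ℝ, 0 < t0 ∧ t0 < T ∧
        ∀ t, 0 < t → t < t0 → ∀ x : HH, x ≠ 0 →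
          |Ew w (fun y => A t y b k) x| ≤ C ∧ |Ew w (fun y => θ t y b k) x| ≤ C
          ∧ |Ew w (at1 (FR.om (baC T).E (embM hA) (embM ht) b k) t) x| ≤ C)

/-- the values of all word derivatives up to length `m` are bounded -/
def BW (T : ℝ) (m : ℕ) (u : ℝ → HH → ℝ) : Prop :=
  ∀ w : List (Fin 3), w.length ≤ m → ∃ C, ∀ t, 0 < t → t < T → ∀ x, x ≠ 0 → |Ew w (u t) x| ≤ C

/-- PACKET BWR. Ring properties of `BW` (families smooth in `x`).

Proof. Leibniz along words, induction on `m`; `Ew (w ++ [i]) f = Ew w (E i f)`. -/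
def BwrStmt : Prop :=
  ∀ (T : ℝ) (m : ℕ) (u v : ℝ → HH → ℝ), JS T u → JS T v →
    (BW T m u → BW T m v → BW T m (fun t x => u t x * v t x) ∧ BW T m (fun t x => u t x + v t x)
      ∧ BW T m (fun t x => -u t x))
    ∧ (∀ c : ℝ, BW T m (fun _ _ => c))
    ∧ (BW T 0 u → (∀ i, BW T m (fun t => E i (u t))) → BW T (m + 1) u)
    ∧ (BW T (m + 1) u → ∀ i, BW T m (fun t => E i (u t)))

/-- PACKET BWG (given BWR). Linear systems of ODE in `t` with parameters.

Proof. Induction on the length of the word `w` (`≤ m`), for all `j` at once. `y_j = Ew w (u_j)` is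
differentiable in `t` with `∂_t y_j = Ew w (∑ p_jl u_l + r_j) = ∑ p_jl y_l + (terms with fewer
derivatives on `u`, bounded by induction)` (joint smoothness: `∂_t` commutes with `Ew w`). On
`[t0/2, T)`, `|∂_t y| ≤ C |y| + C` with the vector norm, so Gronwall (`T < ∞`), starting at `t0/2`
where `y` is bounded by hypothesis; for `t < t0` the hypothesis. -/
def BwgStmt : Prop :=
  ∀ (T : ℝ) (m n : ℕ) (u : Fin n → ℝ → HH → ℝ) (p : Fin n → Fin n → ℝ → HH → ℝ)
    (r : Fin n → ℝ → HH → ℝ), 0 < T → (∀ j, JS T (u j)) → (∀ j l, JS T (p j l)) →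
    (∀ j, JS T (r j)) → (∀ j l, BW T m (p j l)) → (∀ j, BW T m (r j)) →
    (∀ j t, 0 < t → t < T → ∀ x, x ≠ 0 →
      HasDerivAt (fun r' => u j r' x) (∑ l, p j l t x * u l t x + r j t x) t) →
    (∀ j w, ∃ C t0 : ℝ, 0 < t0 ∧ t0 < T ∧ ∀ t, 0 < t → t < t0 → ∀ x, x ≠ 0 →
      |Ew w (u j t) x| ≤ C) →
    ∀ j, BW T m (u j)

/-- PACKET EXC (given CB, FLB, NR0, D6, D5, YOM, LNK, BWR, BWG, DAX). Bounded curvature bounds all
word derivatives of the frame.

Proof. `F = flB hA ht`. By CB (hypothesis `|Nc| ≤ K`; `M` is a rotation of `N`) all `Hw w (M i j)` are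
bounded on `Z × (0,T)`. Let `𝒲` be the set of `X ∈ B` such that all words in the `H a`, `V k` applied to
`X` are bounded; `M i j ∈ 𝒲`, since `V k (Hw w (M i j))` is a linear combination of `Hw w' (M i' j')`,
`|w'| = |w|`. `𝒲` is a ring closed under `H, V`; `Ric, S, Y ∈ 𝒲`.
(a) `E_i (at1 X) = ∑_b θ_ib (at1 (H_b X) + ∑_k ω_bk at1 (V_k X))` (`ω` as family `at1 (om b k)`): at
`q = 1`: `R = 1`, `U_k = -V_k` (D6), `F_b X = H_b X - ω_bk U_k X`, `E_i = ∑ θ_ib F_b`.
(b) If `θ, ω ∈ BW m` then `at1 X ∈ BW (m+1)` for all `X ∈ 𝒲`: induction on `m` with BWR and (a)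
(`at1 X ∈ BW 0` is clear).
(c) If `at1 X ∈ BW m` for all `X ∈ 𝒲` then `A, θ, ω ∈ BW m`: BWG for the 9 entries of `A`
(`∂_t A_ai = ∑ RicF_ab A_bi`, `RicF_ab = at1 (Ric a b)`), of `θ`, and of `ω`:
`∂_t ω_bl = ∑_c RicF_bc ω_cl - at1 (Y b l)` (YOM at `q = 1`). Near `t = 0` all words are bounded
(`SmFam` on `Ico 0 T`, NR0).
Start `m = 0` by (c). -/
def ExcStmt : Prop :=
  ∀ (T : ℝ) (A θ : ℝ → MF), 0 < T → FFlow (Set.Ico 0 T) A θ → ∀ K : ℝ,
    (∀ t, 0 ≤ t → t < T → ∀ x, x ≠ 0 → ∀ i j, |Nc (A t) (θ t) x i j| ≤ K) →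
    ∀ m, (∀ a i, BW T m (fun t x => A t x a i)) ∧ (∀ i a, BW T m (fun t x => θ t x i a))
      ∧ (∀ a b, BW T m (fun t x => RicF (A t) (θ t) x a b))

/-- PACKET EXD. The limit.

Proof. For every word `w` and entry `y = Ew w A_ai` (or `θ`): `∂_t y` is bounded on `(T/2,T)` (it is
`Ew w` of `∑ RicF A`, BWR), so `y(t,x)` converges as `t → T`, uniformly in `x ≠ 0`. The limits of the
word derivatives are word derivatives of the limit (C11 of CoreGoals, or uniform limits of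
derivatives), so `A T`, `θ T` (defined as the limits, for all `x`, also `x = 0` where one may put
`A T 0 = θ T 0 = 1`) are `Sm`, `A θ = 1`, and all word derivatives are continuous on `[0,T] × {0}ᶜ`
(uniform convergence). The one-sided time derivative at `T` of `Ew w A_ai` is the limit of the
time derivatives (`hasDerivWithinAt` at an end point from the limit of the derivative), which is
`Ew w` of the right side, a polynomial in word derivatives of `A, θ`. -/
def ExdStmt : Prop :=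
  ∀ (T : ℝ) (A θ : ℝ → MF), 0 < T → FFlow (Set.Ico 0 T) A θ →
    (∀ m, (∀ a i, BW T m (fun t x => A t x a i)) ∧ (∀ i a, BW T m (fun t x => θ t x i a))
      ∧ (∀ a b, BW T m (fun t x => RicF (A t) (θ t) x a b))) →
    ∃ A' θ' : ℝ → MF, FFlow (Set.Icc 0 T) A' θ' ∧ (∀ t, 0 ≤ t → t < T → ∀ x, x ≠ 0 →
      A' t x = A t x ∧ θ' t x = θ t x)

/-- PACKET GLU. Glueing.

Proof. `A'' t x = A t x` for `t ≤ T`, `A' (t - T) x` for `t > T` and `x ≠ 0` (at `x = 0` keep an invertible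
pair, e.g. `1, 1`, and for all `t`; values at `0` do not matter but `inv` must hold). Word
derivatives at `x ≠ 0` only see `x ≠ 0`. At `t = T` the two one-sided derivatives agree, because
both are the right side of the equation, and the word derivatives agree there. -/
def GluStmt : Prop :=
  ∀ (T τ : ℝ) (A θ A' θ' : ℝ → MF), 0 < T → 0 < τ → FFlow (Set.Icc 0 T) A θ →
    FFlow (Set.Icc 0 τ) A' θ' → (∀ x, x ≠ 0 → A' 0 x = A T x ∧ θ' 0 x = θ T x) →
    ∃ A'' θ'' : ℝ → MF, FFlow (Set.Icc 0 (T + τ)) A'' θ'' ∧ (∀ t, 0 ≤ t → t ≤ T → ∀ x, x ≠ 0 →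
      A'' t x = A t x ∧ θ'' t x = θ t x)

end Pool.Agent.Helper73.RF
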