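import Pool.Agent.Helper73.RF.GoalsE
import Pool.Agent.Helper64.RF.GoalsM

/-!
# Project RF, goals F: the flow in Core language, maximal flow, last stage, distances, final theorem

Paper: team-store `rf_paper_helper73.md`, sections 5, 6.
-/

set_option autoImplicit false

open Finset Pool.Agent.Helper47.RF

namespace Pool.Agent.Helper73.RF

/-- Everything the maximum principle gives for a pinched flow on `[0,T)`. -/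
structure Good (T κ s0 : ℝ) (A θ : ℝ → MF) : Prop where
  p1 : ∀ t, 0 ≤ t → t < T → ∀ x, x ≠ 0 → s0 ≤ sC (A t) (θ t) x ∧ PinC κ (A t) (θ t) x
  p2 : ∀ t, 0 < t → t < T → ∀ x, x ≠ 0 → 0 ≤ qC (A t) (θ t) x ∧
    qC (A t) (θ t) x ≤ 2 / 3 * sC (A t) (θ t) x ^ 2
  p3 : ∀ t Q, 0 < t → t < T → (∀ x, x ≠ 0 → sC (A t) (θ t) x ≤ Q) →
    (960 : ℝ) ^ (1 / (3 * κ ^ 2)) ≤ t * Q → ∀ x, x ≠ 0 →
      ggC (gOf (θ t)) (sC (A t) (θ t)) (sC (A t) (θ t)) x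
        ≤ 3840 * (t * Q) ^ (-(3 * κ ^ 2)) * Q ^ 3
      ∧ qC (A t) (θ t) x ≤ (t * Q) ^ (-(3 * κ ^ 2)) * Q ^ 2
  s2 : ∀ t1 m, 0 < t1 → t1 < T → 0 < m → (∀ x, x ≠ 0 → m ≤ sC (A t1) (θ t1) x) →
    (∀ t, t1 ≤ t → t < T → ∀ x, x ≠ 0 → m ≤ sC (A t) (θ t) x) ∧ m ≤ 3 / (4 * (T - t1))
  s3 : ∀ t1 Q1 e, 0 < t1 → t1 < T → 0 < Q1 → 0 ≤ e → (∀ x, x ≠ 0 → sC (A t1) (θ t1) x ≤ Q1) →
    (∀ t, t1 ≤ t → t < T → ∀ x, x ≠ 0 → qC (A t) (θ t) x ≤ e * sC (A t) (θ t) x ^ 2) →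
    (∀ C t2 : ℝ, t2 < T → ∃ t x, 0 < t ∧ t2 < t ∧ t < T ∧ x ≠ 0 ∧ C < sC (A t) (θ t) x) →
    1 / ((4 / 3 + e) * (T - t1)) ≤ Q1

/-- PACKET CON (given FJS, FLB, NR0, FRN, P1, P2, P3, P3C, S2, S3, PQ, BIA, LIN). The maximum
principle results in Core language.

Proof. `F = flB hA ht` (FJS, FLB). NR0 gives `Bd0` and `Ini`. P1: `s ≥ s0` and `Pin κ` on `Z × (0,T)`.
For `x ≠ 0` use the unit vector `x/|x|` (homogeneity, FRN: `Nc` is `Sm`). `Pin κ` gives `PinC κ` at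
`(x,t)`: for a unit vector `n` take `q` with first row of `R(q)` equal to `n` (`fib` applied at `q = 1`, or
D5) and the dictionary for `M 0 0`. At `t = 0` it is the hypothesis. `p2`: BIA, PQ. `p3`: P2 gives
the hypothesis of P3C with `σ = 3κ²` (`κ ≤ 1/3` by PQ, so `0 < σ ≤ 1`). `s2, s3`: S2, S3. -/
def ConStmt : Prop :=
  ∀ (T κ s0 : ℝ) (A θ : ℝ → MF), 0 < T → 0 < κ → 0 < s0 → FFlow (Set.Ico 0 T) A θ →
    (∀ x, x ≠ 0 → s0 ≤ sC (A 0) (θ 0) x ∧ PinC κ (A 0) (θ 0) x) → Good T κ s0 A θ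

/-- PACKET HJS. Solutions of the heat equation along a flow are jointly smooth. Proof: as FJS, by
induction on `n`: all `Ew w (u t)` are `C^n` jointly, because `∂_t Ew w u = Ew w (LapC g u)` is a
polynomial in word derivatives of `A, θ, u` (`(gOf θ)⁻¹ = Aᵀ A`). -/
def HjsStmt : Prop :=
  ∀ (T : ℝ) (A θ : ℝ → MF) (u : ℝ → HH → ℝ), 0 < T → FFlow (Set.Ico 0 T) A θ →
    HeatOn (Set.Ico 0 T) (fun t => gOf (θ t)) u → JS T u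

/-- PACKET HEC (given HJS, FJS, FLB, NR0, FRN, HEA, D6, CON-type dictionary). The heat equation in
Core language.

Proof. `emb u` is `V`-invariant, `D (emb u) = emb (∂_t u)` (D6) `= Lap (emb u)` (FLB dictionary, at unit
`x`, `ext`). NR0 gives `Ini`, `Bd0`. `Pin κ` from `PinC` (dictionary for `M 0 0`; the first row of a
rotation is a unit vector). HEA. -/
def HecStmt : Prop :=
  ∀ (T κ A0 : ℝ) (A θ : ℝ → MF) (u : ℝ → HH → ℝ), 0 < T → 0 < κ → FFlow (Set.Ico 0 T) A θ →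
    (∀ t, 0 < t → t < T → ∀ x, x ≠ 0 → PinC κ (A t) (θ t) x ∧ 0 ≤ sC (A t) (θ t) x
      ∧ t * sC (A t) (θ t) x ≤ A0) →
    HeatOn (Set.Ico 0 T) (fun t => gOf (θ t)) u →
    (∀ x, x ≠ 0 → ggC (gOf (θ 0)) (u 0) (u 0) x ≤ 1) →
    ∀ t, 0 < t → t < T → ∀ x, x ≠ 0 → ggC (gOf (θ t)) (u t) (u t) x ≤ 1
      ∧ t * LapC (gOf (θ t)) (u t) x ^ 2 ≤ 2 + 5 * A0

/-- PACKET MAX (given EXC, EXD, GLU, LocEx). The maximal flow.

Proof. Zorn's lemma (`zorn_le_nonempty` on a type of triples `(T,A,θ)`, `0 < T ≤ Tb`,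
`FFlow (Ico 0 T) A θ`, initial values `A0, θ0` off `0`; `(T,A,θ) ≤ (T',A',θ')` if `T ≤ T'` and they agree
for `0 ≤ t < T`, `x ≠ 0`; a preorder suffices: `zorn_le` needs a preorder). Upper bound of a chain:
`T* = sup T_i`, `A* t := A_i t` for a chosen `i` with `t < T_i`; word derivatives at `x ≠ 0`, time
continuity and one-sided time derivatives at `t < T*` only depend on one `i` with `t < T_i`.
Nonempty: LocEx (restricted to `Ico 0 τ`). Let `(T,A,θ)` be maximal. If `|Nc| ≤ K` on `[0,T)`: EXC, EXD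
give a flow on `Icc 0 T`, LocEx at `(A T, θ T)` (a `Frm`) and GLU a flow on `Icc 0 (T+τ)`, so
`T + τ ≤ Tb` by `hTb` and it is strictly larger: contradiction. -/
def MaxStmt : Prop :=
  LocExStmt → ExcStmt → ExdStmt → GluStmt → ∀ (A0 θ0 : MF) (Tb : ℝ), Frm A0 θ0 →
    (∀ (T : ℝ) (A θ : ℝ → MF), 0 < T → FFlow (Set.Ico 0 T) A θ →
      (∀ x, x ≠ 0 → A 0 x = A0 x ∧ θ 0 x = θ0 x) → T ≤ Tb) →
    ∃ (T : ℝ) (A θ : ℝ → MF), 0 < T ∧ FFlow (Set.Ico 0 T) A θ ∧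
      (∀ x, x ≠ 0 → A 0 x = A0 x ∧ θ 0 x = θ0 x) ∧
      ∀ K : ℝ, ∃ t x, 0 ≤ t ∧ t < T ∧ x ≠ 0 ∧ ∃ i j, K < |Nc (A t) (θ t) x i j|

/-- PACKET ONE (given FRN, `Pool.Agent.Helper64.RF.FDG`). One time of a good flow.

Proof. `Frm (A t) (θ t)`, FRN gives `IsMetric (gOf θ)` and `FrN` (helper64's structure) at every
`x ≠ 0` with `A x`, `Nc`. FDG with `s = sC`, `η = 62 (tQ)^(-σ/2) ≤ 1/22`, `σ = 3κ²`: `∑_a (∑ A_ai E_i s)²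
= ggC s s ≤ 3840 (tQ)^(-σ) Q³ ≤ (η Q sqrt Q)²` (`p3`, `960^(1/σ) ≤ 100000^(2/σ) ≤ tQ`) and
`|N_ij - (s/3) δ_ij| ≤ sqrt q ≤ (tQ)^(-σ/2) Q ≤ Q/72`. -/
def OneStmt : Prop :=
  ∀ (T κ s0 : ℝ) (A θ : ℝ → MF), 0 < T → 0 < κ → 0 < s0 → FFlow (Set.Ico 0 T) A θ →
    Good T κ s0 A θ → ∀ t Q, 0 < t → t < T → (∀ x, x ≠ 0 → sC (A t) (θ t) x ≤ Q) →
    (∃ p, p ≠ 0 ∧ sC (A t) (θ t) p = Q) → (100000 : ℝ) ^ (2 / (3 * κ ^ 2)) ≤ t * Q →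
    (∀ x, x ≠ 0 → (1 - 682 * (t * Q) ^ (-(3 * κ ^ 2 / 2))) * Q ≤ sC (A t) (θ t) x
      ∧ ∀ i j, |Nc (A t) (θ t) x i j - (if i = j then sC (A t) (θ t) x / 3 else 0)|
          ≤ (t * Q) ^ (-(3 * κ ^ 2 / 2)) * Q)
    ∧ ∀ x y : HH, ‖x‖ = 1 → ‖y‖ = 1 → gdist (gOf (θ t)) x y ≤ 11 / Real.sqrt Q

/-- The facts about the time `τ` and the last stage (`σ = 3κ²`, `z = 2(T-t)/τ`). -/
structure Last (T κ τ : ℝ) (A θ : ℝ → MF) : Prop where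
  pos : 0 < τ ∧ τ < T
  len : τ / (4 * (100000 : ℝ) ^ (2 / (3 * κ ^ 2))) ≤ T - τ ∧ 2 * (T - τ) ≤ τ
  bef : ∀ t, 0 < t → t ≤ τ → ∀ x, x ≠ 0 →
    t * sC (A t) (θ t) x ≤ 2 * (100000 : ℝ) ^ (2 / (3 * κ ^ 2))
  aft : ∀ t, τ ≤ t → t < T → ∀ x, x ≠ 0 →
    |sC (A t) (θ t) x - 3 / (4 * (T - t))|
        ≤ 1100 * (2 * (T - t) / τ) ^ (3 * κ ^ 2 / 2) / (T - t)
    ∧ ∀ i j, |Nc (A t) (θ t) x i j - (if i = j then sC (A t) (θ t) x / 3 else 0)|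
        ≤ (2 * (T - t) / τ) ^ (3 * κ ^ 2 / 2) / (T - t)
  dis : ∀ x y : HH, ‖x‖ = 1 → ‖y‖ = 1 → gdist (gOf (θ τ)) x y ≤ 11 * Real.sqrt τ

/-- PACKET LP (given ONE). The time `τ` and the last stage.

Proof. `σ = 3κ² ≤ 1` (`κ ≤ 1/3` from `PinC`, `s > 0`), `A1 = 100000^(2/σ) ≥ 10^10`, `A0 = 2 A1`.
`Q(t) = max_x s(t,x)` (over the unit sphere), continuous in `t ∈ [0,T)` (compactness, `s` is a
continuous family). S3 with `e = 2/3` (`p2`): `Q(t) ≥ 1/(2(T-t))`, so `t Q(t) → ∞` as `t → T`; near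
`t = 0` it is small. `τ` = first time with `τ Q(τ) = A0`: `bef`. `T - τ ≥ 1/(2Q(τ)) = τ/(2 A0)`.
At `τ`: ONE: `s_min(τ) ≥ (1 - 682·10^(-5)) Q(τ) ≥ 0.99 Q(τ)`. `s2`: for `t ≥ τ`:
`s_min(t) ≥ 0.99 Q(τ)`, `t Q(t) ≥ 0.99 A0 ≥ A1`, so ONE applies at every `t ∈ [τ,T)`; write
`y = t Q(t)`. Also `T - τ ≤ 3/(4·0.99 Q(τ)) ≤ τ/A0 ≤ τ/2`. `Q(t) ≥ 1/(2(T-t))` gives
`y ≥ τ/(2(T-t)) = 1/z`, `y^(-σ/2) ≤ z^(σ/2)`, `z ≤ 1`. Let `a = 682 z^(σ/2)`, `a ≤ ` and also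
`682 y^(-σ/2) ≤ 0.00682`. `s_min(t) ≥ (1 - 682 y^(-σ/2)) Q(t)`; `s2`: `s_min(t) ≤ 3/(4(T-t))`, so
`Q(t) ≤ (3/4)(1 + 2·682 y^(-σ/2))/(T-t) ≤ (3/4)(1 + 1364 z^(σ/2))/(T-t)`, also `Q ≤ 0.77/(T-t)`.
For `r ≥ t`: `q(r) ≤ y(r)^(-σ) Q(r)² ≤ 1.03 y(r)^(-σ) s² ≤ 2 z(t)^σ s²` (`z` decreasing), so S3 with
`e = 2 z^σ`: `Q(t) ≥ 1/((4/3 + 2z^σ)(T-t)) ≥ (3/4)(1 - (3/2) z^σ)/(T-t)`, so
`s ≥ (1 - 682 z^(σ/2))(3/4)(1 - 1.5 z^σ)/(T-t) ≥ (3/4)(1 - 684 z^(σ/2))/(T-t)` (if `682 z^(σ/2) > 1`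
the claim is trivial since `s > 0`). This gives `aft` (`1023 ≤ 1100`), second part
`(tQ)^(-σ/2) Q ≤ z^(σ/2)·0.77/(T-t)`. `dis`: `11/sqrt Q(τ) = 11 sqrt(τ/A0) ≤ 11 sqrt τ`. -/
def LpStmt : Prop :=
  OneStmt → ∀ (T κ s0 : ℝ) (A θ : ℝ → MF), 0 < T → 0 < κ → 0 < s0 → FFlow (Set.Ico 0 T) A θ →
    Good T κ s0 A θ →
    (∀ C t2 : ℝ, t2 < T → ∃ t x, 0 < t ∧ t2 < t ∧ t < T ∧ x ≠ 0 ∧ C < sC (A t) (θ t) x) →
    ∃ τ, Last T κ τ A θ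

/-- PACKET DET (given FRN). The volume density.

Proof. `sqrt (det g) = |det θ|`; `∂_t θ = -θ RicF`, `∂_t det θ = -tr(RicF) det θ` (Jacobi, or
`3 × 3` expansion), `tr RicF = 3 s - tr N = 2 s`; `det θ ≠ 0` has constant sign on `[0,T)` for fixed `x`
(continuity) -- or differentiate `sqrt (det θ ^ 2)`. -/
def DetStmt : Prop :=
  ∀ (I : Set ℝ) (A θ : ℝ → MF), FFlow I A θ → ∀ t ∈ I, ∀ x, x ≠ 0 →
    0 < Real.sqrt (gOf (θ t) x).det ∧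
    HasDerivWithinAt (fun r => Real.sqrt (gOf (θ r) x).det)
      (-2 * sC (A t) (θ t) x * Real.sqrt (gOf (θ t) x).det) I t

/-- PACKET VEQ (given DET, FRN). Pointwise estimates in the last stage.

Proof. `σ = 3κ²`, `z(t) = 2(T-t)/τ`, `(z^(σ/2))' = -(σ/2) z^(σ/2)/(T-t)`, `z(τ) ≤ 1`.
(1) `v = sqrt det g/(4(T-t))^(3/2)`: `(log v)' = -2 (s - 3/(4(T-t))) ≤ 2200 z^(σ/2)/(T-t)`, so
`log v + (4400/σ) z^(σ/2)` is nonincreasing. (2) `w_a = ∑ θ_ia v_i`, `ip g v v = |w|²`, `w' = -RicF w`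
(symmetric), `(|w|²)' = -2 wᵀ RicF w = -(4/3) s |w|² + 2 wᵀ (N - s/3) w`, `φ = |w|²/(4(T-t))`:
`|φ'/φ| ≤ (4/3)|s - 3/(4(T-t))| + 6 z^(σ/2)/(T-t) ≤ 1500 z^(σ/2)/(T-t)`, integral `≤ 3000/σ`. -/
def VeqStmt : Prop :=
  ∀ (T κ τ : ℝ) (A θ : ℝ → MF), 0 < κ → FFlow (Set.Ico 0 T) A θ → Last T κ τ A θ →
    ∀ t, τ ≤ t → t < T → ∀ x, x ≠ 0 →
      Real.sqrt (gOf (θ t) x).det / ((4 * (T - t)) * Real.sqrt (4 * (T - t)))
        ≤ Real.exp (4400 / (3 * κ ^ 2)) *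
          (Real.sqrt (gOf (θ τ) x).det / ((4 * (T - τ)) * Real.sqrt (4 * (T - τ))))
      ∧ ∀ v : Fin 3 → ℝ,
        Real.exp (-(3000 / (3 * κ ^ 2))) * (ip (gOf (θ τ)) x v v / (4 * (T - τ)))
          ≤ ip (gOf (θ t)) x v v / (4 * (T - t))
        ∧ ip (gOf (θ t)) x v v / (4 * (T - t))
          ≤ Real.exp (3000 / (3 * κ ^ 2)) * (ip (gOf (θ τ)) x v v / (4 * (T - τ)))

/-- PACKET SCA. Scaling of a metric.

Proof. `GamL` scales by `c`, `(c g)⁻¹ = c⁻¹ g⁻¹`, `Gam, Rup` do not change (at every `x`: `E i (c g_jk) =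
c E i g_jk`), `Rm` scales by `c`; `A/sqrt c` is orthonormal. `det (c g) = c³ det g`. -/
def ScaStmt : Prop :=
  ∀ (g : MF) (c : ℝ), IsMetric g → 0 < c → IsMetric (fun x => c • g x)
    ∧ (∀ x, x ≠ 0 → ∀ A N, Pool.Agent.Helper64.RF.FrN g x A N →
        Pool.Agent.Helper64.RF.FrN (fun x => c • g x) x (fun a i => A a i / Real.sqrt c)
          (fun i j => N i j / c))
    ∧ gvol (fun x => c • g x) = c * Real.sqrt c * gvol g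

/-- PACKET VLB (given FRN, DET, VEQ, SCA, `Pool.Agent.Helper64.RF.FFG`). Lower volume bound.

Proof. `h(t) = g(t)/(4(T-t))` for `t ∈ [τ,T)`. By compactness `c1 |v|² ≤ ip (g τ) x v v ≤ C1 |v|²`, so by
VEQ (2) `c0 |v|² ≤ ip h v v ≤ C0 |v|²` with `c0, C0` independent of `t`. Let `η` be from FFG. The
curvature operator of `h(t)` in the frame `sqrt(4(T-t)) A` is `4(T-t) N` (SCA with
`c = 1/(4(T-t))`) and `|4(T-t) N_ij - δ_ij| ≤ (4 + 4·1100/3) z^(σ/2) → 0` as `t → T`: for some `t` it is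
`≤ η`, so `gvol h(t) ≥ v0` = volume of the unit ball. Integrating VEQ (1) over the ball:
`gvol h(t) ≤ exp(4400/σ) gvol h(τ)`, `gvol h(τ) = gvol g(τ)/((4(T-τ)) sqrt(4(T-τ)))`. By DET and
`s ≥ 0`, `sqrt det g(t,x)` is nonincreasing on `[0,τ]`, so `gvol g(0) ≥ gvol g(τ)` (integrability: `Sm`
functions are bounded on the ball off `0`, C4 of CoreGoals). -/
def VlbStmt : Prop :=
  ∀ (T κ τ : ℝ) (A θ : ℝ → MF), 0 < κ → FFlow (Set.Ico 0 T) A θ → Last T κ τ A θ →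
    (∀ t, 0 ≤ t → t < T → ∀ x, x ≠ 0 → 0 ≤ sC (A t) (θ t) x) →
    (4 * (T - τ)) * Real.sqrt (4 * (T - τ)) * Real.exp (-(4400 / (3 * κ ^ 2)))
        * (MeasureTheory.volume (Metric.ball (0 : HH) 1)).toReal
      ≤ gvol (gOf (θ 0))

/-- PACKET LIP. Lipschitz functions and the distance.

Proof. For a Lipschitz curve `c` in `S³`: `(u ∘ c)' = ∑ fr_i E_i u` a.e. (`c` is differentiable a.e.,
`|c| = 1`; C7 of CoreGoals), `|∑ v_i E_i u| ≤ sqrt (ggC g u u) sqrt (ip g v v)` (Cauchy-Schwarz for the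
positive definite `g` and its inverse), `u ∘ c` is Lipschitz, so `u(y) - u(x) = ∫ (u∘c)'`. Infimum over
curves; the set of lengths is nonempty (great circle arcs `x exp(s w)`, `x⁻¹ y = exp w`). -/
def LipStmt : Prop :=
  ∀ (g : MF) (u : HH → ℝ) (L : ℝ), IsMetric g → Sm u → 0 ≤ L →
    (∀ x, x ≠ 0 → ggC g u u x ≤ L ^ 2) → ∀ x y : HH, ‖x‖ = 1 → ‖y‖ = 1 →
      |u x - u y| ≤ L * gdist g x y

/-- PACKET SMO. Smoothing of the distance function.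

Proof. `D(x) = gdist g p (x/|x|)`. (i) `|D x - D y| ≤ gdist g x y` (unit `x, y`; triangle inequality:
concatenate curves; reverse a curve), `D` is continuous (bounded by `C` times the chordal
distance). (ii) Let `ρ ≥ 0` be a smooth bump on `ℍ` supported in `|h| < r`, `∫ρ = 1`, and
`f1(x) = ∫ ρ(h) D((1+h) x) dh = ∫ ρ(y x⁻¹ - 1) D(y) |x|⁻⁴ dy` (right multiplication by `x` has
Jacobian `|x|⁴`). The first form shows `0`-homogeneity and `|f1 - D| ≤ sup_{|h|<r} |D((1+h)x) - D(x)|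
→ 0`; the second shows `C^∞` on `x ≠ 0` (integrand smooth in `x`, compactly supported in `y`, `D`
bounded and continuous: `contDiff` under the integral, or convolution type lemma). (iii) for
imaginary `v`: `|D((1+h) x exp(sv)) - D((1+h) x)| ≤ ∫_0^s sqrt(ip g v v at ((1+h) x exp(rv))) dr`
(the curve `r ↦ u exp(rv)`, `u = (1+h)x/|(1+h)x|`, has `fr = v`), and by uniform continuity of `g` on
`S³`, `ip g (y) v v ≤ (1+ε')² ip g (x) v v` for `|y - x|` small and all `v`; so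
`|∑ v_i E_i f1 (x)| ≤ (1+ε') sqrt(ip g x v v)` for all `v`, i.e. `ggC g f1 f1 ≤ (1+ε')²` (take
`v = g⁻¹ (E f1)`). `f = f1/(1+ε')`. -/
def SmoStmt : Prop :=
  ∀ (g : MF) (p : HH) (ε : ℝ), IsMetric g → ‖p‖ = 1 → 0 < ε → ∃ f : HH → ℝ, Sm f ∧
    (∀ x, x ≠ 0 → ggC g f f x ≤ 1) ∧ ∀ x : HH, ‖x‖ = 1 → |f x - gdist g p x| ≤ ε

/-- PACKET DIA (given HeatEx, HEC, LIP, SMO, FRN). Upper diameter bound.

Proof. Let `f` be `Sm` with `ggC (g 0) f f ≤ 1`. HeatEx on `Icc 0 τ` (FFlow restricted): `u`, `u 0 = f`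
(off `0`). HEC on `Ico 0 τ` with `A0`: `ggC (u t) ≤ 1`, `|LapC u| ≤ sqrt((2+5A0)/t)` for `0 < t < τ`,
hence `|u(τ,x) - f(x)| ≤ 2 sqrt((2+5A0) τ)` (`|∂_t u| ≤ C t^(-1/2)`, e.g. `u + 2C sqrt t` monotone), and by
continuity `ggC (u τ) ≤ 1`. LIP at `τ`: `|u(τ,x) - u(τ,y)| ≤ gdist (g τ) x y ≤ 11 sqrt τ`. So
`|f x - f y| ≤ (11 + 4 sqrt(2+5A0)) sqrt τ`. Take `f` from SMO for `p = x`, `ε → 0`. `gdiam` is a
supremum of a nonempty set. -/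
def DiaStmt : Prop :=
  HeatExStmt → ∀ (T κ A0 τ : ℝ) (A θ : ℝ → MF), 0 < κ → 0 < τ → τ < T →
    FFlow (Set.Ico 0 T) A θ →
    (∀ t, 0 ≤ t → t < T → ∀ x, x ≠ 0 → PinC κ (A t) (θ t) x ∧ 0 ≤ sC (A t) (θ t) x) →
    (∀ t, 0 < t → t ≤ τ → ∀ x, x ≠ 0 → t * sC (A t) (θ t) x ≤ A0) →
    (∀ x y : HH, ‖x‖ = 1 → ‖y‖ = 1 → gdist (gOf (θ τ)) x y ≤ 11 * Real.sqrt τ) →
    gdiam (gOf (θ 0)) ≤ (11 + 4 * Real.sqrt (2 + 5 * A0)) * Real.sqrt τ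

/-- PACKET CHO. Every metric has a smooth orthonormal frame (Cholesky).

Proof. `g = θ θᵀ` with `θ` lower triangular: `θ_00 = sqrt g_00`, `θ_10 = g_10/θ_00`, `θ_20 = g_20/θ_00`,
`θ_11 = sqrt(g_11 - θ_10²)`, `θ_21 = (g_21 - θ_20 θ_10)/θ_11`, `θ_22 = sqrt(g_22 - θ_20² - θ_21²)`;
positive arguments: leading minors (`PosDef`). `A = θ⁻¹` explicit. Smooth: `Sm` closed under
`sqrt`, inverse of positive functions (C1 of CoreGoals). -/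
def ChoStmt : Prop :=
  ∀ g : MF, IsMetric g → ∃ A θ : MF, Frm A θ ∧ ∀ x, gOf θ x = g x

/-- The theorem. -/
def MainStmt : Prop :=
  ∀ δ : ℝ, 0 < δ → ∃ ε : ℝ, 0 < ε ∧ ∀ g : MF, IsMetric g → (∀ x, x ≠ 0 → PinchedAt δ g x) →
    ε * gdiam g ^ 3 ≤ gvol g

/-- PACKET FIN (given everything). Assembly.

Proof. `κ = δ/(δ+2)`, `σ = 3κ²`, `A1 = 100000^(2/σ)`, `A0 = 2A1`, `C' = 11 + 4 sqrt(2+5A0)`,
`ε = v0 exp(-4400/σ) A1^(-3/2)/C'^3`. Given `g`: CHO: `(A0,θ0)`; FRN gives `FrN`, and `PIN` (helper64):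
`sC > 0`, `PinC κ`. `s0 = min sC > 0` (compactness of the sphere, homogeneity). Every flow on
`Ico 0 T` with these initial values is `Good` (CON), and `s2` with `m = s0` gives
`s0 ≤ 3/(4(T-t1))` for all `t1 > 0`, so `T ≤ Tb = 3/(4 s0)`. MAX: a flow with unbounded `Nc`; by
`PinC κ`, `s > 0` the matrix `N` is positive, `|N_ij| ≤ s`, so `s` is unbounded, and since it is bounded
on `[0,t2]` for every `t2 < T` (continuity, compactness) the hypothesis of LP holds. LP: `τ`.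
DIA: `gdiam g ≤ C' sqrt τ`. VLB: `gvol g ≥ (4(T-τ))^(3/2) exp(-4400/σ) v0`, `4(T-τ) ≥ τ/A1`. -/
def FinStmt : Prop :=
  LocExStmt → HeatExStmt → ConStmt → (ExcStmt ∧ ExdStmt ∧ GluStmt ∧ MaxStmt) → (OneStmt ∧ LpStmt) →
    VlbStmt → DiaStmt → ChoStmt → FrnStmt → Pool.Agent.Helper64.RF.PIN → MainStmt

end Pool.Agent.Helper73.RF
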