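import Mathlib

/-!
# Project RF (MP_c98eff_gt, n = 3): the frame bundle algebra

Abstract structure: a compact space `Z` (in the application `Z = S³ × S³`, point and spin frame), a
commutative algebra `B` of smooth functions on `Z × (0,T)`, horizontal derivations `H a`, vertical
derivations `V k`, the time derivation `D`, the curvature operator `M i j` in the moving frame, and
a symmetric matrix `S a b` with `d/dt (frame) = S (frame)` (`S = Ric`: Ricci flow, `S = 0`: a static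
metric).

`FBD T` is the data, `FBD.Base` the axioms that are checked in the concrete model,
`FBD.Full` adds the identities that follow from them by Jacobi.
-/

set_option autoImplicit false

open Finset

namespace Pool.Agent.Helper73.RF

/-- Levi-Civita symbol (real) -/
def eps : Fin 3 → Fin 3 → Fin 3 → ℝ :=
  ![![![0, 0, 0], ![0, 0, 1], ![0, -1, 0]],
    ![![0, 0, -1], ![0, 0, 0], ![1, 0, 0]],
    ![![0, 1, 0], ![-1, 0, 0], ![0, 0, 0]]]

/-- the time interval -/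
abbrev TI (T : ℝ) := Set.Ioo (0 : ℝ) T

/-- Frame bundle data over the time interval `(0,T)`. -/
structure FBD (T : ℝ) where
  /-- the compact total space -/
  Z : Type
  /-- the algebra of smooth functions on `Z × (0,T)` -/
  B : Type
  [topZ : TopologicalSpace Z]
  [cptZ : CompactSpace Z]
  [neZ : Nonempty Z]
  [ringB : CommRing B]
  [algB : Algebra ℝ B]
  /-- evaluation at `(z,t)` -/
  ev : Z → TI T → (B →ₐ[ℝ] ℝ)
  /-- horizontal derivations -/
  H : Fin 3 → Derivation ℝ B B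
  /-- vertical derivations -/
  V : Fin 3 → Derivation ℝ B B
  /-- time derivation -/
  D : Derivation ℝ B B
  /-- curvature operator -/
  M : Fin 3 → Fin 3 → B
  /-- evolution of the frame -/
  S : Fin 3 → Fin 3 → B
  /-- the function `t` -/
  tt : B

attribute [instance] FBD.topZ FBD.cptZ FBD.neZ FBD.ringB FBD.algB

namespace FBD

variable {T : ℝ} (F : FBD T)

/-- `s = tr M` -/
def s : F.B := ∑ i, F.M i i

/-- `|M|²` -/
def n2 : F.B := ∑ i, ∑ j, F.M i j ^ 2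

/-- traceless part of `M` -/
noncomputable def M0 (i j : Fin 3) : F.B := F.M i j - if i = j then (1 / 3 : ℝ) • F.s else 0

/-- `q = |M0|² = |M|² - s²/3` -/
noncomputable def q : F.B := F.n2 - (1 / 3 : ℝ) • F.s ^ 2

/-- `tr M0³` -/
noncomputable def c3 : F.B := ∑ i, ∑ j, ∑ k, F.M0 i j * F.M0 j k * F.M0 k i

/-- Ricci tensor in the frame -/
def Ric (i j : Fin 3) : F.B := (if i = j then F.s else 0) - F.M i j

/-- `Y_{ak} = ε_{kbc} H_b S_{ac}` -/
def Y (a k : Fin 3) : F.B := ∑ b, ∑ c, eps k b c • F.H b (F.S a c)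

/-- the Laplacian on the frame bundle -/
def Lap (f : F.B) : F.B := ∑ a, F.H a (F.H a f)

/-- the heat operator `D - Lap` -/
def Hop (f : F.B) : F.B := F.D f - F.Lap f

/-- `⟨∇f, ∇g⟩` -/
def gg (f g : F.B) : F.B := ∑ a, F.H a f * F.H a g

/-- `|D²f|²` -/
def h2 (f : F.B) : F.B := ∑ a, ∑ b, F.H a (F.H b f) ^ 2

/-- `|DM|²` -/
def dM : F.B := ∑ c, ∑ i, ∑ j, F.H c (F.M i j) ^ 2

/-- `|DM0|²` -/
noncomputable def dM0 : F.B := ∑ c, ∑ i, ∑ j, F.H c (F.M0 i j) ^ 2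

/-- iterated horizontal derivative along a word -/
def Hw : List (Fin 3) → F.B → F.B
  | [], f => f
  | a :: w, f => F.H a (Hw w f)

/-- value at `(z,r)`, `0` outside the time interval -/
noncomputable def val (z : F.Z) (f : F.B) (r : ℝ) : ℝ :=
  open Classical in if h : r ∈ Set.Ioo (0 : ℝ) T then F.ev z ⟨r, h⟩ f else 0

/-- `f` is `V`-invariant: a function of the point only -/
def VI (f : F.B) : Prop := ∀ k, F.V k f = 0

/-- Axioms (checked in the concrete model). -/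
structure Base (F : FBD T) : Prop where
  ext : ∀ f g : F.B, (∀ z t, F.ev z t f = F.ev z t g) → f = g
  cont : ∀ f : F.B, Continuous (fun p : F.Z × TI T => F.ev p.1 p.2 f)
  tt_ev : ∀ z t, F.ev z t F.tt = (t : ℝ)
  tt_D : F.D F.tt = 1
  tt_H : ∀ a, F.H a F.tt = 0
  tt_V : ∀ k, F.V k F.tt = 0
  time : ∀ (f : F.B) (z : F.Z) (t : TI T), HasDerivAt (F.val z f) (F.ev z t (F.D f)) t
  /-- at a spatial minimum -/
  min1 : ∀ (f : F.B) (z : F.Z) (t : TI T), (∀ z', F.ev z t f ≤ F.ev z' t f) →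
    ∀ a, F.ev z t (F.H a f) = 0 ∧ 0 ≤ F.ev z t (F.H a (F.H a f))
  comp : ∀ (φ : ℝ → ℝ) (U : Set ℝ), IsOpen U → ContDiffOn ℝ ((⊤ : ℕ∞) : WithTop ℕ∞) φ U →
    ∀ f : F.B, (∀ z t, F.ev z t f ∈ U) → ∃ g : F.B, ∀ z t, F.ev z t g = φ (F.ev z t f)
  chain : ∀ (φ : ℝ → ℝ) (U : Set ℝ), IsOpen U → ContDiffOn ℝ ((⊤ : ℕ∞) : WithTop ℕ∞) φ U →
    ∀ f g : F.B, (∀ z t, F.ev z t f ∈ U) → (∀ z t, F.ev z t g = φ (F.ev z t f)) → ∀ z t,
      (∀ a, F.ev z t (F.H a g) = deriv φ (F.ev z t f) * F.ev z t (F.H a f))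
      ∧ (∀ k, F.ev z t (F.V k g) = deriv φ (F.ev z t f) * F.ev z t (F.V k f))
      ∧ F.ev z t (F.D g) = deriv φ (F.ev z t f) * F.ev z t (F.D f)
  /-- every unit vector is the first vector of a frame in the same fibre -/
  fib : ∀ (z : F.Z) (n : Fin 3 → ℝ), ∑ i, n i ^ 2 = 1 → ∃ z' : F.Z, ∀ t,
    (∀ f : F.B, F.VI f → F.ev z' t f = F.ev z t f)
    ∧ F.ev z' t (F.M 0 0) = ∑ i, ∑ j, n i * n j * F.ev z t (F.M i j)
  /-- linear independence of the frame -/
  ind : ∀ a b : Fin 3 → F.B, (∀ f : F.B, ∑ i, a i * F.H i f + ∑ k, b k * F.V k f = 0) →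
    (∀ i, a i = 0) ∧ (∀ k, b k = 0)
  VV : ∀ k l f, F.V k (F.V l f) - F.V l (F.V k f) = ∑ m, eps k l m • F.V m f
  VH : ∀ k a f, F.V k (F.H a f) - F.H a (F.V k f) = ∑ b, eps k a b • F.H b f
  HH : ∀ a b f, F.H a (F.H b f) - F.H b (F.H a f) = ∑ i, ∑ j, eps a b i • (F.M i j * F.V j f)
  DV : ∀ k f, F.D (F.V k f) = F.V k (F.D f)
  /-- the vertical part is not specified -/
  DH : ∃ Y' : Fin 3 → Fin 3 → F.B, ∀ a f, F.D (F.H a f) = F.H a (F.D f)
    + ∑ b, F.S a b * F.H b f + ∑ k, Y' a k * F.V k f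
  Ssymm : ∀ i j, F.S i j = F.S j i

/-- All identities of the algebra. -/
structure Full (F : FBD T) : Prop extends Base F where
  Msymm : ∀ i j, F.M i j = F.M j i
  VM : ∀ k i j, F.V k (F.M i j) = ∑ a, (eps k i a • F.M a j + eps k j a • F.M i a)
  bianchi : ∀ j, ∑ i, F.H i (F.M i j) = 0
  DHY : ∀ a f, F.D (F.H a f) = F.H a (F.D f) + ∑ b, F.S a b * F.H b f + ∑ k, F.Y a k * F.V k f
  DM : ∀ m j, F.D (F.M m j) = (∑ i, F.S i i) * F.M m j - ∑ i, F.S m i * F.M i j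
    + ∑ a, ∑ b, eps a b m • F.H a (F.Y b j)

/-- Ricci flow -/
def IsRF : Prop := ∀ i j, F.S i j = F.Ric i j

/-- lower bound at time `0` -/
def Ini (f : F.B) (c : ℝ) : Prop :=
  ∀ ε > 0, ∃ t0 > 0, t0 < T ∧ ∀ z (t : TI T), (t : ℝ) < t0 → c - ε ≤ F.ev z t f

/-- bounded near time `0` -/
def Bd0 (f : F.B) : Prop :=
  ∃ C t0 : ℝ, 0 < t0 ∧ t0 < T ∧ ∀ z (t : TI T), (t : ℝ) < t0 → |F.ev z t f| ≤ C

/-- pinched: `M ≥ κ s` as a quadratic form -/
def Pin (κ : ℝ) : Prop := ∀ z t, κ * F.ev z t F.s ≤ F.ev z t (F.M 0 0)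

end FBD

end Pool.Agent.Helper73.RF
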