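import Pool.Agent.Helper73.RF.TSdefs
import Pool.Agent.Helper73.RF.GoalsF
import Pool.Agent.Helper49.RF.C6
import Pool.Agent.Helper5.RF.C2
import Pool.Agent.Helper69.RF.C1
import Pool.Agent.Helper60.RF.SMO

/-!
# From `MainStmt` to the final statement about smooth metrics on the three-sphere
-/

set_option autoImplicit false

namespace Pool.Agent.Helper73.TS

open Finset MeasureTheory

open Pool.Agent

theorem pinchedAt_eq : PinchedAt = Helper47.RF.PinchedAt := rfl

theorem gdist_eq : gdist = Helper47.RF.gdist := rfl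

theorem gdiam_eq : gdiam = Helper47.RF.gdiam := rfl

theorem speed_eq : speed = Helper47.RF.speed := rfl

/-! ### changing the value at `0` -/

theorem E_congr {f f' : HH → ℝ} (h : ∀ x, x ≠ 0 → f x = f' x) (i : Fin 3) :
    E i f = E i f' := by
  funext x
  unfold E
  by_cases hx : x = 0
  · subst hx
    simp
  · have h1 : f =ᶠ[nhds x] f' := by
      filter_upwards [isOpen_compl_singleton.mem_nhds hx] with y hy
      exact h y hy
    rw [h1.fderiv_eq]

theorem E_congr' (f f' : HH → ℝ) (h : ∀ x, x ≠ 0 → f x = f' x) (i : Fin 3) (x : HH) :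
    E i f x = E i f' x := by rw [E_congr h i]

section

variable {g g' : MF} (h : ∀ x, x ≠ 0 → g x = g' x)

include h

theorem GamL_congr (i j k : Fin 3) (x : HH) (hx : x ≠ 0) : GamL g i j k x = GamL g' i j k x := by
  unfold GamL
  rw [E_congr' (fun y => g y j k) (fun y => g' y j k) (fun y hy => by rw [h y hy]) i x,
    E_congr' (fun y => g y i k) (fun y => g' y i k) (fun y hy => by rw [h y hy]) j x,
    E_congr' (fun y => g y i j) (fun y => g' y i j) (fun y hy => by rw [h y hy]) k x, h x hx]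

theorem Gam_congr (i j k : Fin 3) (x : HH) (hx : x ≠ 0) : Gam g i j k x = Gam g' i j k x := by
  unfold Gam
  rw [h x hx]
  exact Finset.sum_congr rfl fun m _ => by rw [GamL_congr h i j m x hx]

theorem Rup_congr (i j k l : Fin 3) (x : HH) (hx : x ≠ 0) : Rup g i j k l x = Rup g' i j k l x := by
  unfold Rup
  rw [E_congr' _ _ (fun y hy => Gam_congr h j k l y hy) i x,
    E_congr' _ _ (fun y hy => Gam_congr h i k l y hy) j x]
  have h1 : ∀ m, Gam g j k m x * Gam g i m l x - Gam g i k m x * Gam g j m l x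
      = Gam g' j k m x * Gam g' i m l x - Gam g' i k m x * Gam g' j m l x := fun m => by
    rw [Gam_congr h j k m x hx, Gam_congr h i m l x hx, Gam_congr h i k m x hx,
      Gam_congr h j m l x hx]
  have h2 : ∀ m, eps i j m * Gam g m k l x = eps i j m * Gam g' m k l x := fun m => by
    rw [Gam_congr h m k l x hx]
  rw [Finset.sum_congr rfl fun m _ => h1 m, Finset.sum_congr rfl fun m _ => h2 m]

theorem Rm_congr (i j k l : Fin 3) (x : HH) (hx : x ≠ 0) : Rm g i j k l x = Rm g' i j k l x := by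
  unfold Rm
  rw [h x hx]
  exact Finset.sum_congr rfl fun m _ => by rw [Rup_congr h i j k m x hx]

theorem sec_congr (x : HH) (hx : x ≠ 0) (u v : Fin 3 → ℝ) : sec g x u v = sec g' x u v := by
  unfold sec curv ar ip
  rw [h x hx]
  simp only [Rm_congr h _ _ _ _ x hx]

theorem PinchedAt_congr (δ : ℝ) (x : HH) (hx : x ≠ 0) : PinchedAt δ g x ↔ PinchedAt δ g' x := by
  unfold PinchedAt
  simp only [sec_congr h x hx]

theorem speed_congr (c : ℝ → HH) (hc : ∀ t, ‖c t‖ = 1) (t : ℝ) : speed g c t = speed g' c t := by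
  unfold speed ip
  rw [h (c t) (by intro h0; have := hc t; rw [h0, norm_zero] at this; exact zero_ne_one this)]

theorem gdist_congr (x y : HH) : gdist g x y = gdist g' x y := by
  unfold gdist
  congr 1
  ext r
  simp only [Set.mem_ofPred_eq]
  refine exists_congr fun c => and_congr_right fun hc => ?_
  have : glen g c = glen g' c := by
    unfold glen
    congr 1
    funext t
    exact speed_congr h c hc.2.1 t
  rw [this]

theorem gdiam_congr : gdiam g = gdiam g' := by
  unfold gdiam
  simp only [gdist_congr h]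

end

/-! ### homogeneity -/

theorem sec_smul {g : MF} (hg : Helper47.RF.IsMetric g) {r : ℝ} (hr : 0 < r) (x : HH)
    (u v : Fin 3 → ℝ) : sec g (r • x) u v = sec g x u v := by
  have hC6 := Helper47.RF.goal_C6 Helper47.RF.goal_C1 Helper5.RF.goal_C2 g hg
  have h1 : ∀ i j k l, Rm g i j k l (r • x) = Rm g i j k l x := fun i j k l =>
    (hC6.2.2.2.2.2.2.2.2.2.1 i j k l).hom r x hr
  have h2 : ∀ i j, g (r • x) i j = g x i j := fun i j => (hg.sm i j).hom r x hr
  unfold sec curv ar ip
  simp only [h1, h2]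

theorem PinchedAt_smul {g : MF} (hg : Helper47.RF.IsMetric g) {r : ℝ} (hr : 0 < r) (x : HH)
    (δ : ℝ) : PinchedAt δ g (r • x) ↔ PinchedAt δ g x := by
  unfold PinchedAt
  simp only [sec_smul hg hr]

/-! ### the metric with value `1` at `0` -/

open Classical in
/-- the metric with value `1` at `0` -/
noncomputable def gz (g : MF) : MF := fun x => if x = 0 then 1 else g x

theorem gz_eq (g : MF) (x : HH) (hx : x ≠ 0) : gz g x = g x := by
  unfold gz
  rw [if_neg hx]

theorem isMetric (M : RMetric) : Helper47.RF.IsMetric (gz M.g) := by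
  refine ⟨fun i j => ⟨?_, ?_⟩, fun x => ?_⟩
  · exact (M.smooth i j).congr fun x hx => by
      show gz M.g x i j = M.g x i j
      rw [gz_eq M.g x hx]
  · intro r x hr
    show gz M.g (r • x) i j = gz M.g x i j
    by_cases hx : x = 0
    · rw [hx, smul_zero]
    · rw [gz_eq M.g x hx, gz_eq M.g _ (smul_ne_zero hr.ne' hx), M.rays r x hr]
  · by_cases hx : x = 0
    · unfold gz
      rw [if_pos hx]
      exact Matrix.PosDef.one
    · rw [gz_eq M.g x hx]
      have hn : 0 < ‖x‖ := norm_pos_iff.mpr hx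
      have h1 := M.rays ‖x‖⁻¹ x (inv_pos.mpr hn)
      rw [← h1]
      apply M.posDef
      rw [norm_smul, norm_inv, norm_norm, inv_mul_cancel₀ hn.ne']

theorem pinched (M : RMetric) (δ : ℝ) (h : ∀ x : HH, ‖x‖ = 1 → PinchedAt δ M.g x) (x : HH)
    (hx : x ≠ 0) : PinchedAt δ (gz M.g) x := by
  have hn : 0 < ‖x‖ := norm_pos_iff.mpr hx
  have hu : ‖‖x‖⁻¹ • x‖ = 1 := by
    rw [norm_smul, norm_inv, norm_norm, inv_mul_cancel₀ hn.ne']
  have h0 : ‖x‖⁻¹ • x ≠ 0 := smul_ne_zero (inv_ne_zero hn.ne') hx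
  rw [← PinchedAt_smul (isMetric M) (inv_pos.mpr hn), PinchedAt_congr (gz_eq M.g) δ _ h0]
  exact h _ hu

/-! ### the volume -/

section

open Metric Set

abbrev E4 := EuclideanSpace ℝ (Fin 4)

theorem ball_integral4 (f : E4 → ℝ) (hf : ∀ (r : ℝ) (x : E4), 0 < r → f (r • x) = f x) :
    ∫ x in ball (0 : E4) 1, f x
      = 1 / 4 * ∫ x : sphere (0 : E4) 1, f x ∂(volume : Measure E4).toSphere := by
  set G : sphere (0 : E4) 1 × Ioi (0 : ℝ) → ℝ :=
    fun p => f p.1 * (Iio (⟨1, mem_Ioi.mpr one_pos⟩ : Ioi (0 : ℝ))).indicator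
      (fun _ => (1 : ℝ)) p.2 with hG
  have h1 : ∫ x in ball (0 : E4) 1, f x = ∫ x : ({(0 : E4)}ᶜ : Set E4),
      (ball (0 : E4) 1).indicator f x ∂((volume : Measure E4).comap (↑)) := by
    rw [integral_subtype_comap (measurableSet_singleton _).compl
      fun x => (ball (0 : E4) 1).indicator f x, restrict_compl_singleton,
      integral_indicator measurableSet_ball]
  have h2 : ∀ x : ({(0 : E4)}ᶜ : Set E4),
      (ball (0 : E4) 1).indicator f x = G (homeomorphUnitSphereProd E4 x) := by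
    intro x
    have hx : (x : E4) ≠ 0 := x.2
    have hn : 0 < ‖(x : E4)‖ := norm_pos_iff.mpr hx
    have e1 : f ((homeomorphUnitSphereProd E4 x).1 : E4) = f x := by
      rw [homeomorphUnitSphereProd_apply_fst_coe, hf _ _ (inv_pos.mpr hn)]
    simp only [hG]
    rw [e1]
    by_cases hb : ‖(x : E4)‖ < 1
    · rw [indicator_of_mem (by simpa using hb), indicator_of_mem, mul_one]
      show (homeomorphUnitSphereProd E4 x).2 < ⟨1, mem_Ioi.mpr one_pos⟩
      rw [← Subtype.coe_lt_coe, homeomorphUnitSphereProd_apply_snd_coe]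
      exact hb
    · rw [indicator_of_notMem (by simpa using hb), indicator_of_notMem, mul_zero]
      show ¬ (homeomorphUnitSphereProd E4 x).2 < ⟨1, mem_Ioi.mpr one_pos⟩
      rw [← Subtype.coe_lt_coe, homeomorphUnitSphereProd_apply_snd_coe]
      exact hb
  have h3 : ∫ x : ({(0 : E4)}ᶜ : Set E4), G (homeomorphUnitSphereProd E4 x)
      ∂((volume : Measure E4).comap (↑))
      = ∫ p, G p ∂((volume : Measure E4).toSphere.prod
          (Measure.volumeIoiPow (Module.finrank ℝ E4 - 1))) :=
    (volume : Measure E4).measurePreserving_homeomorphUnitSphereProd.integral_comp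
      (Homeomorph.measurableEmbedding _) G
  have h4 : ∫ p, G p ∂((volume : Measure E4).toSphere.prod
          (Measure.volumeIoiPow (Module.finrank ℝ E4 - 1)))
      = (∫ x : sphere (0 : E4) 1, f x ∂(volume : Measure E4).toSphere) * (1 / 4) := by
    simp only [hG]
    rw [integral_prod_mul (fun x : sphere (0 : E4) 1 => f x)
      (fun r => (Iio (⟨1, mem_Ioi.mpr one_pos⟩ : Ioi (0 : ℝ))).indicator (fun _ => (1 : ℝ)) r)]
    congr 1
    rw [integral_indicator measurableSet_Iio, setIntegral_const, Measure.real,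
      Measure.volumeIoiPow_apply_Iio, finrank_euclideanSpace_fin]
    norm_num
  rw [h1, integral_congr_ae (Filter.Eventually.of_forall h2), h3, h4, mul_comm]

theorem ball_integral (f : HH → ℝ) (hf : ∀ (r : ℝ) (x : HH), 0 < r → f (r • x) = f x) :
    ∫ x in ball (0 : HH) 1, f x
      = 1 / 4 * ∫ y : sphere (0 : E4) 1, f (toQ y) ∂(volume : Measure E4).toSphere := by
  rw [← ball_integral4 (fun y => f (toQ y)) (fun r y hr => by
    have : toQ (r • y) = r • toQ y := rfl
    show f (toQ (r • y)) = f (toQ y)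
    rw [this, hf r _ hr])]
  have hmp := (Quaternion.linearIsometryEquivTuple.symm).measurePreserving
  have hemb : MeasurableEmbedding (Quaternion.linearIsometryEquivTuple.symm : E4 → HH) :=
    Quaternion.linearIsometryEquivTuple.symm.toHomeomorph.measurableEmbedding
  have h1 := hmp.setIntegral_preimage_emb hemb f (ball (0 : HH) 1)
  have h2 : (Quaternion.linearIsometryEquivTuple.symm : E4 → HH) ⁻¹' ball (0 : HH) 1
      = ball (0 : E4) 1 := by
    ext y
    simp only [Set.mem_preimage, mem_ball_zero_iff, LinearIsometryEquiv.norm_map]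
  rw [h2] at h1
  rw [← h1]
  rfl

end

theorem gvol_eq (M : RMetric) : Helper47.RF.gvol (gz M.g) = gvol M.g := by
  unfold Helper47.RF.gvol gvol
  have h1 := ball_integral (fun x => Real.sqrt (gz M.g x).det) (fun r x hr => by
    show Real.sqrt (gz M.g (r • x)).det = Real.sqrt (gz M.g x).det
    have : gz M.g (r • x) = gz M.g x := by
      ext i j
      exact ((isMetric M).sm i j).hom r x hr
    rw [this])
  rw [h1]
  have h2 : ∀ y : Metric.sphere (0 : E4) 1,
      Real.sqrt (gz M.g (toQ y)).det = Real.sqrt (M.g (toQ y)).det := by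
    intro y
    rw [gz_eq M.g (toQ y)]
    intro h0
    have h3 : ‖(y : E4)‖ = 1 := norm_eq_of_mem_sphere y
    have h4 : Quaternion.linearIsometryEquivTuple.symm (y : E4) = 0 := h0
    have h5 : (y : E4) = 0 := by
      rw [← Quaternion.linearIsometryEquivTuple.symm.map_zero] at h4
      exact Quaternion.linearIsometryEquivTuple.symm.injective h4
    rw [h5, norm_zero] at h3
    exact zero_ne_one h3
  rw [integral_congr_ae (Filter.Eventually.of_forall h2)]
  ring

/-! ### the diameter is a genuine supremum -/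

theorem gdist_bdd {g : MF} (hg : Helper47.RF.IsMetric g) :
    ∃ B : ℝ, ∀ x y : HH, ‖x‖ = 1 → ‖y‖ = 1 → gdist g x y ≤ B := by
  obtain ⟨C, hC0, hC⟩ := Helper60.RF.entries_bdd hg
  refine ⟨Real.pi * Real.sqrt (9 * C * 1 ^ 2), fun x y hx hy => ?_⟩
  obtain ⟨n, hn, hxy⟩ := Helper60.RF.exists_ee' hx hy
  set θ := Real.arccos (star x * y).re with hθ
  have h1 := Helper60.RF.glen_arc_le hg hx hn θ (Real.sqrt (9 * C * 1 ^ 2)) (by
    intro r _ _
    apply Real.sqrt_le_sqrt
    exact Helper60.RF.ip_le (hC _ (by rw [norm_mul, hx, Helper60.RF.norm_ee hn, one_mul]))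
      zero_le_one (Helper60.RF.abs_le_of_unit hn))
  have h2 : Helper47.RF.gdist g x (x * Helper60.RF.ee n θ)
      ≤ Helper47.RF.glen g (Helper60.RF.arc x n θ) :=
    csInf_le (Helper60.RF.gdist_bdd g _ _) ⟨_, Helper60.RF.joins_arc hx hn θ, rfl⟩
  rw [← hxy] at h2
  have h3 : |θ| ≤ Real.pi := by
    rw [abs_of_nonneg (Real.arccos_nonneg _)]
    exact Real.arccos_le_pi _
  have h4 : |θ| * Real.sqrt (9 * C * 1 ^ 2) ≤ Real.pi * Real.sqrt (9 * C * 1 ^ 2) :=
    mul_le_mul_of_nonneg_right h3 (Real.sqrt_nonneg _)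
  exact h2.trans (h1.trans h4)

/-- the diameter is a genuine (finite) supremum -/
theorem gdist_le_gdiam (M : RMetric) (x y : HH) (hx : ‖x‖ = 1) (hy : ‖y‖ = 1) :
    gdist M.g x y ≤ gdiam M.g := by
  obtain ⟨B, hB⟩ := gdist_bdd (isMetric M)
  unfold gdiam
  apply le_csSup
  · refine ⟨B, ?_⟩
    rintro r ⟨x', y', hx', hy', rfl⟩
    rw [← gdist_congr (gz_eq M.g)]
    exact hB x' y' hx' hy'
  · exact ⟨x, y, hx, hy, rfl⟩

/-! ### the theorem -/

theorem ts (hM : Helper73.RF.MainStmt) (δ : ℝ) (hδ : 0 < δ) :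
    ∃ ε : ℝ, 0 < ε ∧ ∀ M : RMetric, (∀ x : HH, ‖x‖ = 1 → PinchedAt δ M.g x) →
      ε * gdiam M.g ^ 3 ≤ gvol M.g := by
  obtain ⟨ε, hε, h⟩ := hM δ hδ
  refine ⟨ε, hε, fun M hp => ?_⟩
  have h1 := h (gz M.g) (isMetric M) (pinched M δ hp)
  rw [gvol_eq, ← gdiam_eq, gdiam_congr (gz_eq M.g)] at h1
  exact h1

end Pool.Agent.Helper73.TS
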