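import Mathlib

/-!
# Smooth Riemannian metrics on the three-sphere

`S³` is the set of unit quaternions. Functions on `S³` are given as functions on `ℍ ∖ {0}` that are
constant on rays. A metric is given by its Gram matrix in the left-invariant frame `E_i(x) = x e_i`,
and all geometric quantities (Levi-Civita connection, curvature, lengths of curves, distance,
diameter, volume) are written in this frame. The frame is orthonormal for the round metric of
curvature `1`.
-/

set_option autoImplicit false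

namespace Pool.Agent.Helper73.TS

open Finset MeasureTheory

/-- The quaternions `ℍ = ℝ⁴` (with their Euclidean norm). `S³ = {x : ‖x‖ = 1}`. -/
abbrev HH := Quaternion ℝ

/-- the quaternion with coordinates `y` -/
def toQ (y : EuclideanSpace ℝ (Fin 4)) : HH := ⟨y 0, y 1, y 2, y 3⟩

/-- the imaginary units -/
def qe : Fin 3 → HH := ![⟨0, 1, 0, 0⟩, ⟨0, 0, 1, 0⟩, ⟨0, 0, 0, 1⟩]

/-- Levi-Civita symbol: `eps 0 1 2 = 1`, totally antisymmetric -/
noncomputable def eps (i j k : Fin 3) : ℝ :=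
  (((j : ℕ) : ℝ) - ((i : ℕ) : ℝ)) * (((k : ℕ) : ℝ) - ((j : ℕ) : ℝ)) *
    (((k : ℕ) : ℝ) - ((i : ℕ) : ℝ)) / 2

/-- The left-invariant vector field `E_i(x) = x e_i` on `S³`, acting on functions:
`E i f x` is the derivative of `f` at `x` in direction `x e_i`.
The bracket relations are `[E_i, E_j] = 2 ∑ₖ eps i j k E_k`. -/
noncomputable def E (i : Fin 3) (f : HH → ℝ) (x : HH) : ℝ := fderiv ℝ f x (x * qe i)

/-- fields of `3 × 3` matrices -/
abbrev MF := HH → Matrix (Fin 3) (Fin 3) ℝ

/-- A smooth Riemannian metric on `S³`: its Gram matrix `g x i j = g(E_i, E_j)(x)`, a smooth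
field of positive definite symmetric matrices, extended to `ℍ ∖ {0}` constant on rays. -/
structure RMetric where
  g : MF
  smooth : ∀ i j, ContDiffOn ℝ ((⊤ : ℕ∞) : WithTop ℕ∞) (fun x => g x i j) {0}ᶜ
  rays : ∀ (r : ℝ) (x : HH), 0 < r → g (r • x) = g x
  posDef : ∀ x : HH, ‖x‖ = 1 → (g x).PosDef

/-- `g(∇_{E_i} E_j, E_k)` by Koszul's formula -/
noncomputable def GamL (g : MF) (i j k : Fin 3) (x : HH) : ℝ :=
  (E i (fun y => g y j k) x + E j (fun y => g y i k) x - E k (fun y => g y i j) x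
    + 2 * ∑ l, (eps i j l * g x l k - eps i k l * g x l j - eps j k l * g x l i)) / 2

/-- Levi-Civita connection: `∇_{E_i} E_j = ∑ₖ Gam g i j k E_k` -/
noncomputable def Gam (g : MF) (i j k : Fin 3) (x : HH) : ℝ :=
  ∑ m, (g x)⁻¹ k m * GamL g i j m x

/-- Curvature `R(E_i,E_j)E_k = ∇_{E_i}∇_{E_j} E_k - ∇_{E_j}∇_{E_i} E_k - ∇_{[E_i,E_j]} E_k
= ∑ₗ Rup g i j k l E_l` -/
noncomputable def Rup (g : MF) (i j k l : Fin 3) (x : HH) : ℝ :=
  E i (Gam g j k l) x - E j (Gam g i k l) x
    + ∑ m, (Gam g j k m x * Gam g i m l x - Gam g i k m x * Gam g j m l x)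
    - 2 * ∑ m, eps i j m * Gam g m k l x

/-- `Rm g i j k l = g(R(E_i,E_j)E_k, E_l)` -/
noncomputable def Rm (g : MF) (i j k l : Fin 3) (x : HH) : ℝ := ∑ m, Rup g i j k m x * g x m l

/-- inner product of the tangent vectors `∑ uᵢ E_i`, `∑ vⱼ E_j` at `x` -/
def ip (g : MF) (x : HH) (u v : Fin 3 → ℝ) : ℝ := ∑ i, ∑ j, g x i j * u i * v j

/-- `g(R(u,v)v, u)` -/
noncomputable def curv (g : MF) (x : HH) (u v : Fin 3 → ℝ) : ℝ :=
  ∑ i, ∑ j, ∑ k, ∑ l, Rm g i j k l x * u i * v j * v k * u l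

/-- squared area of the parallelogram spanned by `u, v` -/
def ar (g : MF) (x : HH) (u v : Fin 3 → ℝ) : ℝ :=
  ip g x u u * ip g x v v - ip g x u v ^ 2

/-- sectional curvature of the plane spanned by the linearly independent vectors `u, v` -/
noncomputable def sec (g : MF) (x : HH) (u v : Fin 3 → ℝ) : ℝ := curv g x u v / ar g x u v

/-- Pointwise pinching at `x`: all sectional curvatures at `x` are positive, and
`K(σ) > δ K(σ')` for all planes `σ, σ'` at `x`. -/
def PinchedAt (δ : ℝ) (g : MF) (x : HH) : Prop :=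
  ∀ u v u' v' : Fin 3 → ℝ, LinearIndependent ℝ ![u, v] → LinearIndependent ℝ ![u', v'] →
    0 < sec g x u v ∧ δ * sec g x u' v' < sec g x u v

/-- components in the frame of a tangent vector `w = x * (∑ᵢ vᵢ qe i)` at the unit quaternion `x` -/
noncomputable def fr (x w : HH) : Fin 3 → ℝ :=
  ![(star x * w).imI, (star x * w).imJ, (star x * w).imK]

/-- speed of a curve in `S³` -/
noncomputable def speed (g : MF) (c : ℝ → HH) (t : ℝ) : ℝ :=
  Real.sqrt (ip g (c t) (fr (c t) (deriv c t)) (fr (c t) (deriv c t)))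

/-- length of the curve `c : [0,1] → S³` -/
noncomputable def glen (g : MF) (c : ℝ → HH) : ℝ := ∫ t in (0:ℝ)..1, speed g c t

/-- Lipschitz curves in `S³` from `x` to `y` -/
def Joins (c : ℝ → HH) (x y : HH) : Prop :=
  (∃ K, LipschitzWith K c) ∧ (∀ t, ‖c t‖ = 1) ∧ c 0 = x ∧ c 1 = y

/-- Riemannian distance of two points of `S³` -/
noncomputable def gdist (g : MF) (x y : HH) : ℝ := sInf {r | ∃ c, Joins c x y ∧ r = glen g c}

/-- diameter of `(S³, g)` -/
noncomputable def gdiam (g : MF) : ℝ := sSup {r | ∃ x y : HH, ‖x‖ = 1 ∧ ‖y‖ = 1 ∧ r = gdist g x y}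

/-- Riemannian volume of `(S³, g)`: the integral of `√det g` over the surface measure of the unit
sphere of `ℝ⁴` -/
noncomputable def gvol (g : MF) : ℝ :=
  ∫ y : Metric.sphere (0 : EuclideanSpace ℝ (Fin 4)) 1, Real.sqrt (g (toQ y)).det
    ∂(volume : Measure (EuclideanSpace ℝ (Fin 4))).toSphere

end Pool.Agent.Helper73.TS
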