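import Pool.Agent.Helper73.RF.TSdefs

/-!
# Sanity check of the definitions: the round metric has curvature `1`
-/

set_option autoImplicit false

namespace Pool.Agent.Helper73.TS

open Finset

/-- the round metric -/
noncomputable def round : RMetric where
  g := fun _ => 1
  smooth := fun _ _ => contDiffOn_const
  rays := fun _ _ _ => rfl
  posDef := fun _ _ => Matrix.PosDef.one

theorem E_const (i : Fin 3) (c : ℝ) (x : HH) : E i (fun _ => c) x = 0 := by
  simp [E]

theorem GamL_round (i j k : Fin 3) (x : HH) : GamL round.g i j k x = eps i j k := by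
  have e1 : ∀ a b c : Fin 3, E a (fun y => round.g y b c) x = 0 := fun a b c =>
    E_const a ((1 : Matrix (Fin 3) (Fin 3) ℝ) b c) x
  unfold GamL
  rw [e1, e1, e1]
  simp only [round, Matrix.one_apply, mul_ite, mul_one, mul_zero]
  fin_cases i <;> fin_cases j <;> fin_cases k <;> norm_num [eps, Fin.sum_univ_three]

theorem Gam_round (i j k : Fin 3) (x : HH) : Gam round.g i j k x = eps i j k := by
  unfold Gam
  simp only [GamL_round]
  simp only [round, inv_one, Matrix.one_apply, ite_mul, one_mul, zero_mul]
  simp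

theorem Rm_round (i j k l : Fin 3) (x : HH) :
    Rm round.g i j k l x = (if j = k then 1 else 0) * (if i = l then 1 else 0)
      - (if i = k then 1 else 0) * (if j = l then 1 else 0) := by
  have e1 : ∀ a b c d : Fin 3, E a (Gam round.g b c d) x = 0 := fun a b c d => by
    have : Gam round.g b c d = fun _ => eps b c d := by
      funext y
      exact Gam_round b c d y
    rw [this, E_const]
  have e2 : ∀ k' : Fin 3, Rup round.g i j k k' x
      = (if j = k then 1 else 0) * (if i = k' then 1 else 0)
      - (if i = k then 1 else 0) * (if j = k' then 1 else 0) := by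
    intro k'
    unfold Rup
    rw [e1, e1]
    simp only [Gam_round]
    fin_cases i <;> fin_cases j <;> fin_cases k <;> fin_cases k' <;>
      norm_num [eps, Fin.sum_univ_three]
  unfold Rm
  simp only [e2]
  simp only [round, Matrix.one_apply, mul_ite, mul_one, mul_zero]
  simp

theorem ip_round (x : HH) (u v : Fin 3 → ℝ) :
    ip round.g x u v = u 0 * v 0 + u 1 * v 1 + u 2 * v 2 := by
  simp [ip, round, Matrix.one_apply, Fin.sum_univ_three]

theorem curv_round (x : HH) (u v : Fin 3 → ℝ) :
    curv round.g x u v = ar round.g x u v := by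
  unfold curv ar
  simp only [Rm_round, ip_round]
  simp [Fin.sum_univ_three]
  ring

/-- all sectional curvatures of the round metric are `1` -/
theorem sec_round (x : HH) (u v : Fin 3 → ℝ) (h : LinearIndependent ℝ ![u, v]) :
    sec round.g x u v = 1 := by
  unfold sec
  rw [curv_round, div_self]
  intro h0
  have h1 : (∑ i, u i * u i) * (∑ i, v i * v i) - (∑ i, u i * v i) ^ 2 = 0 := by
    rw [← h0]
    unfold ar
    simp only [ip_round, Fin.sum_univ_three]
  rw [Fin.sum_univ_three, Fin.sum_univ_three, Fin.sum_univ_three] at h1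
  have h2 : (u 0 * v 1 - u 1 * v 0) ^ 2 + (u 0 * v 2 - u 2 * v 0) ^ 2
      + (u 1 * v 2 - u 2 * v 1) ^ 2 = 0 := by linear_combination h1
  have a1 : u 0 * v 1 - u 1 * v 0 = 0 := by
    apply pow_eq_zero_iff (two_ne_zero) |>.mp
    nlinarith [sq_nonneg (u 0 * v 1 - u 1 * v 0), sq_nonneg (u 0 * v 2 - u 2 * v 0),
      sq_nonneg (u 1 * v 2 - u 2 * v 1)]
  have a2 : u 0 * v 2 - u 2 * v 0 = 0 := by
    apply pow_eq_zero_iff (two_ne_zero) |>.mp
    nlinarith [sq_nonneg (u 0 * v 1 - u 1 * v 0), sq_nonneg (u 0 * v 2 - u 2 * v 0),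
      sq_nonneg (u 1 * v 2 - u 2 * v 1)]
  have a3 : u 1 * v 2 - u 2 * v 1 = 0 := by
    apply pow_eq_zero_iff (two_ne_zero) |>.mp
    nlinarith [sq_nonneg (u 0 * v 1 - u 1 * v 0), sq_nonneg (u 0 * v 2 - u 2 * v 0),
      sq_nonneg (u 1 * v 2 - u 2 * v 1)]
  rw [LinearIndependent.pair_iff] at h
  -- some component of `u` is nonzero
  have hu : u ≠ 0 := by
    intro hu
    have := h 1 0 (by rw [hu]; simp)
    exact one_ne_zero this.1
  obtain ⟨i, hi⟩ : ∃ i, u i ≠ 0 := by
    by_contra hc
    push Not at hc
    exact hu (funext hc)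
  have key : v i • u + (-u i) • v = 0 := by
    funext j
    fin_cases i <;> fin_cases j <;> simp <;> linarith
  exact hi (neg_eq_zero.mp (h (v i) (-u i) key).2)

end Pool.Agent.Helper73.TS
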